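import Pool.Agent.SplTr.Wall
import Pool.Agent.SplTr.Alt
import Pool.Agent.SplDq.Cnt

set_option autoImplicit false

/-!
# Near kills with a long low gap: definitions

A kill `(p, g)` at the request `t` is near (with the constant `2 ^ e`) if
`p - X t < 2 ^ e * (g - p)`.  Its class is `log2 (p - X t)`.

* `Near S e t g`: `g` is the victim of a near kill at `t`;
* `G3 S e t p g`: good near kills: nothing seen, the upper neighbour of the victim is not too close
  to the right wall;
* `Phi S c x`: the potential of the window structure of level `c`, a monotone function of the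
  request key `x`;
* `wd S e r q`: the word of the good near kills with class `r` mod 4 and symbol `q` mod
  `2 ^ (e + 2)`, ordered by the request key.
-/

namespace Pool.Agent.SplNa

open Pool.Agent.SplLog Pool.Agent.SplLs Pool.Agent.SplDq Pool.Agent.SplTr
open scoped Classical

/-- The victims of near kills. -/
def Near (S : Sys) (e t g : ℕ) : Prop := ∃ p, S.Kl t g p ∧ p - S.X t < 2 ^ e * (g - p)

/-- The class of a kill by `p`. -/
def cl (S : Sys) (t p : ℕ) : ℕ := Nat.log 2 (p - S.X t)

/-- Good near kills. -/
structure G3 (S : Sys) (e t p g : ℕ) : Prop where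
  kl : S.Kl t g p
  near : p - S.X t < 2 ^ e * (g - p)
  pU : ¬ Seen S t p
  gU : ¬ Seen S t g
  far : S.rho t g + 2 ^ (cl S t p - (e + 2)) ≤ rw S t

/-- The grid point above `p`, in units of `2 ^ (i - e)`. -/
def nu (e i p : ℕ) : ℕ := p / 2 ^ (i - e) + 1

/-- The potential of the windows of level `c`. -/
noncomputable def Phi (S : Sys) (c x : ℕ) : ℕ :=
  x + S.cnt (fun t v => S.E t v ∧ zl S (t + 1) v < x) +
    ∑ t ∈ Finset.range S.m,
      (if lw S t < x ∧ lw S t + 2 ^ c ≤ S.X t then min (rw S t - S.X t) (2 ^ c) else 0)

/-- The number of positions of the words at one request key. -/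
def LL (S : Sys) : ℕ := Nat.log 2 S.top + 1

/-- The position `x * L + (L - 1 - i)` of the word of a family stands for the class `i` at the
request key `x`. -/
noncomputable def wd (S : Sys) (e r q : ℕ) : Word where
  S := (Finset.range (S.top * LL S)).filter (fun u => ∃ t p g, t < S.m ∧ S.X t = u / LL S ∧
    G3 S e t p g ∧ cl S t p = LL S - 1 - u % LL S ∧ cl S t p % 4 = r ∧
    nu e (cl S t p) p % 2 ^ (e + 2) = q)
  tm u := u / LL S
  cl u := LL S - 1 - u % LL S
  ord := by
    intro u _ v _ huv
    have hL : 0 < LL S := Nat.succ_pos _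
    have h1 : u / LL S ≤ v / LL S := Nat.div_le_div_right huv.le
    rcases h1.lt_or_eq with h | h
    · exact Or.inl h
    · refine Or.inr ⟨h, ?_⟩
      have h2 := Nat.div_add_mod u (LL S)
      have h3 := Nat.div_add_mod v (LL S)
      have h4 := Nat.mod_lt u hL
      have h5 := Nat.mod_lt v hL
      rw [h] at h2
      omega

/-- `t` and `t'` are requests in this order of a chain of zones in which the left wall moves by
less than `2 ^ c` before both reach a key at distance `≥ 2 ^ c`: the request keys increase, and
at `t'` nothing is seen in `(X t', X t' + 2 ^ c]`, and the right wall is beyond. -/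
structure Ch (S : Sys) (c t t' : ℕ) : Prop where
  lt : t < t'
  lm : t' < S.m
  X1 : S.X t < S.X t'
  X2 : S.X t' ≤ S.X t + 2 ^ c
  w1 : S.X t + 2 ^ c < rw S t
  w2 : S.X t' + 2 ^ c < rw S t'

end Pool.Agent.SplNa
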