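import Pool.Agent.SplNr.ADefs

set_option autoImplicit false

/-! # The words of the good near kills -/

namespace Pool.Agent.SplNa

open Pool.Agent.SplLog Pool.Agent.SplLs Pool.Agent.SplDq Pool.Agent.SplTr

open scoped Classical

variable {S : Sys} {e r q t t' p g p' g' : ℕ}

/-- MODULE ba (S). The class: `Nat.pow_log_le_self`, `Nat.lt_pow_succ_log_self`; `p, g < rw S t`:
nothing is seen in `[X t, g]` (`loc_R`), `lt` from `zr_spec` (`rw S t` is `top` or seen); `p, g < top`,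
so the class is at most `log2 top`. -/
theorem g3_bd (hS : Spl S) (h : G3 S e t p g) : t < S.m ∧ S.X t + 2 ^ cl S t p ≤ p ∧
    p < S.X t + 2 ^ (cl S t p + 1) ∧ p < g ∧ S.rho t p = g ∧ g < rw S t ∧
    cl S t p < LL S ∧ S.top ≠ 0 ∧ S.X t < S.top := by
  have ht := h.kl.1.1
  have hx := h.kl.2.1
  have hp := kl_R' h.kl
  have hlt := kl_lt h.kl
  have hrho := kl_rho h.kl
  have kg := S.key g h.kl.1.2.1
  have h1 : 2 ^ cl S t p ≤ p - S.X t := Nat.pow_log_le_self 2 (by omega)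
  have h2 : p - S.X t < 2 ^ (cl S t p + 1) := Nat.lt_pow_succ_log_self (by norm_num) _
  have h3 : g < rw S t := by
    rcases zr_spec S t (S.X t) with h4 | h4
    · show g < zr S t (S.X t)
      rw [h4]
      exact kg.2
    · by_contra hcon
      exact loc_R hS h.kl.1 h.gU h4.2.le (by unfold rw at hcon; omega) h4.1
  refine ⟨ht, by omega, by omega, hlt, hrho, h3, ?_, by omega, by omega⟩
  have h5 : cl S t p ≤ Nat.log 2 S.top := Nat.log_mono_right (by omega)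
  unfold LL
  omega

/-- MODULE bb (S). The grid point: `p < nu * 2 ^ (i - e)`, `(nu - 1) * 2 ^ (i - e) ≤ p` and, for a near
kill of class `i`, `nu * 2 ^ (i - e) ≤ g` (for `e ≤ i`: `2 ^ i ≤ p - X t < 2 ^ e * (g - p)`; for `i < e` the
grid is `1`). -/
theorem sym (hS : Spl S) (h : G3 S e t p g) : (nu e (cl S t p) p - 1) * 2 ^ (cl S t p - e) ≤ p ∧
    p < nu e (cl S t p) p * 2 ^ (cl S t p - e) ∧ nu e (cl S t p) p * 2 ^ (cl S t p - e) ≤ g := by
  obtain ⟨_, h2, h3, h4, _⟩ := g3_bd hS h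
  have hn := h.near
  obtain ⟨i, hi⟩ : ∃ i, i = cl S t p := ⟨_, rfl⟩
  rw [← hi] at h2 h3 ⊢
  unfold nu
  rw [Nat.add_sub_cancel]
  have hA : 0 < 2 ^ (i - e) := by positivity
  have h5 : p / 2 ^ (i - e) * 2 ^ (i - e) ≤ p := Nat.div_mul_le_self _ _
  have h6 : p < (p / 2 ^ (i - e) + 1) * 2 ^ (i - e) := by
    rw [mul_comm]
    exact Nat.lt_mul_div_succ p hA
  refine ⟨h5, h6, ?_⟩
  rcases Nat.lt_or_ge i e with hie | hie
  · have h7 : i - e = 0 := by omega
    rw [h7, pow_zero, Nat.div_one, mul_one]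
    exact h4
  · have h7 : 2 ^ i = 2 ^ e * 2 ^ (i - e) := by
      rw [← pow_add]
      congr 1
      omega
    have h8 : 2 ^ e * 2 ^ (i - e) < 2 ^ e * (g - p) := by omega
    have h9 : 2 ^ (i - e) < g - p := lt_of_mul_lt_mul_left h8 (Nat.zero_le _)
    rw [Nat.add_mul, one_mul]
    omega

private theorem bc_nu {e i x p p' : ℕ} (h1 : x + 2 ^ i ≤ p) (h2 : p' < x + 2 ^ (i + 1))
    (hpp : p < p') (hn : nu e i p % 2 ^ (e + 2) = nu e i p' % 2 ^ (e + 2)) :
    nu e i p = nu e i p' := by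
  unfold nu at hn ⊢
  obtain ⟨A, hA⟩ : ∃ A, A = 2 ^ (i - e) := ⟨_, rfl⟩
  rw [← hA] at hn ⊢
  have hA0 : 0 < A := by rw [hA]; positivity
  obtain ⟨N, hN⟩ : ∃ N, N = 2 ^ e := ⟨_, rfl⟩
  have h3 : 2 ^ i ≤ N * A := by
    rw [hA, hN, ← pow_add]
    exact Nat.pow_le_pow_right (by norm_num) (by omega)
  have h4 : 2 ^ (i + 1) = 2 * 2 ^ i := by ring
  have h5 : 2 ^ (e + 2) = 4 * N := by rw [hN]; ring
  have hN0 : 0 < N := by rw [hN]; positivity
  rw [h5] at hn
  have h6 : p' < p + N * A := by omega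
  have h7 : p / A ≤ p' / A := Nat.div_le_div_right hpp.le
  have h8 : p' / A ≤ p / A + N := by
    have : p' / A ≤ (p + N * A) / A := Nat.div_le_div_right h6.le
    rwa [Nat.add_mul_div_right _ _ hA0] at this
  have h9 : p / A + 1 ≡ p' / A + 1 [MOD 4 * N] := hn
  have h10 := (Nat.modEq_iff_dvd' (by omega : p / A + 1 ≤ p' / A + 1)).1 h9
  have h11 : p' / A + 1 - (p / A + 1) = 0 := by
    apply Nat.eq_zero_of_dvd_of_lt h10
    omega
  omega

private theorem bc_lt (hS : Spl S) (h : G3 S e t p g) (h' : G3 S e t p' g')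
    (hc : cl S t p = cl S t p')
    (hn : nu e (cl S t p) p % 2 ^ (e + 2) = nu e (cl S t p') p' % 2 ^ (e + 2)) : ¬ p < p' := by
  intro hpp
  obtain ⟨_, h2, _, _, h3, _⟩ := g3_bd hS h
  obtain ⟨_, _, h2', _⟩ := g3_bd hS h'
  rw [← hc] at h2' hn
  have h4 := bc_nu h2 h2' hpp hn
  have h5 := (sym hS h').2.1
  have h6 := (sym hS h).2.2
  have h7 := (Sys.R_above (kl_R' h.kl) (kl_R' h'.kl) hpp).1
  rw [← hc, ← h4] at h5
  omega

/-- MODULE bc (M). At one time there is only one good near kill with given class and symbol: the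
distance of the killers is `< 2 ^ i`, so the `nu` differ by at most `2 ^ e` (for `i < e`: by less than
`2 ^ i`) and are equal; if `p < p'` then `g = rho t p ≤ p' < mu ≤ g` (`Sys.R_above`, `sym`). -/
theorem g3_unique (hS : Spl S) (h : G3 S e t p g) (h' : G3 S e t p' g')
    (hc : cl S t p = cl S t p')
    (hn : nu e (cl S t p) p % 2 ^ (e + 2) = nu e (cl S t p') p' % 2 ^ (e + 2)) :
    p = p' ∧ g = g' := by
  have h1 := bc_lt hS h h' hc hn
  have h2 := bc_lt hS h' h hc.symm hn.symm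
  have h3 : p = p' := by omega
  subst h3
  exact ⟨rfl, (kl_rho h.kl).symm.trans (kl_rho h'.kl)⟩

/-- MODULE bd (S). The elements of the word (unfold). -/
theorem wd_mem (hS : Spl S) {u : ℕ} (h : u ∈ (wd S e r q).S) : ∃ t p g, t < S.m ∧
    S.X t = (wd S e r q).tm u ∧ G3 S e t p g ∧ cl S t p = (wd S e r q).cl u ∧
    (wd S e r q).cl u % 4 = r ∧ nu e ((wd S e r q).cl u) p % 2 ^ (e + 2) = q := by
  have h' : u ∈ (Finset.range (S.top * LL S)).filter (fun u => ∃ t p g, t < S.m ∧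
    S.X t = u / LL S ∧ G3 S e t p g ∧ cl S t p = LL S - 1 - u % LL S ∧ cl S t p % 4 = r ∧
    nu e (cl S t p) p % 2 ^ (e + 2) = q) := h
  rw [Finset.mem_filter] at h'
  obtain ⟨_, t, p, g, h1, h2, h3, h4, h5, h6⟩ := h'
  rw [h4] at h5 h6
  exact ⟨t, p, g, h1, h2, h3, h4, h5, h6⟩

/-- MODULE be (M). Every good near kill of class `≥ c` occurs in one of the words: the map
`(t, g) ↦ (i % 4, nu % 2 ^ (e + 2), X t * L + (L - 1 - i))` is injective (`hS.inj`, `g3_unique`). Compare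
`Pop.card_sh` in SplDq/NrF.lean. -/
theorem card_g3 (hS : Spl S) (e c : ℕ) :
    S.cnt (fun t g => ∃ p, G3 S e t p g ∧ c ≤ cl S t p) ≤
      ∑ r ∈ Finset.range 4, ∑ q ∈ Finset.range (2 ^ (e + 2)), ((wd S e r q).Sc c).card := by
  have hch : ∀ q : ℕ × ℕ, ∃ p, (∃ p, G3 S e q.1 p q.2 ∧ c ≤ cl S q.1 p) →
      G3 S e q.1 p q.2 ∧ c ≤ cl S q.1 p := by
    intro q
    by_cases hq : ∃ p, G3 S e q.1 p q.2 ∧ c ≤ cl S q.1 p
    · obtain ⟨p, hp⟩ := hq
      exact ⟨p, fun _ => hp⟩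
    · exact ⟨0, fun h => absurd h hq⟩
  choose pk hpk using hch
  have hL0 : 0 < LL S := Nat.succ_pos _
  have e1 : ∑ r ∈ Finset.range 4, ∑ q ∈ Finset.range (2 ^ (e + 2)), ((wd S e r q).Sc c).card
      = ((Finset.range 4 ×ˢ Finset.range (2 ^ (e + 2))).sigma
          (fun x => (wd S e x.1 x.2).Sc c)).card := by
    rw [Finset.card_sigma, Finset.sum_product]
  rw [e1]
  apply Finset.card_le_card_of_injOn (fun q => (⟨(cl S q.1 (pk q) % 4,
    nu e (cl S q.1 (pk q)) (pk q) % 2 ^ (e + 2)),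
    S.X q.1 * LL S + (LL S - 1 - cl S q.1 (pk q))⟩ : (_ : ℕ × ℕ) × ℕ))
  · intro q hq
    have hq' := Finset.mem_coe.1 hq
    rw [Sys.mem_set] at hq'
    obtain ⟨h1, h2⟩ := hpk q hq'.2.2
    obtain ⟨b1, _, _, _, _, _, b2, _, b3⟩ := g3_bd hS h1
    have hdiv : (S.X q.1 * LL S + (LL S - 1 - cl S q.1 (pk q))) / LL S = S.X q.1 := by
      rw [mul_comm, Nat.mul_add_div hL0, Nat.div_eq_of_lt (by omega), add_zero]
    have hmod : (S.X q.1 * LL S + (LL S - 1 - cl S q.1 (pk q))) % LL S =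
        LL S - 1 - cl S q.1 (pk q) := by
      rw [mul_comm, Nat.mul_add_mod, Nat.mod_eq_of_lt (by omega)]
    simp only [Finset.coe_sigma, Set.mem_sigma_iff, Finset.coe_product, Set.mem_prod,
      Finset.mem_coe, Finset.mem_range]
    refine ⟨⟨Nat.mod_lt _ (by norm_num), Nat.mod_lt _ (by positivity)⟩, ?_⟩
    unfold Word.Sc
    rw [Finset.mem_filter]
    constructor
    · change S.X q.1 * LL S + (LL S - 1 - cl S q.1 (pk q)) ∈
        (Finset.range (S.top * LL S)).filter (fun u => ∃ t p g, t < S.m ∧ S.X t = u / LL S ∧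
          G3 S e t p g ∧ cl S t p = LL S - 1 - u % LL S ∧ cl S t p % 4 = cl S q.1 (pk q) % 4 ∧
          nu e (cl S t p) p % 2 ^ (e + 2) = nu e (cl S q.1 (pk q)) (pk q) % 2 ^ (e + 2))
      rw [Finset.mem_filter, hdiv, hmod]
      constructor
      · rw [Finset.mem_range]
        have h3 : (S.X q.1 + 1) * LL S ≤ S.top * LL S := Nat.mul_le_mul_right _ b3
        have h4 : (S.X q.1 + 1) * LL S = S.X q.1 * LL S + LL S := by ring
        omega
      · exact ⟨q.1, pk q, q.2, hq'.1, rfl, h1, by omega, rfl, rfl⟩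
    · change c ≤ LL S - 1 - (S.X q.1 * LL S + (LL S - 1 - cl S q.1 (pk q))) % LL S
      rw [hmod]
      omega
  · intro q hq q' hq' heq
    have hqm := Finset.mem_coe.1 hq
    have hqm' := Finset.mem_coe.1 hq'
    rw [Sys.mem_set] at hqm hqm'
    obtain ⟨h1, h2⟩ := hpk q hqm.2.2
    obtain ⟨h1', h2'⟩ := hpk q' hqm'.2.2
    have b2 := (g3_bd hS h1).2.2.2.2.2.2.1
    have b2' := (g3_bd hS h1').2.2.2.2.2.2.1
    simp only [Sigma.mk.injEq, heq_eq_eq, Prod.mk.injEq] at heq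
    obtain ⟨⟨-, h5⟩, h3⟩ := heq
    have hdiv : (S.X q.1 * LL S + (LL S - 1 - cl S q.1 (pk q))) / LL S = S.X q.1 := by
      rw [mul_comm, Nat.mul_add_div hL0, Nat.div_eq_of_lt (by omega), add_zero]
    have hdiv' : (S.X q'.1 * LL S + (LL S - 1 - cl S q'.1 (pk q'))) / LL S = S.X q'.1 := by
      rw [mul_comm, Nat.mul_add_div hL0, Nat.div_eq_of_lt (by omega), add_zero]
    have hX : S.X q.1 = S.X q'.1 := by rw [← hdiv, ← hdiv', h3]
    have ht : q.1 = q'.1 := hS.inj _ _ hqm.1 hqm'.1 hX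
    have hi : cl S q.1 (pk q) = cl S q'.1 (pk q') := by
      rw [hX] at h3
      omega
    rw [← ht] at h1' hi h5
    have h6 := g3_unique hS h1 h1' hi h5
    exact Prod.ext ht h6.2

private theorem bf_lt (hS : Spl S) (h1 : S.Kl t g p) (h2 : S.Kl t g' p')
    (n2 : p' - S.X t < 2 ^ e * (g' - p')) (u2 : ¬ Seen S t g')
    (b1 : rw S t < S.rho t g + 2 ^ (cl S t p - (e + 2))) : ¬ p < p' := by
  intro hpp
  have hR := kl_R' h2
  have h3 := (Sys.R_above (kl_R' h1) hR hpp).1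
  rw [kl_rho h1] at h3
  have h4 : g < p' := by
    rcases h3.lt_or_eq with h3 | h3
    · exact h3
    · subst h3
      have h5 := (Sys.kl_facts h2).1.2
      have h6 := h1.2.2
      have h7 := h1.2.1
      omega
  have h5 := (Sys.R_above (kl_R h1) hR h4).1
  have h6 : g' < rw S t := by
    by_contra h7
    rcases zr_spec S t (S.X t) with h8 | ⟨h8, h9⟩
    · have h10 := S.key g' (kl_R h2).2.1
      change rw S t = S.top at h8
      omega
    · change Seen S t (rw S t) at h8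
      change S.X t < rw S t at h9
      exact loc_R hS (kl_R h2) u2 h9.le (by omega) h8
  have h7 : 2 ^ cl S t p ≤ p - S.X t := Nat.pow_log_le_self 2 (by have := h1.2.1; omega)
  have h8 : 2 ^ (cl S t p - (e + 2)) ≤ g' - p' := by
    have h9 := kl_lt h2
    rcases Nat.lt_or_ge (cl S t p) (e + 2) with h10 | h10
    · have h11 : cl S t p - (e + 2) = 0 := by omega
      rw [h11, pow_zero]
      omega
    · obtain ⟨D, hD⟩ : ∃ D, D = 2 ^ (cl S t p - (e + 2)) := ⟨_, rfl⟩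
      have h11 : 2 ^ cl S t p = 2 ^ e * (4 * D) := by
        rw [hD, show (4 : ℕ) = 2 ^ 2 from rfl, ← pow_add, ← pow_add]
        congr 1
        omega
      rw [← hD]
      have h12 : 2 ^ e * (4 * D) < 2 ^ e * (g' - p') := by omega
      have h13 := lt_of_mul_lt_mul_left h12 (Nat.zero_le _)
      omega
  have h9 := kl_lt h2
  omega

/-- MODULE bf (S). Bad near kills: at one time at most one victim. If `p < p'` are the killers of two
near kills with unseen victims then `rho t g ≤ p'` (`Sys.R_above`), `g' < rw S t`,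
`2 ^ cl S t p ≤ p - X t ≤ p' - X t < 2 ^ e * (g' - p')`, so
`rho t g + 2 ^ (cl S t p - (e + 2)) ≤ p' + (g' - p') ≤ rw S t` : the lower one is good (if its killer is
unseen). -/
theorem bad_card (hS : Spl S) (e : ℕ) : S.cnt (fun t g => ∃ p, S.Kl t g p ∧
    p - S.X t < 2 ^ e * (g - p) ∧ ¬ Seen S t p ∧ ¬ Seen S t g ∧
    rw S t < S.rho t g + 2 ^ (cl S t p - (e + 2))) ≤ S.m := by
  have e1 : S.m = (Finset.range S.m).card := (Finset.card_range _).symm
  refine le_trans ?_ e1.ge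
  apply Finset.card_le_card_of_injOn (fun q => q.1)
  · intro q hq
    have hq' := Finset.mem_coe.1 hq
    rw [Sys.mem_set] at hq'
    exact Finset.mem_coe.2 (Finset.mem_range.2 hq'.1)
  · intro q hq q' hq' heq
    have h1 := Finset.mem_coe.1 hq
    have h2 := Finset.mem_coe.1 hq'
    rw [Sys.mem_set] at h1 h2
    obtain ⟨_, _, p, k1, n1, _, u1, b1⟩ := h1
    obtain ⟨_, _, p', k2, n2, _, u2, b2⟩ := h2
    have h3 : q.1 = q'.1 := heq
    rw [← h3] at k2 n2 u2 b2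
    have h4 := bf_lt hS k1 k2 n2 u2 b1
    have h5 := bf_lt hS k2 k1 n1 u1 b2
    have h6 : p = p' := by omega
    subst h6
    exact Prod.ext h3 ((kl_rho k1).symm.trans (kl_rho k2))

/-- MODULE bg (S). Near kills with small class: at one time the killers are different keys of
`(X t, X t + 2 ^ c)`. -/
theorem small_card (S : Sys) (e c : ℕ) : S.cnt (fun t g => ∃ p, S.Kl t g p ∧
    p - S.X t < 2 ^ e * (g - p) ∧ cl S t p < c) ≤ S.m * 2 ^ c := by
  classical
  have hch : ∀ q : ℕ × ℕ, ∃ p, (∃ p, S.Kl q.1 q.2 p ∧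
    p - S.X q.1 < 2 ^ e * (q.2 - p) ∧ cl S q.1 p < c) → S.Kl q.1 q.2 p ∧ cl S q.1 p < c := by
    intro q
    by_cases hq : ∃ p, S.Kl q.1 q.2 p ∧ p - S.X q.1 < 2 ^ e * (q.2 - p) ∧ cl S q.1 p < c
    · obtain ⟨p, hp⟩ := hq
      exact ⟨p, fun _ => ⟨hp.1, hp.2.2⟩⟩
    · exact ⟨0, fun h => absurd h hq⟩
  choose pk hpk using hch
  have e1 : S.m * 2 ^ c = (Finset.range S.m ×ˢ Finset.range (2 ^ c)).card := by
    rw [Finset.card_product, Finset.card_range, Finset.card_range]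
  rw [e1]
  apply Finset.card_le_card_of_injOn (fun q => (q.1, pk q - S.X q.1))
  · intro q hq
    have hq' := Finset.mem_coe.1 hq
    rw [Sys.mem_set] at hq'
    obtain ⟨h1, h2⟩ := hpk q hq'.2.2
    rw [Finset.mem_coe, Finset.mem_product, Finset.mem_range, Finset.mem_range]
    refine ⟨hq'.1, ?_⟩
    have h3 : pk q - S.X q.1 < 2 ^ (cl S q.1 (pk q) + 1) := Nat.lt_pow_succ_log_self (by norm_num) _
    exact h3.trans_le (Nat.pow_le_pow_right (by norm_num) h2)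
  · intro q hq q' hq' heq
    have hq1 := Finset.mem_coe.1 hq
    have hq1' := Finset.mem_coe.1 hq'
    rw [Sys.mem_set] at hq1 hq1'
    obtain ⟨h1, h2⟩ := hpk q hq1.2.2
    obtain ⟨h1', h2'⟩ := hpk q' hq1'.2.2
    have h3 : q.1 = q'.1 := (Prod.mk.inj heq).1
    have h4 : pk q - S.X q.1 = pk q' - S.X q'.1 := (Prod.mk.inj heq).2
    have h5 := h1.2.1
    have h6 := h1'.2.1
    have h7 : pk q = pk q' := by
      rw [h3] at h4 h5
      omega
    refine Prod.ext h3 ?_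
    rw [h3, h7] at h1
    exact (Sys.kl_inj h1 h1')

private theorem bh_mono {P Q : ℕ → ℕ → Prop} (h : ∀ t v, t < S.m → v ∈ S.K → P t v → Q t v) :
    S.cnt P ≤ S.cnt Q := by
  refine Finset.card_le_card ?_
  intro x hx
  rw [Sys.mem_set] at hx ⊢
  exact ⟨hx.1, hx.2.1, h _ _ hx.1 hx.2.1 hx.2.2⟩

private theorem bh_or (P Q : ℕ → ℕ → Prop) :
    S.cnt (fun t v => P t v ∨ Q t v) ≤ S.cnt P + S.cnt Q := by
  refine le_trans (Finset.card_le_card ?_) (Finset.card_union_le _ _)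
  intro x hx
  rw [Finset.mem_union, Sys.mem_set, Sys.mem_set]
  rw [Sys.mem_set] at hx
  rcases hx.2.2 with h | h
  · exact Or.inl ⟨hx.1, hx.2.1, h⟩
  · exact Or.inr ⟨hx.1, hx.2.1, h⟩

/-- MODULE bh (S). Near kills in which the victim or the killer was seen: at most `2 irr`
(`(t, g) ↦ (t, g)`, resp. `(t, p)`; `Sys.kl_inj`, `kl_R'`). -/
theorem seen_card (S : Sys) (e : ℕ) : S.cnt (fun t g => ∃ p, S.Kl t g p ∧
    p - S.X t < 2 ^ e * (g - p) ∧ (Seen S t p ∨ Seen S t g)) ≤ 2 * irr S := by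
  have h1 : S.cnt (fun t g => ∃ p, S.Kl t g p ∧
      p - S.X t < 2 ^ e * (g - p) ∧ (Seen S t p ∨ Seen S t g)) ≤
      S.cnt (fun t g => (∃ p, S.Kl t g p ∧ Seen S t p) ∨ (S.E t g ∧ Seen S t g)) := by
    refine bh_mono ?_
    rintro t v - - ⟨p, hp, -, h | h⟩
    · exact Or.inl ⟨p, hp, h⟩
    · exact Or.inr ⟨Sys.R_E hp.1, h⟩
  have h2 := bh_or (S := S) (fun t g => ∃ p, S.Kl t g p ∧ Seen S t p)
    (fun t g => S.E t g ∧ Seen S t g)
  have h3 : S.cnt (fun t g => ∃ p, S.Kl t g p ∧ Seen S t p) ≤ irr S := by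
    refine Sys.cnt_le_of_inj (S.set (fun t g => S.E t g ∧ Seen S t g))
      (fun t g => (t, S.lam (t + 1) g)) ?_ ?_
    · rintro t v - - ⟨p, hp, h⟩
      have hR := kl_R' hp
      rw [Sys.mem_set]
      dsimp only
      rw [hp.2.2]
      exact ⟨hR.1, hR.2.1, Sys.R_E hR, h⟩
    · rintro t v t' v' - - ⟨p, hp, -⟩ - - ⟨p', hp', -⟩ heq
      simp only [Prod.mk.injEq] at heq
      obtain ⟨rfl, h5⟩ := heq
      refine ⟨rfl, ?_⟩
      rw [hp.2.2, hp'.2.2] at h5
      subst h5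
      exact Sys.kl_inj hp hp'
  have h4 : S.cnt (fun t g => S.E t g ∧ Seen S t g) = irr S := rfl
  omega

/-- MODULE bi (S). From `bad_card`, `small_card`, `seen_card`, `card_g3` (case distinction). -/
theorem near_split (hS : Spl S) (e c : ℕ) : S.cnt (Near S e) ≤ 2 * irr S + S.m + S.m * 2 ^ c +
    ∑ r ∈ Finset.range 4, ∑ q ∈ Finset.range (2 ^ (e + 2)), ((wd S e r q).Sc c).card := by
  have h1 : S.cnt (Near S e) ≤ S.cnt (fun t g =>
      (∃ p, S.Kl t g p ∧ p - S.X t < 2 ^ e * (g - p) ∧ (Seen S t p ∨ Seen S t g)) ∨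
      ((∃ p, S.Kl t g p ∧ p - S.X t < 2 ^ e * (g - p) ∧ ¬ Seen S t p ∧ ¬ Seen S t g ∧
        rw S t < S.rho t g + 2 ^ (cl S t p - (e + 2))) ∨
      ((∃ p, S.Kl t g p ∧ p - S.X t < 2 ^ e * (g - p) ∧ cl S t p < c) ∨
        (∃ p, G3 S e t p g ∧ c ≤ cl S t p)))) := by
    refine bh_mono ?_
    rintro t v - - ⟨p, hp, hn⟩
    by_cases h1 : Seen S t p ∨ Seen S t v
    · exact Or.inl ⟨p, hp, hn, h1⟩
    · rw [not_or] at h1
      refine Or.inr ?_
      by_cases h2 : rw S t < S.rho t v + 2 ^ (cl S t p - (e + 2))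
      · exact Or.inl ⟨p, hp, hn, h1.1, h1.2, h2⟩
      · refine Or.inr ?_
        by_cases h3 : cl S t p < c
        · exact Or.inl ⟨p, hp, hn, h3⟩
        · exact Or.inr ⟨p, ⟨hp, hn, h1.1, h1.2, not_lt.mp h2⟩, not_lt.mp h3⟩
  have h2 := bh_or (S := S) (fun t g => ∃ p, S.Kl t g p ∧ p - S.X t < 2 ^ e * (g - p) ∧
      (Seen S t p ∨ Seen S t g)) (fun t g =>
      (∃ p, S.Kl t g p ∧ p - S.X t < 2 ^ e * (g - p) ∧ ¬ Seen S t p ∧ ¬ Seen S t g ∧
        rw S t < S.rho t g + 2 ^ (cl S t p - (e + 2))) ∨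
      ((∃ p, S.Kl t g p ∧ p - S.X t < 2 ^ e * (g - p) ∧ cl S t p < c) ∨
        (∃ p, G3 S e t p g ∧ c ≤ cl S t p)))
  have h3 := bh_or (S := S) (fun t g =>
      ∃ p, S.Kl t g p ∧ p - S.X t < 2 ^ e * (g - p) ∧ ¬ Seen S t p ∧ ¬ Seen S t g ∧
        rw S t < S.rho t g + 2 ^ (cl S t p - (e + 2))) (fun t g =>
      (∃ p, S.Kl t g p ∧ p - S.X t < 2 ^ e * (g - p) ∧ cl S t p < c) ∨
        (∃ p, G3 S e t p g ∧ c ≤ cl S t p))
  have h4 := bh_or (S := S) (fun t g =>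
      ∃ p, S.Kl t g p ∧ p - S.X t < 2 ^ e * (g - p) ∧ cl S t p < c)
      (fun t g => ∃ p, G3 S e t p g ∧ c ≤ cl S t p)
  have h5 := seen_card S e
  have h6 := bad_card hS e
  have h7 := small_card S e c
  have h8 := card_g3 hS e c
  omega

end Pool.Agent.SplNa
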