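import Pool.Agent.SplNr.APhi

import Pool.Agent.SplNr.AWrd

set_option autoImplicit false

/-! # The recursion for the words -/

namespace Pool.Agent.SplNa

open Pool.Agent.SplLog Pool.Agent.SplLs Pool.Agent.SplDq Pool.Agent.SplTr

open scoped Classical

variable {S : Sys} {e r q c t t' p g p' g' : ℕ}

/-- Two good near kills of class `≥ c` in one window of level `c` (`Phi / 2 ^ (c - (e + 2))`). -/
structure Win (S : Sys) (e c t p g t' p' g' : ℕ) : Prop where
  k : G3 S e t p g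
  k' : G3 S e t' p' g'
  c1 : c ≤ cl S t p
  c2 : c ≤ cl S t' p'
  om : Phi S c (S.X t) / 2 ^ (c - (e + 2)) = Phi S c (S.X t') / 2 ^ (c - (e + 2))

/-- MODULE ca (S). `X t < X t'` in one window: the difference of the potentials is
`< 2 ^ (c - (e + 2)) ≤ 2 ^ c`, so is `X t' - X t` (`phi_left`, `phi_mono`); the zones are longer than `2 ^ c`
(`g3_bd`), `ch_of`. -/
theorem win_ch (hS : Spl S) (h : Win S e c t p g t' p' g') (hx : S.X t < S.X t') :
    Ch S c t t' ∧ S.X t' < S.X t + 2 ^ (c - (e + 2)) ∧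
      Phi S c (S.X t') < Phi S c (S.X t) + 2 ^ (c - (e + 2)) := by
  have b := g3_bd hS h.k
  have b' := g3_bd hS h.k'
  have hW : 0 < 2 ^ (c - (e + 2)) := Nat.two_pow_pos _
  have hWc : 2 ^ (c - (e + 2)) ≤ 2 ^ c := Nat.pow_le_pow_right (by norm_num) (by omega)
  have hp : Phi S c (S.X t') < Phi S c (S.X t) + 2 ^ (c - (e + 2)) := by
    have h1 := Nat.lt_mul_div_succ (Phi S c (S.X t')) hW
    have h2 := Nat.mul_div_le (Phi S c (S.X t)) (2 ^ (c - (e + 2)))
    rw [h.om] at h2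
    rw [Nat.mul_succ] at h1
    omega
  have hl := phi_left S c hx.le
  have h1 : 2 ^ c ≤ 2 ^ cl S t p := Nat.pow_le_pow_right (by norm_num) h.c1
  have h2 : 2 ^ c ≤ 2 ^ cl S t' p' := Nat.pow_le_pow_right (by norm_num) h.c2
  exact ⟨ch_of hS b.1 b'.1 hx (by omega) (by omega) (by omega), by omega, hp⟩

private theorem ca_symm (h : Win S e c t p g t' p' g') : Win S e c t' p' g' t p g :=
  ⟨h.k', h.k, h.c2, h.c1, h.om.symm⟩

/-- MODULE cb (S). The order of the times is the order of the request keys (`win_ch`, both ways;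
`X t = X t'` gives `t = t'` by `hS.inj`). -/
theorem win_lt (hS : Spl S) (h : Win S e c t p g t' p' g') : t < t' ↔ S.X t < S.X t' := by
  constructor
  · intro ht
    rcases Nat.lt_trichotomy (S.X t) (S.X t') with h1 | h1 | h1
    · exact h1
    · have := hS.inj t t' h.k.kl.1.1 h.k'.kl.1.1 h1
      omega
    · have := (win_ch hS (ca_symm h) h1).1.lt
      omega
  · intro hx
    exact (win_ch hS h hx).1.lt

private theorem cc_aux (hS : Spl S) (h : Win S e c t p g t' p' g') (hx : S.X t < S.X t') :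
    S.rho t g ≤ rw S t' ∧ S.rho t' g' ≤ rw S t := by
  obtain ⟨h1, h2, h3⟩ := win_ch hS h hx
  have hWc : 2 ^ (c - (e + 2)) ≤ 2 ^ c := Nat.pow_le_pow_right (by norm_num) (by omega)
  have h4 := ch_wall hS h1 (by omega)
  have h5 := ch_rw h1
  have h6 := h.k.far
  have h7 := h.k'.far
  have h8 : 2 ^ (c - (e + 2)) ≤ 2 ^ (cl S t p - (e + 2)) :=
    Nat.pow_le_pow_right (by norm_num) (by have := h.c1; omega)
  have h9 := Nat.two_pow_pos (cl S t' p' - (e + 2))
  constructor <;> omega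

/-- MODULE cc (S). The upper neighbours of the victims are not beyond the right walls of the window
(`ch_wall`, `ch_rw`, `G3.far`, `2 ^ (c - (e + 2)) ≤ 2 ^ (cl - (e + 2))`; `X t = X t'`: `t = t'`). -/
theorem win_rw (hS : Spl S) (h : Win S e c t p g t' p' g') :
    S.rho t g ≤ rw S t' ∧ S.rho t' g' ≤ rw S t := by
  rcases Nat.lt_trichotomy (S.X t) (S.X t') with h1 | h1 | h1
  · exact cc_aux hS h h1
  · have ht := hS.inj t t' h.k.kl.1.1 h.k'.kl.1.1 h1
    have h6 := h.k.far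
    have h7 := h.k'.far
    have h9 := Nat.two_pow_pos (cl S t' p' - (e + 2))
    have h8 := Nat.two_pow_pos (cl S t p - (e + 2))
    subst ht
    constructor <;> omega
  · exact (cc_aux hS (ca_symm h) h1).symm

/-- MODULE cd (M). The symbol is constant in a window: same class `i`, same `nu` mod `2 ^ (e + 2)`, the
killers differ by less than `2 ^ i + 2 ^ (i - e)`, so the `nu` by at most `2 ^ e + 1` (`e + 2 ≤ c ≤ i`). -/
theorem win_nu (hS : Spl S) (hc : e + 2 ≤ c) (h : Win S e c t p g t' p' g')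
    (hi : cl S t p = cl S t' p')
    (hn : nu e (cl S t p) p % 2 ^ (e + 2) = nu e (cl S t' p') p' % 2 ^ (e + 2)) :
    nu e (cl S t p) p = nu e (cl S t' p') p' := by
  have h1 := g3_bd hS h.k
  have h2 := g3_bd hS h.k'
  have hci := h.c1
  have hsym : Win S e c t' p' g' t p g := ⟨h.k', h.k, h.c2, h.c1, h.om.symm⟩
  rw [← hi] at h2 hn ⊢
  generalize cl S t p = i at h1 h2 hn hci ⊢
  -- the distance of the request keys
  have hX : S.X t < S.X t' + 2 ^ (c - (e + 2)) ∧ S.X t' < S.X t + 2 ^ (c - (e + 2)) := by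
    have hp : 0 < 2 ^ (c - (e + 2)) := Nat.pow_pos (by norm_num)
    rcases lt_trichotomy (S.X t) (S.X t') with hx | hx | hx
    · have := (win_ch hS h hx).2.1
      omega
    · omega
    · have := (win_ch hS hsym hx).2.1
      omega
  have hD : 2 ^ (c - (e + 2)) ≤ 2 ^ (i - e) := Nat.pow_le_pow_right (by norm_num) (by omega)
  have hDpos : 0 < 2 ^ (i - e) := Nat.pow_pos (by norm_num)
  have he2 : 2 ^ i = 2 ^ e * 2 ^ (i - e) := by
    rw [← pow_add]
    congr 1
    omega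
  have he3 : 2 ^ (i + 1) = 2 ^ i + 2 ^ i := by rw [pow_succ]; ring
  have key : ∀ a b : ℕ, a < b + (2 ^ e + 1) * 2 ^ (i - e) → a / 2 ^ (i - e) ≤ b / 2 ^ (i - e) + (2 ^ e + 1) := by
    intro a b hab
    rw [← Nat.add_mul_div_right _ _ hDpos]
    exact Nat.div_le_div_right hab.le
  have e4 : (2 ^ e + 1) * 2 ^ (i - e) = 2 ^ i + 2 ^ (i - e) := by rw [he2]; ring
  have k1 := key p p' (by rw [e4]; omega)
  have k2 := key p' p (by rw [e4]; omega)
  have hm : nu e i p ≡ nu e i p' [MOD 2 ^ (e + 2)] := hn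
  have h5 : 2 ^ (e + 2) = 4 * 2 ^ e := by rw [pow_add]; ring
  have h6 : 1 ≤ 2 ^ e := Nat.one_le_two_pow
  have h7 : ∀ P P' Q : ℕ, 1 ≤ Q → P ≤ P' + (Q + 1) → P' ≤ P + (Q + 1) →
      -((4 * Q : ℕ) : ℤ) < ((P' + 1 : ℕ) : ℤ) - ((P + 1 : ℕ) : ℤ) ∧
        ((P' + 1 : ℕ) : ℤ) - ((P + 1 : ℕ) : ℤ) < ((4 * Q : ℕ) : ℤ) := by
    intro P P' Q hq1 hq2 hq3
    omega
  refine Nat.ModEq.eq_of_abs_lt hm ?_
  rw [abs_lt, h5]
  exact h7 _ _ _ h6 k1 k2

/-- MODULE ce (M). Classes `a = cl S t p`, `b = cl S t' p' ≥ a + 4`, `X t < X t'` in one window, `1 ≤ e`,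
`e + 2 ≤ c`: the grid point `mu` of the first is below the lower grid point `c'` of the second:
`mu ≤ p + 2 ^ (a - e) < X t + 2 ^ (a + 1) + 2 ^ (a - e)`, `c' > p' - 2 ^ (b - e) ≥ X t' + 2 ^ (b - 1)`. -/
theorem win_mu (hS : Spl S) (he : 1 ≤ e) (hc : e + 2 ≤ c) (h : Win S e c t p g t' p' g')
    (hx : S.X t < S.X t') (hab : cl S t p + 4 ≤ cl S t' p') :
    nu e (cl S t p) p * 2 ^ (cl S t p - e) ≤
      (nu e (cl S t' p') p' - 1) * 2 ^ (cl S t' p' - e) := by
  have h1 := g3_bd hS h.k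
  have h2 := g3_bd hS h.k'
  have hci := h.c1
  generalize cl S t p = a at h1 hci hab ⊢
  generalize cl S t' p' = b at h2 hab ⊢
  unfold nu
  rw [Nat.add_sub_cancel]
  have e1 : (p / 2 ^ (a - e) + 1) * 2 ^ (a - e) = p / 2 ^ (a - e) * 2 ^ (a - e) + 2 ^ (a - e) := by ring
  have e2 : p / 2 ^ (a - e) * 2 ^ (a - e) ≤ p := Nat.div_mul_le_self _ _
  have e3 : p' < (p' / 2 ^ (b - e) + 1) * 2 ^ (b - e) := by
    have := Nat.lt_succ_of_le (le_refl (p' / 2 ^ (b - e)))
    exact (Nat.div_lt_iff_lt_mul (Nat.pow_pos (by norm_num))).mp this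
  have e4 : (p' / 2 ^ (b - e) + 1) * 2 ^ (b - e) = p' / 2 ^ (b - e) * 2 ^ (b - e) + 2 ^ (b - e) := by ring
  have e5 : 2 ^ (a - e) ≤ 2 ^ a := Nat.pow_le_pow_right (by norm_num) (by omega)
  have e6 : 2 ^ (b - e) ≤ 2 ^ (b - 1) := Nat.pow_le_pow_right (by norm_num) (by omega)
  have e7 : 2 ^ b = 2 ^ (b - 1) + 2 ^ (b - 1) := by
    conv_lhs => rw [show b = (b - 1) + 1 by omega]
    rw [pow_succ]
    ring
  have e8 : 2 ^ (a + 3) ≤ 2 ^ (b - 1) := Nat.pow_le_pow_right (by norm_num) (by omega)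
  have e9 : 2 ^ (a + 3) = 8 * 2 ^ a := by rw [pow_add]; ring
  have e10 : 2 ^ (a + 1) = 2 * 2 ^ a := by rw [pow_succ]; ring
  omega

/-- MODULE cf (S). The left wall is below the lower grid point: `c = (nu - 1) * 2 ^ (i - e) >
p - 2 ^ (i - e) ≥ X t` for `1 ≤ e ≤ i`. -/
theorem x_lt (hS : Spl S) (he : 1 ≤ e) (h : G3 S e t p g) (hi : e ≤ cl S t p) :
    S.X t < (nu e (cl S t p) p - 1) * 2 ^ (cl S t p - e) := by
  have h1 := g3_bd hS h
  generalize cl S t p = a at h1 hi ⊢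
  unfold nu
  rw [Nat.add_sub_cancel]
  have e3 : p < (p / 2 ^ (a - e) + 1) * 2 ^ (a - e) := by
    have := Nat.lt_succ_of_le (le_refl (p / 2 ^ (a - e)))
    exact (Nat.div_lt_iff_lt_mul (Nat.pow_pos (by norm_num))).mp this
  have e4 : (p / 2 ^ (a - e) + 1) * 2 ^ (a - e) = p / 2 ^ (a - e) * 2 ^ (a - e) + 2 ^ (a - e) := by ring
  have e6 : 2 ^ (a - e) ≤ 2 ^ (a - 1) := Nat.pow_le_pow_right (by norm_num) (by omega)
  have e7 : 2 ^ a = 2 ^ (a - 1) + 2 ^ (a - 1) := by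
    conv_lhs => rw [show a = (a - 1) + 1 by omega]
    rw [pow_succ]
    ring
  omega

/-- MODULE cg (M). `alt_count` for a finite set of indices; the last index is only used for
`X (β i) ≤ X (α j) < c`. Take `K = G.card - 1` and enumerate `G` (`Finset.orderEmbOfFin`). -/
theorem alt_fin (hS : Spl S) (G : Finset ℕ) {α β pa ga pb gb : ℕ → ℕ} {c mu c' mu' T : ℕ}
    (hα : ∀ i ∈ G, α i < β i) (hβ : ∀ i ∈ G, ∀ j ∈ G, i < j → β i ≤ α j)
    (ka : ∀ i ∈ G, S.Kl (α i) (ga i) (pa i)) (kb : ∀ i ∈ G, S.Kl (β i) (gb i) (pb i))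
    (s1 : ∀ i ∈ G, c ≤ pa i ∧ pa i < mu ∧ mu ≤ ga i) (b0 : mu ≤ c')
    (s2 : ∀ i ∈ G, c' ≤ pb i ∧ pb i < mu' ∧ mu' ≤ gb i)
    (x1 : ∀ i ∈ G, S.X (α i) < c) (xx : ∀ i ∈ G, ∀ j ∈ G, i < j → S.X (β i) ≤ S.X (α j))
    (w1 : ∀ i ∈ G, ∀ j ∈ G, S.rho (α i) (ga i) ≤ rw S (β j))
    (w2 : ∀ i ∈ G, ∀ j ∈ G, S.rho (β i) (gb i) ≤ rw S (β j))
    (hT : ∀ i ∈ G, ∀ j ∈ G, ∀ k ∈ G, i < j → j < k →
      S.cnt (fun t v => S.E t v ∧ α i ≤ t ∧ t < β j ∧ mu ≤ v ∧ v < mu') ≤ T) :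
    (G.card - 1) * (G.card - 2) ≤ 4 * T := by
  by_cases h3 : G.card ≤ 2
  · have e1 : G.card - 2 = 0 := by omega
    rw [e1, mul_zero]
    exact Nat.zero_le _
  have h3' : 3 ≤ G.card := by omega
  let idx : ℕ → ℕ := fun j => if h : j < G.card then G.orderEmbOfFin rfl ⟨j, h⟩ else 0
  have im : ∀ j, j < G.card → idx j ∈ G := by
    intro j hj
    have : idx j = G.orderEmbOfFin rfl ⟨j, hj⟩ := dif_pos hj
    rw [this]
    exact Finset.orderEmbOfFin_mem _ _ _
  have ilt : ∀ i j, i < j → j < G.card → idx i < idx j := by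
    intro i j hij hj
    have e1 : idx i = G.orderEmbOfFin rfl ⟨i, hij.trans hj⟩ := dif_pos (hij.trans hj)
    have e2 : idx j = G.orderEmbOfFin rfl ⟨j, hj⟩ := dif_pos hj
    rw [e1, e2]
    exact (G.orderEmbOfFin rfl).lt_iff_lt.mpr hij
  have hbm : ∀ j, j < G.card → β (idx j) < S.m := fun j hj => (kb _ (im j hj)).1.1
  have hrw : ∀ x j, j < G.card → x ≤ rw S (β (idx j)) → ∀ s, s < β (idx j) →
      S.X (β (idx j)) < S.X s → x ≤ S.X s := by
    intro x j hj hx s hs hsX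
    have h4 : Seen S (β (idx j)) (S.X s) := ⟨s, hs, hs.trans (hbm j hj), rfl⟩
    exact hx.trans (Pool.Agent.SplTr.zr_le h4 hsX)
  have hK : G.card - 1 - 1 < G.card := by omega
  have key := alt_count (S := S) (K := G.card - 1) (a := fun j => α (idx j)) (b := fun j => β (idx j))
    (g := fun j => ga (idx j)) (p := fun j => pa (idx j)) (g' := fun j => gb (idx j))
    (p' := fun j => pb (idx j)) (c := c) (mu := mu) (c' := c') (mu' := mu')
    (fun j hj => ka _ (im j (by omega))) (fun j hj => kb _ (im j (by omega)))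
    (fun j hj => hα _ (im j (by omega)))
    (fun j hj => hβ _ (im j (by omega)) _ (im (j + 1) (by omega)) (ilt j (j + 1) (by omega) (by omega)))
    (fun j hj => s1 _ (im j (by omega))) b0 (fun j hj => s2 _ (im j (by omega)))
    (fun j hj => x1 _ (im j (by omega)))
    (fun j hj => lt_of_le_of_lt (xx _ (im j (by omega)) _ (im (j + 1) (by omega))
      (ilt j (j + 1) (by omega) (by omega))) (x1 _ (im (j + 1) (by omega))))
    (fun j hj s hs hsX => hrw _ (G.card - 1 - 1) hK (w1 _ (im j (by omega)) _ (im _ hK)) s hs hsX)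
    (fun j hj s hs hsX => hrw _ (G.card - 1 - 1) hK (w2 _ (im j (by omega)) _ (im _ hK)) s hs hsX)
  have hT' := hT _ (im 0 (by omega)) _ (im (G.card - 1 - 1) hK) _ (im (G.card - 1) (by omega))
    (ilt 0 (G.card - 1 - 1) (by omega) hK) (ilt (G.card - 1 - 1) (G.card - 1) (by omega) (by omega))
  have e1 : G.card - 2 = G.card - 1 - 1 := by omega
  rw [e1]
  exact key.trans (Nat.mul_le_mul_left 4 hT')

/-- MODULE ch (M). ALTERNATION for a word. As `Pop.fam_alt` in SplDq/NrF.lean: kills from `wd_mem`; for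
`i ∈ G` the request keys increase (`tm (e i) < tm (f i)` as the classes increase, `Word.ord`), so the
times do (`win_lt`); the symbols are constant (`win_nu`), `b ≥ a + 4` (same class mod 4), `win_mu`, `x_lt`,
`win_rw`, `alt_fin` with `T = 2 ^ (8 * j)`: `ch_touch` for `t = α i`, `t' = β j` (`X (β j) ≤ X (α k) < c < mu`
because of the later index `k`; `mu' ≤ gb < rw S (β j)`; `win_ch` for the difference of `Phi`):
`(|G| - 1) (|G| - 2) ≤ 4 * 2 ^ (8 j)`, so `|G| ≤ 2 ^ (4 j + 1) + 2 ≤ 2 ^ (5 j)`. -/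
theorem fam_alt (hS : Spl S) (he : 1 ≤ e) (r q j : ℕ) (hj : 12 ≤ j) (hje : e + 2 ≤ 8 * j) :
    (wd S e r q).Alt (fun u => Phi S (8 * j) ((wd S e r q).tm u) / 2 ^ (8 * j - (e + 2))) (8 * j)
      (64 * j) (2 ^ (5 * j)) := by
  classical
  intro w a b G α β h0 hab h1 hG hlt
  rcases G.eq_empty_or_nonempty with hE | hne
  · rw [hE]
    simp
  have hα : ∀ i ∈ G, (wd S e r q).tm (α i) < (wd S e r q).tm (β i) := by
    intro i hi
    obtain ⟨e1, e2, e3, e4, -, -, e5⟩ := hG i hi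
    rcases (wd S e r q).ord _ e1 _ e2 e5 with h | ⟨-, h⟩
    · exact h
    · omega
  have hβ : ∀ i ∈ G, ∀ k ∈ G, i < k → (wd S e r q).tm (β i) ≤ (wd S e r q).tm (α k) := by
    intro i hi k hk hik
    obtain ⟨-, e2, -⟩ := hG i hi
    obtain ⟨e1, -⟩ := hG k hk
    rcases (wd S e r q).ord _ e2 _ e1 (hlt i hi k hk hik) with h | ⟨h, -⟩
    · exact h.le
    · exact h.le
  have hka : ∀ i ∈ G, ∃ t p g, t < S.m ∧ S.X t = (wd S e r q).tm (α i) ∧ G3 S e t p g ∧
      cl S t p = a ∧ nu e a p % 2 ^ (e + 2) = q ∧ a % 4 = r := by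
    intro i hi
    obtain ⟨e1, -, e3, -⟩ := hG i hi
    obtain ⟨t, p, g, k1, k2, k3, k4, k5, k6⟩ := wd_mem hS e1
    rw [e3] at k4 k5 k6
    exact ⟨t, p, g, k1, k2, k3, k4, k6, k5⟩
  have hkb : ∀ i ∈ G, ∃ t p g, t < S.m ∧ S.X t = (wd S e r q).tm (β i) ∧ G3 S e t p g ∧
      cl S t p = b ∧ nu e b p % 2 ^ (e + 2) = q ∧ b % 4 = r := by
    intro i hi
    obtain ⟨-, e1, -, e3, -⟩ := hG i hi
    obtain ⟨t, p, g, k1, k2, k3, k4, k5, k6⟩ := wd_mem hS e1
    rw [e3] at k4 k5 k6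
    exact ⟨t, p, g, k1, k2, k3, k4, k6, k5⟩
  choose! ta pa ga ha1 ha2 ha3 ha4 ha5 ha6 using hka
  choose! tb pb gb hb1 hb2 hb3 hb4 hb5 hb6 using hkb
  have hwa : ∀ i ∈ G, Phi S (8 * j) (S.X (ta i)) / 2 ^ (8 * j - (e + 2)) = w := fun i hi => by
    rw [ha2 i hi]
    exact (hG i hi).2.2.2.2.1
  have hwb : ∀ i ∈ G, Phi S (8 * j) (S.X (tb i)) / 2 ^ (8 * j - (e + 2)) = w := fun i hi => by
    rw [hb2 i hi]
    exact (hG i hi).2.2.2.2.2.1
  have Waa : ∀ i ∈ G, ∀ k ∈ G, Win S e (8 * j) (ta i) (pa i) (ga i) (ta k) (pa k) (ga k) :=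
    fun i hi k hk => ⟨ha3 i hi, ha3 k hk, by rw [ha4 i hi]; exact h0, by rw [ha4 k hk]; exact h0,
      (hwa i hi).trans (hwa k hk).symm⟩
  have Wab : ∀ i ∈ G, ∀ k ∈ G, Win S e (8 * j) (ta i) (pa i) (ga i) (tb k) (pb k) (gb k) :=
    fun i hi k hk => ⟨ha3 i hi, hb3 k hk, by rw [ha4 i hi]; exact h0, by rw [hb4 k hk]; omega,
      (hwa i hi).trans (hwb k hk).symm⟩
  have Wba : ∀ i ∈ G, ∀ k ∈ G, Win S e (8 * j) (tb i) (pb i) (gb i) (ta k) (pa k) (ga k) :=
    fun i hi k hk => ⟨hb3 i hi, ha3 k hk, by rw [hb4 i hi]; omega, by rw [ha4 k hk]; exact h0,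
      (hwb i hi).trans (hwa k hk).symm⟩
  have Wbb : ∀ i ∈ G, ∀ k ∈ G, Win S e (8 * j) (tb i) (pb i) (gb i) (tb k) (pb k) (gb k) :=
    fun i hi k hk => ⟨hb3 i hi, hb3 k hk, by rw [hb4 i hi]; omega, by rw [hb4 k hk]; omega,
      (hwb i hi).trans (hwb k hk).symm⟩
  obtain ⟨i0, hi0⟩ := hne
  have hab4 : a + 4 ≤ b := by
    have e5 := ha6 i0 hi0
    have e6 := hb6 i0 hi0
    omega
  have hna : ∀ i ∈ G, nu e a (pa i) = nu e a (pa i0) := fun i hi => by
    have := win_nu hS hje (Waa i hi i0 hi0) (by rw [ha4 i hi, ha4 i0 hi0])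
      (by rw [ha4 i hi, ha4 i0 hi0, ha5 i hi, ha5 i0 hi0])
    rwa [ha4 i hi, ha4 i0 hi0] at this
  have hnb : ∀ i ∈ G, nu e b (pb i) = nu e b (pb i0) := fun i hi => by
    have := win_nu hS hje (Wbb i hi i0 hi0) (by rw [hb4 i hi, hb4 i0 hi0])
      (by rw [hb4 i hi, hb4 i0 hi0, hb5 i hi, hb5 i0 hi0])
    rwa [hb4 i hi, hb4 i0 hi0] at this
  have hXab : ∀ i ∈ G, S.X (ta i) < S.X (tb i) := fun i hi => by
    rw [ha2 i hi, hb2 i hi]
    exact hα i hi
  have hXba : ∀ i ∈ G, ∀ k ∈ G, i < k → S.X (tb i) ≤ S.X (ta k) := fun i hi k hk hik => by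
    rw [hb2 i hi, ha2 k hk]
    exact hβ i hi k hk hik
  have hmc : nu e a (pa i0) * 2 ^ (a - e) ≤ (nu e b (pb i0) - 1) * 2 ^ (b - e) := by
    have := win_mu hS he hje (Wab i0 hi0 i0 hi0) (hXab i0 hi0) (by
      rw [ha4 i0 hi0, hb4 i0 hi0]
      exact hab4)
    rwa [ha4 i0 hi0, hb4 i0 hi0] at this
  have hsa : ∀ i ∈ G, (nu e a (pa i0) - 1) * 2 ^ (a - e) ≤ pa i ∧
      pa i < nu e a (pa i0) * 2 ^ (a - e) ∧ nu e a (pa i0) * 2 ^ (a - e) ≤ ga i := by
    intro i hi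
    have := sym hS (ha3 i hi)
    rwa [ha4 i hi, hna i hi] at this
  have hsb : ∀ i ∈ G, (nu e b (pb i0) - 1) * 2 ^ (b - e) ≤ pb i ∧
      pb i < nu e b (pb i0) * 2 ^ (b - e) ∧ nu e b (pb i0) * 2 ^ (b - e) ≤ gb i := by
    intro i hi
    have := sym hS (hb3 i hi)
    rwa [hb4 i hi, hnb i hi] at this
  have hxa : ∀ i ∈ G, S.X (ta i) < (nu e a (pa i0) - 1) * 2 ^ (a - e) := by
    intro i hi
    have := x_lt hS he (ha3 i hi) (by rw [ha4 i hi]; omega)
    rwa [ha4 i hi, hna i hi] at this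
  have hmu1 : (nu e a (pa i0) - 1) * 2 ^ (a - e) ≤ nu e a (pa i0) * 2 ^ (a - e) :=
    Nat.mul_le_mul_right _ (Nat.sub_le _ _)
  have hfin := alt_fin hS G (α := ta) (β := tb) (pa := pa) (ga := ga) (pb := pb) (gb := gb)
    (c := (nu e a (pa i0) - 1) * 2 ^ (a - e)) (mu := nu e a (pa i0) * 2 ^ (a - e))
    (c' := (nu e b (pb i0) - 1) * 2 ^ (b - e)) (mu' := nu e b (pb i0) * 2 ^ (b - e))
    (T := 2 ^ (8 * j))
    (fun i hi => (win_lt hS (Wab i hi i hi)).2 (hXab i hi))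
    (fun i hi k hk hik => by
      rcases (hXba i hi k hk hik).lt_or_eq with h | h
      · exact ((win_lt hS (Wba i hi k hk)).2 h).le
      · exact (hS.inj _ _ (hb1 i hi) (ha1 k hk) h).le)
    (fun i hi => (ha3 i hi).kl) (fun i hi => (hb3 i hi).kl) hsa hmc hsb hxa hXba
    (fun i hi k hk => (win_rw hS (Wab i hi k hk)).1)
    (fun i hi k hk => (win_rw hS (Wbb i hi k hk)).1)
    (by
      intro i hi k hk l hl hik hkl
      have hx : S.X (ta i) < S.X (tb k) :=
        lt_of_lt_of_le (hXab i hi) ((hXba i hi k hk hik).trans (hXab k hk).le)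
      obtain ⟨c1, c2, c3⟩ := win_ch hS (Wab i hi k hk) hx
      have c4 := ch_touch hS c1
      have c5 : 2 ^ (8 * j - (e + 2)) ≤ 2 ^ (8 * j) :=
        Nat.pow_le_pow_right (by norm_num) (Nat.sub_le _ _)
      have c6 : S.cnt (fun t v => S.E t v ∧ ta i ≤ t ∧ t < tb k ∧
          nu e a (pa i0) * 2 ^ (a - e) ≤ v ∧ v < nu e b (pb i0) * 2 ^ (b - e)) ≤
          S.cnt (fun u v => S.E u v ∧ ta i ≤ u ∧ u < tb k ∧ S.X (tb k) < v ∧
            v < rw S (tb k)) := by
        apply Finset.card_le_card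
        intro x hx'
        rw [Sys.mem_set] at hx' ⊢
        obtain ⟨d0, d1, d2, d3, d4, d5, d6⟩ := hx'
        have d7 := hXba k hk l hl hkl
        have d8 := hxa l hl
        have d9 := (hsb k hk).2.2
        have d10 := (g3_bd hS (hb3 k hk)).2.2.2.2.2.1
        exact ⟨d0, d1, d2, d3, d4, by omega, by omega⟩
      omega)
  by_contra hcon
  push Not at hcon
  have e1 : (2 ^ (4 * j + 1)) * (2 ^ (4 * j + 1)) = 4 * 2 ^ (8 * j) := by
    rw [← pow_add]
    have : 4 * j + 1 + (4 * j + 1) = 8 * j + 2 := by ring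
    rw [this, pow_add]
    ring
  have e2 : 2 ^ (4 * j + 1) + 2 ≤ 2 ^ (5 * j) := by
    have e3 : 2 ^ (4 * j + 1) = 2 * 2 ^ (4 * j) := by rw [pow_succ]; ring
    have e4 : 2 ^ (5 * j) = 2 ^ (4 * j) * 2 ^ j := by
      rw [← pow_add]
      congr 1
      ring
    have e5 : 2 ^ 2 ≤ 2 ^ j := Nat.pow_le_pow_right (by norm_num) (by omega)
    have e6 : 1 ≤ 2 ^ (4 * j) := Nat.one_le_two_pow
    have e7 : 2 ^ (4 * j) * 2 ^ 2 ≤ 2 ^ (4 * j) * 2 ^ j := Nat.mul_le_mul_left _ e5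
    omega
  have e8 : (2 ^ (4 * j + 1) + 1) * (2 ^ (4 * j + 1) + 1) ≤ (G.card - 1) * (G.card - 2) :=
    Nat.mul_le_mul (by omega) (by omega)
  have e9 : (2 ^ (4 * j + 1)) * (2 ^ (4 * j + 1)) <
      (2 ^ (4 * j + 1) + 1) * (2 ^ (4 * j + 1) + 1) := Nat.mul_self_lt_mul_self (Nat.lt_succ_self _)
  omega

/-- MODULE ci (S). The arithmetic of SplDq.arith in the stronger form (same proof, see the private
`key` there; start `j0` instead of `12`). -/
theorem arith' (f : ℕ → ℕ) (N j0 : ℕ) (h12 : 12 ≤ j0) (h0 : ∀ j, N < 2 ^ (8 * j) → f j = 0)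
    (h : ∀ j, j0 ≤ j → f j ≤ (N / 2 ^ (8 * j) + 1) + f (8 * j) +
      64 * j * ((N / 2 ^ (8 * j) + 1) * (64 * j) + ((N / 2 ^ (8 * j) + 1) + f (8 * j))) *
        (2 * 2 ^ (5 * j) + 1)) : ∀ j, j0 ≤ j → f j * 2 ^ j ≤ N := by
  have key : ∀ n j : ℕ, N - j ≤ n → j0 ≤ j → f j * 2 ^ j ≤ N := by
    intro n
    induction n with
    | zero =>
      intro j h1 h2
      have h3 : N < 2 ^ (8 * j) := by
        have h4 : j < 2 ^ j := Nat.lt_two_pow_self
        have h5 : 2 ^ j ≤ 2 ^ (8 * j) := Nat.pow_le_pow_right (by norm_num) (by omega)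
        omega
      rw [h0 j h3]
      simp
    | succ n ih =>
      intro j h1 h2'
      have h2 : 12 ≤ j := by omega
      by_cases h3 : N < 2 ^ (8 * j)
      · rw [h0 j h3]
        simp
      · push Not at h3
        have h4 := ih (8 * j) (by omega) (by omega)
        have hpos : 0 < 2 ^ (8 * j) := by positivity
        set A := N / 2 ^ (8 * j) with hA
        have hA1 : 1 ≤ A := (Nat.one_le_div_iff hpos).mpr h3
        have hf8 : f (8 * j) ≤ A := (Nat.le_div_iff_mul_le hpos).mpr h4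
        have hAN : A * 2 ^ (8 * j) ≤ N := Nat.div_mul_le_self _ _
        have h5 := h j h2'
        have h6 : f j ≤ A * (3 + 192 * j * (128 * j + 3) * 2 ^ (5 * j)) := by
          refine h5.trans ?_
          have e1 : 64 * j * ((A + 1) * (64 * j) + ((A + 1) + f (8 * j))) ≤
              64 * j * (A * (128 * j + 3)) := by
            refine Nat.mul_le_mul_left _ ?_
            have : (A + 1) * (64 * j) ≤ A * (128 * j) := by nlinarith
            calc (A + 1) * (64 * j) + ((A + 1) + f (8 * j)) ≤ A * (128 * j) + A * 3 := by omega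
              _ = A * (128 * j + 3) := by ring
          have e2 : 2 * 2 ^ (5 * j) + 1 ≤ 3 * 2 ^ (5 * j) := by
            have : 1 ≤ 2 ^ (5 * j) := Nat.one_le_two_pow
            omega
          have e3 := Nat.mul_le_mul e1 e2
          calc (A + 1) + f (8 * j) + 64 * j * ((A + 1) * (64 * j) + ((A + 1) + f (8 * j))) *
                (2 * 2 ^ (5 * j) + 1) ≤ A * 3 + 64 * j * (A * (128 * j + 3)) *
                (3 * 2 ^ (5 * j)) := by
                refine Nat.add_le_add ?_ e3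
                omega
            _ = A * (3 + 192 * j * (128 * j + 3) * 2 ^ (5 * j)) := by ring
        have hpoly : 3 + 192 * j * (128 * j + 3) ≤ 2 ^ (2 * j) := by
          obtain ⟨k, rfl⟩ : ∃ k, j = 12 + k := ⟨j - 12, by omega⟩
          clear_value A
          clear h1 h2 h2' h3 h4 hpos hA hA1 hf8 hAN h5 h6 ih h h0
          induction k with
          | zero => norm_num
          | succ k ihk =>
            have e1 : 2 ^ (2 * (12 + (k + 1))) = 4 * 2 ^ (2 * (12 + k)) := by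
              rw [show 2 * (12 + (k + 1)) = 2 * (12 + k) + 2 by ring, pow_add]
              norm_num
              ring
            rw [e1]
            nlinarith
        have h7 : (3 + 192 * j * (128 * j + 3) * 2 ^ (5 * j)) * 2 ^ j ≤ 2 ^ (8 * j) := by
          calc (3 + 192 * j * (128 * j + 3) * 2 ^ (5 * j)) * 2 ^ j ≤
              ((3 + 192 * j * (128 * j + 3)) * 2 ^ (5 * j)) * 2 ^ j := by
                refine Nat.mul_le_mul_right _ ?_
                have : 1 ≤ 2 ^ (5 * j) := Nat.one_le_two_pow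
                nlinarith
            _ ≤ (2 ^ (2 * j) * 2 ^ (5 * j)) * 2 ^ j :=
                Nat.mul_le_mul_right _ (Nat.mul_le_mul_right _ hpoly)
            _ = 2 ^ (8 * j) := by
                rw [← pow_add, ← pow_add]
                congr 1
                ring
        calc f j * 2 ^ j ≤ A * (3 + 192 * j * (128 * j + 3) * 2 ^ (5 * j)) * 2 ^ j :=
              Nat.mul_le_mul_right _ h6
          _ = A * ((3 + 192 * j * (128 * j + 3) * 2 ^ (5 * j)) * 2 ^ j) := by ring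
          _ ≤ A * 2 ^ (8 * j) := Nat.mul_le_mul_left _ h7
          _ ≤ N := hAN
  intro j hj
  exact key (N - j) j le_rfl hj

/-- MODULE cj (M). `Word.recur` with the windows of `fam_alt` (monotone by `phi_mono`, number of windows
`≤ (2 top + tch) / 2 ^ (8 j - (e + 2)) + 1 = N / 2 ^ (8 j) + 1`, `N = 2 ^ (e + 2) * (2 top + tch)`, by `phi_le`),
`arith'` with `f j = |E (8 j)|` (`E` is empty for `8 j > log2 top`, `g3_bd`), `Word.card_Sc` with
`tm u < top`. Compare `Pop.fam_card`. -/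
theorem fam_card (hS : Spl S) (he : 1 ≤ e) (r q j : ℕ) (hj : 12 ≤ j) (hje : e + 2 ≤ 8 * j) :
    ((wd S e r q).Sc (8 * j)).card * 2 ^ j ≤
      S.top * 2 ^ j + 2 ^ (e + 2) * (2 * S.top + tch S) := by
  have htm : ∀ u ∈ (wd S e r q).S, (wd S e r q).tm u < S.top := by
    intro u hu
    obtain ⟨t, p, g, _, h2, h3, _⟩ := wd_mem hS hu
    rw [← h2]
    exact (g3_bd hS h3).2.2.2.2.2.2.2.2
  have h1 := Word.card_Sc (X := wd S e r q) (m := S.top) htm (8 * j)
  have h2 := arith' (fun j => ((wd S e r q).E (8 * j)).card) (2 ^ (e + 2) * (2 * S.top + tch S)) j hj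
    (by
      intro j' hj'
      rw [Finset.card_eq_zero, Finset.eq_empty_iff_forall_notMem]
      intro v hv
      unfold Word.E at hv
      rw [Finset.mem_filter] at hv
      have hv1 := hv.1
      unfold Word.Sc at hv1
      rw [Finset.mem_filter] at hv1
      obtain ⟨t, p, g, _, _, a3, a4, _⟩ := wd_mem hS hv1.1
      obtain ⟨_, _, _, _, _, _, b7, b8, _⟩ := g3_bd hS a3
      have a5 := hv1.2
      rw [← a4] at a5
      unfold LL at b7
      have a6 : 2 ^ (8 * j') ≤ 2 ^ Nat.log 2 S.top := Nat.pow_le_pow_right (by norm_num) (by omega)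
      have a7 : 2 ^ Nat.log 2 S.top ≤ S.top := Nat.pow_log_le_self 2 b8
      have a8 : 1 ≤ 2 ^ (e + 2) := Nat.one_le_two_pow
      have a9 : S.top ≤ 2 ^ (e + 2) * (2 * S.top + tch S) := by nlinarith
      omega)
    (by
      intro j' hj'
      have hlt : e + 2 ≤ 8 * j' := by omega
      have hdiv : 2 ^ (e + 2) * (2 * S.top + tch S) / 2 ^ (8 * j') =
          (2 * S.top + tch S) / 2 ^ (8 * j' - (e + 2)) := by
        have e1 : 2 ^ (8 * j') = 2 ^ (e + 2) * 2 ^ (8 * j' - (e + 2)) := by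
          rw [← pow_add]
          congr 1
          omega
        rw [e1]
        exact Nat.mul_div_mul_left _ _ (Nat.pow_pos (by norm_num))
      have hr := Word.recur (X := wd S e r q)
        (om := fun u => Phi S (8 * j') ((wd S e r q).tm u) / 2 ^ (8 * j' - (e + 2)))
        (c0 := 8 * j') (c1 := 64 * j') (k0 := 2 ^ (5 * j'))
        (W := 2 ^ (e + 2) * (2 * S.top + tch S) / 2 ^ (8 * j') + 1) (by omega)
        (fam_alt hS he r q j' (by omega) hlt)
        (by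
          intro u hu v hv huv
          apply Nat.div_le_div_right
          apply phi_mono
          rcases (wd S e r q).ord u hu v hv huv with h | h
          · exact h.le
          · exact h.1.le)
        (by
          intro u hu
          apply Nat.lt_succ_of_le
          rw [hdiv]
          apply Nat.div_le_div_right
          exact phi_le hS _ (htm u hu).le)
      have e1 : 8 * (8 * j') = 64 * j' := by ring
      show ((wd S e r q).E (8 * j')).card ≤ (2 ^ (e + 2) * (2 * S.top + tch S) / 2 ^ (8 * j') + 1) +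
        ((wd S e r q).E (8 * (8 * j'))).card + 64 * j' *
          ((2 ^ (e + 2) * (2 * S.top + tch S) / 2 ^ (8 * j') + 1) * (64 * j') +
          ((2 ^ (e + 2) * (2 * S.top + tch S) / 2 ^ (8 * j') + 1) +
          ((wd S e r q).E (8 * (8 * j'))).card)) * (2 * 2 ^ (5 * j') + 1)
      rw [e1]
      exact hr) j (le_refl j)
  have h3 : ((wd S e r q).Sc (8 * j)).card * 2 ^ j ≤ (S.top + ((wd S e r q).E (8 * j)).card) * 2 ^ j :=
    Nat.mul_le_mul_right _ h1
  rw [add_mul] at h3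
  have h4 : ((wd S e r q).E (8 * j)).card * 2 ^ j ≤ 2 ^ (e + 2) * (2 * S.top + tch S) := h2
  omega

private theorem ck_mono {S : Sys} {e t g : ℕ} (h : Near S e t g) : Near S (e + 1) t g := by
  obtain ⟨p, h1, h2⟩ := h
  refine ⟨p, h1, lt_of_lt_of_le h2 ?_⟩
  exact Nat.mul_le_mul_right _ (Nat.pow_le_pow_right (by norm_num) (Nat.le_succ e))

/-- MODULE ck (M). **Near kills with a long low gap.** For `e = 0` use `Near S 0 ⊆ Near S 1`. Take `j` with
`12 ≤ j`, `e + 2 ≤ 8 * j`, `k * 4 * 2 ^ (e + 2) * 2 ^ (e + 2) ≤ 2 ^ j`; `near_split` with `c = 8 * j`, `fam_card`,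
`m_le`. -/
theorem n3 (e k : ℕ) : ∃ C : ℕ, ∀ S : Sys, Spl S →
    k * S.cnt (Near S e) ≤ tch S + C * (S.top + irr S) := by
  obtain ⟨A, hA⟩ : ∃ A, A = 2 ^ (e + 1 + 2) := ⟨_, rfl⟩
  obtain ⟨j, hj⟩ : ∃ j, j = 12 + e + k * (4 * A * A) := ⟨_, rfl⟩
  refine ⟨k * (2 + (1 + 2 ^ (8 * j)) + 4 * A) + 2, fun S hS => ?_⟩
  have h1 : S.cnt (Near S e) ≤ S.cnt (Near S (e + 1)) := by
    apply Finset.card_le_card
    intro q hq
    rw [Sys.mem_set] at hq ⊢
    exact ⟨hq.1, hq.2.1, ck_mono hq.2.2⟩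
  have h2 := near_split hS (e + 1) (8 * j)
  rw [← hA] at h2
  obtain ⟨B, hB⟩ : ∃ B, B = ∑ r ∈ Finset.range 4, ∑ q ∈ Finset.range A,
      ((wd S (e + 1) r q).Sc (8 * j)).card := ⟨_, rfl⟩
  rw [← hB] at h2
  have h3 : B * 2 ^ j ≤ 4 * A * (S.top * 2 ^ j + A * (2 * S.top + tch S)) := by
    rw [hB, Finset.sum_mul]
    have h4 : ∀ r ∈ Finset.range 4, (∑ q ∈ Finset.range A,
        ((wd S (e + 1) r q).Sc (8 * j)).card) * 2 ^ j ≤
          A * (S.top * 2 ^ j + A * (2 * S.top + tch S)) := by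
      intro r _
      rw [Finset.sum_mul]
      have h5 := Finset.sum_le_card_nsmul (Finset.range A)
        (fun q => ((wd S (e + 1) r q).Sc (8 * j)).card * 2 ^ j)
        (S.top * 2 ^ j + A * (2 * S.top + tch S)) (fun q _ => by
          have := fam_card hS (e := e + 1) (by omega) r q j (by omega) (by omega)
          rw [← hA] at this
          exact this)
      rw [Finset.card_range, smul_eq_mul] at h5
      exact h5
    have h5 := Finset.sum_le_card_nsmul (Finset.range 4) _ _ h4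
    rw [Finset.card_range, smul_eq_mul] at h5
    calc _ ≤ 4 * (A * (S.top * 2 ^ j + A * (2 * S.top + tch S))) := h5
      _ = _ := by ring
  have h4 : k * (4 * A * A) ≤ 2 ^ j := by
    have h5 : j < 2 ^ j := Nat.lt_two_pow_self
    omega
  have h5 : k * B ≤ (4 * A * k + 2) * S.top + tch S := by
    have hpos : 0 < 2 ^ j := by positivity
    refine Nat.le_of_mul_le_mul_right ?_ hpos
    calc k * B * 2 ^ j = k * (B * 2 ^ j) := by ring
      _ ≤ k * (4 * A * (S.top * 2 ^ j + A * (2 * S.top + tch S))) := Nat.mul_le_mul_left _ h3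
      _ = 4 * A * k * S.top * 2 ^ j + k * (4 * A * A) * (2 * S.top + tch S) := by ring
      _ ≤ 4 * A * k * S.top * 2 ^ j + 2 ^ j * (2 * S.top + tch S) :=
          Nat.add_le_add_left (Nat.mul_le_mul_right _ h4) _
      _ = ((4 * A * k + 2) * S.top + tch S) * 2 ^ j := by ring
  have h6 := m_le hS
  have h7 : S.m * 2 ^ (8 * j) ≤ S.top * 2 ^ (8 * j) := Nat.mul_le_mul_right _ h6
  calc k * S.cnt (Near S e) ≤ k * (2 * irr S + S.m + S.m * 2 ^ (8 * j) + B) :=
        Nat.mul_le_mul_left _ (h1.trans h2)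
    _ ≤ k * (2 * irr S + S.top + S.top * 2 ^ (8 * j)) + k * B := by
        rw [← mul_add]
        exact Nat.mul_le_mul_left _ (by omega)
    _ ≤ k * (2 * irr S + S.top + S.top * 2 ^ (8 * j)) + ((4 * A * k + 2) * S.top + tch S) :=
        Nat.add_le_add_left h5 _
    _ ≤ tch S + (k * (2 + (1 + 2 ^ (8 * j)) + 4 * A) + 2) * (S.top + irr S) := by
        have : 0 ≤ (k * (1 + 2 ^ (8 * j) + 4 * A) + 2) * irr S + k * 2 * S.top := Nat.zero_le _
        nlinarith

end Pool.Agent.SplNa
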