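import Pool.Agent.SplNr.ADefs

set_option autoImplicit false

/-! # The potential `Phi` of the windows -/

namespace Pool.Agent.SplNa

open Pool.Agent.SplLog Pool.Agent.SplLs Pool.Agent.SplDq Pool.Agent.SplTr

open scoped Classical

variable {S : Sys} {c e t t' : ℕ}

/-- MODULE aa (S). Monotone: every summand is monotone in `x` (`Finset.card_le_card`,
`Finset.sum_le_sum`). -/
theorem phi_mono (S : Sys) (c : ℕ) : Monotone (Phi S c) := by
  intro x y h
  unfold Phi
  refine Nat.add_le_add (Nat.add_le_add h ?_) (Finset.sum_le_sum fun t _ => ?_)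
  · apply Finset.card_le_card
    intro q hq
    rw [Sys.mem_set] at hq ⊢
    exact ⟨hq.1, hq.2.1, hq.2.2.1, hq.2.2.2.trans_le h⟩
  · by_cases h1 : lw S t < x ∧ lw S t + 2 ^ c ≤ S.X t
    · rw [if_pos h1, if_pos ⟨h1.1.trans_le h, h1.2⟩]
    · rw [if_neg h1]
      exact Nat.zero_le _

/-- MODULE ab (S). The requests have different keys in `[1, top)`. -/
theorem m_le (hS : Spl S) : S.m ≤ S.top := by
  have h := Finset.card_le_card_of_injOn (s := Finset.range S.m) (t := Finset.range S.top) S.X
    (fun t ht => by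
      have := S.key _ (S.req t (Finset.mem_range.1 (Finset.mem_coe.1 ht)))
      exact Finset.mem_coe.2 (Finset.mem_range.2 this.2))
    (fun s hs t ht hst => hS.inj s t (Finset.mem_range.1 (Finset.mem_coe.1 hs))
      (Finset.mem_range.1 (Finset.mem_coe.1 ht)) hst)
  rwa [Finset.card_range, Finset.card_range] at h

/-- MODULE ac (M). The intervals `[X t, X t + min (rw S t - X t) (2 ^ c))` of the requests with
`lw S t + 2 ^ c ≤ X t` are pairwise disjoint and contained in `[0, top)`: for `s < t`, if
`X s < X t` then `X s` is seen at `t`, so `X s ≤ lw S t ≤ X t - 2 ^ c` (`le_zl`); if `X t < X s` then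
`rw S t ≤ X s` (`zr_le`). (`Finset.card_biUnion`, `Nat.card_Ico`.) -/
theorem cut_sum (hS : Spl S) (c : ℕ) :
    ∑ t ∈ Finset.range S.m,
      (if lw S t + 2 ^ c ≤ S.X t then min (rw S t - S.X t) (2 ^ c) else 0) ≤ S.top := by
  classical
  have h1 : ∑ t ∈ Finset.range S.m,
      (if lw S t + 2 ^ c ≤ S.X t then min (rw S t - S.X t) (2 ^ c) else 0) =
      (((Finset.range S.m).filter (fun t => lw S t + 2 ^ c ≤ S.X t)).biUnion
        (fun t => Finset.Ico (S.X t) (S.X t + min (rw S t - S.X t) (2 ^ c)))).card := by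
    rw [← Finset.sum_filter, Finset.card_biUnion]
    · apply Finset.sum_congr rfl
      intro t _
      rw [Nat.card_Ico]
      exact (Nat.add_sub_cancel_left _ _).symm
    · have key : ∀ s ∈ (Finset.range S.m).filter (fun t => lw S t + 2 ^ c ≤ S.X t),
          ∀ t ∈ (Finset.range S.m).filter (fun t => lw S t + 2 ^ c ≤ S.X t), s < t →
          Disjoint (Finset.Ico (S.X s) (S.X s + min (rw S s - S.X s) (2 ^ c)))
            (Finset.Ico (S.X t) (S.X t + min (rw S t - S.X t) (2 ^ c))) := by
        intro s hs t ht hst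
        rw [Finset.mem_filter, Finset.mem_range] at hs ht
        have hne : S.X s ≠ S.X t := fun h => by
          have := hS.inj s t hs.1 ht.1 h
          omega
        rw [Finset.disjoint_left]
        intro v hv hv'
        rw [Finset.mem_Ico] at hv hv'
        rcases Nat.lt_or_ge (S.X s) (S.X t) with h | h
        · have h2 : S.X s ≤ lw S t := le_zl (seen_X hs.1 hst) h
          have h3 := min_le_right (rw S s - S.X s) (2 ^ c)
          omega
        · have h2 : rw S t ≤ S.X s := zr_le (seen_X hs.1 hst) (by omega)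
          have h3 := min_le_left (rw S t - S.X t) (2 ^ c)
          omega
      intro s hs t ht hst
      rcases Nat.lt_or_ge s t with h | h
      · exact key s hs t ht h
      · exact (key t ht s hs (by omega)).symm
  rw [h1]
  calc _ ≤ (Finset.range S.top).card := by
        apply Finset.card_le_card
        intro v hv
        rw [Finset.mem_biUnion] at hv
        obtain ⟨t, ht, hv⟩ := hv
        rw [Finset.mem_filter, Finset.mem_range] at ht
        rw [Finset.mem_Ico] at hv
        rw [Finset.mem_range]
        have h2 := min_le_left (rw S t - S.X t) (2 ^ c)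
        have h3 : rw S t ≤ S.top := zr_le_top S t _
        omega
    _ = S.top := Finset.card_range _

/-- MODULE ad (S). From `cut_sum`. -/
theorem phi_le (hS : Spl S) (c : ℕ) {x : ℕ} (hx : x ≤ S.top) :
    Phi S c x ≤ 2 * S.top + tch S := by
  have h1 := cut_sum hS c
  have h2 : ∑ t ∈ Finset.range S.m,
      (if lw S t < x ∧ lw S t + 2 ^ c ≤ S.X t then min (rw S t - S.X t) (2 ^ c) else 0) ≤
      ∑ t ∈ Finset.range S.m,
      (if lw S t + 2 ^ c ≤ S.X t then min (rw S t - S.X t) (2 ^ c) else 0) := by
    refine Finset.sum_le_sum fun t _ => ?_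
    by_cases h1 : lw S t < x ∧ lw S t + 2 ^ c ≤ S.X t
    · rw [if_pos h1, if_pos h1.2]
    · rw [if_neg h1]
      exact Nat.zero_le _
  have h3 : S.cnt (fun t v => S.E t v ∧ zl S (t + 1) v < x) ≤ tch S := by
    apply Finset.card_le_card
    intro q hq
    rw [Sys.mem_set] at hq ⊢
    exact ⟨hq.1, hq.2.1, hq.2.2.1⟩
  unfold Phi
  omega

/-- MODULE ae (S). Order of the requests: if `X t < X t' ≤ X t + 2 ^ c` and both zones
`(X, rw)` are longer than `2 ^ c` then `t < t'`: otherwise `t' < t`, `X t'` is seen at `t` and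
`rw S t ≤ X t'` (`zr_le`). -/
theorem ch_of (hS : Spl S) (ht : t < S.m) (ht' : t' < S.m) (h1 : S.X t < S.X t')
    (h2 : S.X t' ≤ S.X t + 2 ^ c) (h3 : S.X t + 2 ^ c < rw S t)
    (h4 : S.X t' + 2 ^ c < rw S t') : Ch S c t t' := by
  refine ⟨?_, ht', h1, h2, h3, h4⟩
  by_contra h
  have h5 : t' < t := by
    rcases Nat.lt_trichotomy t t' with h6 | h6 | h6
    · exact absurd h6 h
    · subst h6
      omega
    · exact h6
  have h6 : rw S t ≤ S.X t' := zr_le (seen_X ht' h5) h1
  omega

/-- MODULE af (S). The right wall does not move to the right: `rw S t` is `top` or seen at `t`, hence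
at `t'`, and `X t' ≤ X t + 2 ^ c < rw S t`. -/
theorem ch_rw (h : Ch S c t t') : rw S t' ≤ rw S t := by
  rcases zr_spec S t (S.X t) with h1 | h1
  · have h2 : rw S t = S.top := h1
    rw [h2]
    exact zr_le_top S t' _
  · have h2 : S.X t' < rw S t := by
      have := h.X2
      have := h.w1
      omega
    exact zr_le (seen_mono h1.1 h.lt.le) h2

/-- MODULE ag (M). The right wall of the point `X t'` along the chain. For `t < u ≤ t'` let
`R u = zr S u (S.X t')`. Then `R (t + 1) = rw S t` (`zr_eq`, `zr_succ`: nothing is seen in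
`(X t, X t']` at `t`, as `X t' < rw S t`; `X t < X t'`), `R t' = rw S t'` and
`R u - R (u + 1) = X`-jump: by `zr_succ`, `R (u + 1) = R u` or `X t' < X u < R u` and
`R (u + 1) = X u`; in the second case `rw S u = R u` (nothing seen in `[X t', X u]`...), `lw S u =
zl S u (X u)` lies in `[X t, X t')`: it is `≥ X t` (seen) and `< X t'` (nothing is seen at `u` in
`(X t', X u]`, and `X t'` itself is not seen before `t'`). Induction on `u`. -/
theorem ch_sum (hS : Spl S) (h : Ch S c t t') :
    rw S t ≤ rw S t' + ∑ u ∈ Finset.Ioo t t',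
      (if S.X t' < S.X u ∧ S.X u < rw S t ∧ S.X t ≤ lw S u ∧ lw S u < S.X t' ∧
        rw S t' ≤ S.X u then rw S u - S.X u else 0) := by
  have hX := h.X1
  have hlt := h.lt
  have hlm := h.lm
  have h0 : S.X t' < rw S t := by
    have := h.X2
    have := h.w1
    omega
  have hR0 : zr S (t + 1) (S.X t') = rw S t := by
    rw [zr_succ (by omega), if_neg (by omega)]
    exact zr_eq hX.le (fun w h1 h2 => not_seen_right h1 (by
      have : w < rw S t := by omega
      exact this))
  have key : ∀ n, t + 1 + n ≤ t' → rw S t ≤ zr S (t + 1 + n) (S.X t') +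
      ∑ u ∈ Finset.Ico (t + 1) (t + 1 + n),
        (if S.X t' < S.X u ∧ S.X u < rw S t ∧ S.X t ≤ lw S u ∧ lw S u < S.X t' ∧
          rw S t' ≤ S.X u then rw S u - S.X u else 0) := by
    intro n
    induction n with
    | zero =>
      intro _
      rw [Nat.add_zero, hR0]
      omega
    | succ n ih =>
      intro hn
      have ih := ih (by omega)
      set u := t + 1 + n with hu
      have hum : u < S.m := by omega
      rw [show t + 1 + (n + 1) = u + 1 by omega, Finset.sum_Ico_succ_top (by omega)]
      suffices hs : zr S u (S.X t') ≤ zr S (u + 1) (S.X t') +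
          (if S.X t' < S.X u ∧ S.X u < rw S t ∧ S.X t ≤ lw S u ∧ lw S u < S.X t' ∧
            rw S t' ≤ S.X u then rw S u - S.X u else 0) by
        omega
      rw [zr_succ hum]
      by_cases h1 : S.X t' < S.X u
      · rw [if_pos h1]
        rcases Nat.lt_or_ge (S.X u) (zr S u (S.X t')) with h2 | h2
        · rw [min_eq_right h2.le]
          have c2 : S.X u < rw S t := by
            have h3 : zr S u (S.X t') ≤ zr S (t + 1) (S.X t') := zr_anti (by omega)
            omega
          have c3 : S.X t ≤ lw S u := le_zl (seen_X (by omega) (by omega)) (by omega)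
          have c4 : lw S u < S.X t' := by
            rcases zl_spec S u (S.X u) with h3 | h3
            · have h4 := (S.key _ (S.req t' hlm)).1
              have h5 : lw S u = 0 := h3
              omega
            · by_contra h4
              have h5 : S.X t' ≤ zl S u (S.X u) := by
                have : ¬ zl S u (S.X u) < S.X t' := h4
                omega
              rcases Nat.eq_or_lt_of_le h5 with h6 | h6
              · have h7 := h3.1
                rw [← h6] at h7
                exact not_seen_X hS hlm (seen_mono h7 (by omega))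
              · have h7 := zr_le h3.1 h6
                have h8 := h3.2
                omega
          have c5 : rw S t' ≤ S.X u := zr_le (seen_X hum (by omega)) h1
          rw [if_pos ⟨h1, c2, c3, c4, c5⟩]
          have h6 : zr S u (S.X u) = zr S u (S.X t') := by
            refine zr_eq h1.le (fun w a b hw => ?_)
            have := zr_le hw a
            omega
          have h7 : rw S u = zr S u (S.X t') := h6
          omega
        · rw [min_eq_left h2]
          omega
      · rw [if_neg h1]
        omega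
  have h1 := key (t' - t - 1) (by omega)
  rw [show t + 1 + (t' - t - 1) = t' by omega] at h1
  exact h1

private theorem ah_part (S : Sys) (c t t' : ℕ) (hlm : t' < S.m) (hX : S.X t ≤ S.X t')
    (P : ℕ → Prop) [DecidablePred P] (hP : ∀ u, t < u → u < t' → P u →
      S.X t ≤ lw S u ∧ lw S u < S.X t' ∧ lw S u + 2 ^ c ≤ S.X u) :
    Phi S c (S.X t) + ∑ u ∈ Finset.Ioo t t', (if P u then min (rw S u - S.X u) (2 ^ c) else 0) ≤
      Phi S c (S.X t') := by
  unfold Phi
  have h1 : S.cnt (fun t v => S.E t v ∧ zl S (t + 1) v < S.X t')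
      ≥ S.cnt (fun u v => S.E u v ∧ zl S (u + 1) v < S.X t) := by
    apply Finset.card_le_card
    intro q hq
    simp only [Sys.set, Finset.mem_filter] at hq ⊢
    exact ⟨hq.1, hq.2.1, lt_of_lt_of_le hq.2.2 hX⟩
  have hsub : Finset.Ioo t t' ⊆ Finset.range S.m := by
    intro u hu
    rw [Finset.mem_Ioo] at hu
    rw [Finset.mem_range]
    omega
  have h2 : ∑ u ∈ Finset.Ioo t t', (if P u then min (rw S u - S.X u) (2 ^ c) else 0)
      = ∑ u ∈ Finset.range S.m,
        (if u ∈ Finset.Ioo t t' then (if P u then min (rw S u - S.X u) (2 ^ c) else 0) else 0) := by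
    rw [← Finset.sum_subset hsub (fun u _ hu => if_neg hu)]
    exact Finset.sum_congr rfl fun u hu => (if_pos hu).symm
  have h3 : ∑ u ∈ Finset.range S.m,
        (if lw S u < S.X t ∧ lw S u + 2 ^ c ≤ S.X u then min (rw S u - S.X u) (2 ^ c) else 0) +
      ∑ u ∈ Finset.Ioo t t', (if P u then min (rw S u - S.X u) (2 ^ c) else 0) ≤
      ∑ u ∈ Finset.range S.m,
        (if lw S u < S.X t' ∧ lw S u + 2 ^ c ≤ S.X u then min (rw S u - S.X u) (2 ^ c) else 0) := by
    rw [h2, ← Finset.sum_add_distrib]
    apply Finset.sum_le_sum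
    intro u _
    by_cases hu : u ∈ Finset.Ioo t t'
    · rw [if_pos hu]
      by_cases hPu : P u
      · rw [Finset.mem_Ioo] at hu
        obtain ⟨a1, a2, a3⟩ := hP u hu.1 hu.2 hPu
        rw [if_pos hPu, if_neg (by omega), if_pos ⟨a2, a3⟩, zero_add]
      · rw [if_neg hPu, add_zero]
        split_ifs with b1 b2
        · exact le_refl _
        · exact absurd ⟨lt_of_lt_of_le b1.1 hX, b1.2⟩ b2
        · exact Nat.zero_le _
        · exact le_refl _
    · rw [if_neg hu, add_zero]
      split_ifs with b1 b2
      · exact le_refl _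
      · exact absurd ⟨lt_of_lt_of_le b1.1 hX, b1.2⟩ b2
      · exact Nat.zero_le _
      · exact le_refl _
  omega

/-- MODULE ah (M). THE WINDOW LEMMA. `Phi (X t') - Phi (X t) < 2 ^ c` implies that the right wall
moves by at most `Phi (X t') - Phi (X t)`. The summands of `ch_sum` have
`lw S u + 2 ^ c ≤ X u` (as `lw S u < X t'`, `X t' + 2 ^ c < rw S t' ≤ X u`), `X t ≤ lw S u < X t'`, so they
are summands of the last part of `Phi (X t') - Phi (X t)`, with `min (rw S u - X u) (2 ^ c)`; as
the total is `< 2 ^ c` every `min` is `rw S u - X u`. -/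
theorem ch_wall (hS : Spl S) (h : Ch S c t t') (hd : Phi S c (S.X t') < Phi S c (S.X t) + 2 ^ c) :
    rw S t + Phi S c (S.X t) ≤ rw S t' + Phi S c (S.X t') := by
  have h1 := ch_sum hS h
  have h2 := ah_part S c t t' h.lm h.X1.le
    (fun u => S.X t' < S.X u ∧ S.X u < rw S t ∧ S.X t ≤ lw S u ∧ lw S u < S.X t' ∧
        rw S t' ≤ S.X u) (fun u _ _ hu => ⟨hu.2.2.1, hu.2.2.2.1, by
          have h3 := h.w2
          have h4 := hu.2.2.2.1
          have h5 := hu.2.2.2.2
          omega⟩)
  have h3 : ∑ u ∈ Finset.Ioo t t',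
      (if S.X t' < S.X u ∧ S.X u < rw S t ∧ S.X t ≤ lw S u ∧ lw S u < S.X t' ∧
        rw S t' ≤ S.X u then rw S u - S.X u else 0)
      = ∑ u ∈ Finset.Ioo t t',
      (if S.X t' < S.X u ∧ S.X u < rw S t ∧ S.X t ≤ lw S u ∧ lw S u < S.X t' ∧
        rw S t' ≤ S.X u then min (rw S u - S.X u) (2 ^ c) else 0) := by
    apply Finset.sum_congr rfl
    intro u hu
    have h4 := Finset.single_le_sum (f := fun u =>
      (if S.X t' < S.X u ∧ S.X u < rw S t ∧ S.X t ≤ lw S u ∧ lw S u < S.X t' ∧
        rw S t' ≤ S.X u then min (rw S u - S.X u) (2 ^ c) else 0)) (fun _ _ => Nat.zero_le _) hu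
    beta_reduce at h4 h2
    split_ifs at h4 ⊢ with h5
    · have h6 : min (rw S u - S.X u) (2 ^ c) < 2 ^ c := by omega
      rcases Nat.le_total (rw S u - S.X u) (2 ^ c) with h7 | h7
      · exact (min_eq_left h7).symm
      · rw [min_eq_right h7] at h6
        exact absurd h6 (lt_irrefl _)
    · rfl
  beta_reduce at h2
  rw [h3] at h1
  omega

/-- MODULE ai (M). The touches `(u, v)` with `t ≤ u < t'`, `X t' < v < rw S t'` have
`X t ≤ zl S (u + 1) v < X t'`: `X t` is seen at `u + 1`, `X t < v`; nothing in `[X t', v)` is seen at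
`u + 1 ≤ t'` (`X t'` is not seen at `t'`, `not_seen_right`). So they are counted in
`Phi (X t') - Phi (X t)`. -/
theorem ch_touch (hS : Spl S) (h : Ch S c t t') :
    S.cnt (fun u v => S.E u v ∧ t ≤ u ∧ u < t' ∧ S.X t' < v ∧ v < rw S t') + Phi S c (S.X t) ≤
      Phi S c (S.X t') := by
  have hX : S.X t ≤ S.X t' := h.X1.le
  have h1 : S.cnt (fun u v => S.E u v ∧ t ≤ u ∧ u < t' ∧ S.X t' < v ∧ v < rw S t') +
      S.cnt (fun u v => S.E u v ∧ zl S (u + 1) v < S.X t) ≤
      S.cnt (fun u v => S.E u v ∧ zl S (u + 1) v < S.X t') := by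
    unfold Sys.cnt
    rw [← Finset.card_union_of_disjoint]
    · apply Finset.card_le_card
      intro q hq
      rw [Finset.mem_union] at hq
      simp only [Sys.set, Finset.mem_filter] at hq ⊢
      rcases hq with ⟨hq, hE, h3, h4, h5, h6⟩ | ⟨hq, hE, h3⟩
      · refine ⟨hq, hE, ?_⟩
        by_contra hge
        push Not at hge
        rcases zl_spec S (q.1 + 1) q.2 with h7 | ⟨h7, h8⟩
        · have := h.X1
          omega
        · have h9 : Seen S t' (zl S (q.1 + 1) q.2) := seen_mono h7 (by omega)
          rcases Nat.eq_or_lt_of_le hge with h10 | h10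
          · rw [← h10] at h9
            exact not_seen_X hS h.lm h9
          · exact not_seen_right h10 (lt_trans h8 h6) h9
      · exact ⟨hq, hE, lt_of_lt_of_le h3 hX⟩
    · rw [Finset.disjoint_left]
      intro q hq hq'
      simp only [Sys.set, Finset.mem_filter] at hq hq'
      obtain ⟨-, -, h3, h4, h5, h6⟩ := hq
      have h7 : Seen S (q.1 + 1) (S.X t) := seen_X (lt_trans h.lt h.lm) (by omega)
      have h8 := le_zl h7 (lt_of_le_of_lt hX h5)
      have h9 := hq'.2.2
      omega
  have h2 : ∑ u ∈ Finset.range S.m,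
        (if lw S u < S.X t ∧ lw S u + 2 ^ c ≤ S.X u then min (rw S u - S.X u) (2 ^ c) else 0) ≤
      ∑ u ∈ Finset.range S.m,
        (if lw S u < S.X t' ∧ lw S u + 2 ^ c ≤ S.X u then min (rw S u - S.X u) (2 ^ c) else 0) := by
    apply Finset.sum_le_sum
    intro u _
    split_ifs with b1 b2
    · exact le_refl _
    · exact absurd ⟨lt_of_lt_of_le b1.1 hX, b1.2⟩ b2
    · exact Nat.zero_le _
    · exact le_refl _
  unfold Phi
  omega

/-- MODULE aj (S). `x ≤ Phi`: the left wall moves by at most the difference of the potentials. -/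
theorem phi_left (S : Sys) (c : ℕ) {x y : ℕ} (h : x ≤ y) :
    y + Phi S c x ≤ x + Phi S c y := by
  unfold Phi
  have h1 : S.cnt (fun t v => S.E t v ∧ zl S (t + 1) v < x) ≤
      S.cnt (fun t v => S.E t v ∧ zl S (t + 1) v < y) := by
    apply Finset.card_le_card
    intro q hq
    simp only [Sys.set, Finset.mem_filter] at hq ⊢
    exact ⟨hq.1, hq.2.1, by omega⟩
  have h2 : (∑ t ∈ Finset.range S.m,
      (if lw S t < x ∧ lw S t + 2 ^ c ≤ S.X t then min (rw S t - S.X t) (2 ^ c) else 0)) ≤
      ∑ t ∈ Finset.range S.m,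
      (if lw S t < y ∧ lw S t + 2 ^ c ≤ S.X t then min (rw S t - S.X t) (2 ^ c) else 0) := by
    apply Finset.sum_le_sum
    intro u _
    split_ifs with a b b
    · exact le_rfl
    · exact absurd ⟨by omega, a.2⟩ b
    · exact Nat.zero_le _
    · exact le_rfl
  omega

end Pool.Agent.SplNa
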