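import Pool.Agent.SplNr.Wit

set_option autoImplicit false

/-!
# The engine: kills over the gaps of one cell

An item `x = (t, q)` is a long gap `(q, rho q)` of the path of the request `t`, together with a
witness `W x` above the gap which is killed or new.
-/

namespace Pool.Agent.SplNr

open Pool.Agent.SplLog Pool.Agent.SplLs Pool.Agent.SplDq Pool.Agent.SplTr
open scoped Classical

variable {S : Sys} {D f s t u v w z p q g : ℕ} {W : ℕ × ℕ → ℕ}

/-- the touched keys above `q` -/
noncomputable def abv (S : Sys) (t q : ℕ) : Finset ℕ := S.K.filter (fun v => S.R t v ∧ q < v)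

/-- items -/
structure Itm (S : Sys) (D z : ℕ) (W : ℕ × ℕ → ℕ) (x : ℕ × ℕ) : Prop where
  R : S.R x.1 x.2
  x1 : S.X x.1 + 4 * D ≤ x.2
  x2 : x.2 + 4 * D ≤ S.rho x.1 x.2
  x3 : S.rho x.1 x.2 < rr S x.1
  w1 : S.rho x.1 x.2 ≤ W x
  w2 : S.R x.1 (W x)
  w3 : W x < rr S x.1
  w4 : (∃ l, S.Kl x.1 (W x) l) ∨ New S x.1 (W x)
  sh : (abv S x.1 x.2).card ≤ z

/-- the conclusion of the entry lemma -/
def EnC (S : Sys) (s t w f : ℕ) : Prop :=
  (EvR S t w f ∧ S.X s ≤ S.X f ∧ S.X f < S.X t ∧ rr S t ≤ rr S f ∧ rr S f ≤ rr S s) ∨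
    (EvL S t w f ∧ s < f ∧ rr S t ≤ S.X f ∧ S.X f < rr S s ∧ S.X s ≤ ll S f ∧ ll S f ≤ S.X t)

/-- the item enters by an event -/
def Enx (S : Sys) (D : ℕ) (W : ℕ × ℕ → ℕ) (x : ℕ × ℕ) : Prop :=
  ∃ s f, Win S D s x.1 ∧ Ent S s x.1 (W x) f ∧ EnC S s x.1 (W x) f

/-- the cell of an item -/
noncomputable def lab (S : Sys) (D : ℕ) (x : ℕ × ℕ) : (ℕ × ℕ) × ℕ :=
  ((S.X x.1 / D, rr S x.1 / D), x.2 / D)

theorem itm_unique (hD : 0 < D) {x y : ℕ × ℕ} (hx : Itm S D z W x) (hy : Itm S D z W y)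
    (he : x.2 / D = y.2 / D) (ht : x.1 = y.1) : x = y := by
  have key : ∀ a b : ℕ × ℕ, Itm S D z W a → Itm S D z W b → a.2 / D = b.2 / D → a.1 = b.1 →
      ¬ a.2 < b.2 := by
    intro a b ha hb hab h1 hlt
    have h2 := ha.R
    have h3 := ha.x2
    rw [h1] at h2 h3
    have h4 := (Sys.R_above h2 hb.R hlt).1
    have h5 := div_lt_of_gap (a := a.2) (b := b.2) hD (by omega)
    omega
  have h1 := key x y hx hy he ht
  have h2 := key y x hy hx he.symm ht.symm
  exact Prod.ext ht (by omega)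

theorem one_cell (hS : Spl S) (hD : 0 < D) (Q : Finset (ℕ × ℕ)) (hQ : ∀ x ∈ Q, Itm S D z W x)
    (hl : ∀ x ∈ Q, ∀ y ∈ Q, lab S D x = lab S D y) :
    Q.card ≤ 1 + z + (Q.filter (Enx S D W)).card := by
  rcases Q.eq_empty_or_nonempty with h0 | hne
  · rw [h0]
    simp
  obtain ⟨x0, hx0, hmin⟩ := Finset.exists_min_image Q (fun x => x.1) hne
  have hI0 := hQ x0 hx0
  have hlab : ∀ x ∈ Q, S.X x0.1 / D = S.X x.1 / D ∧ rr S x0.1 / D = rr S x.1 / D ∧
      x0.2 / D = x.2 / D := by
    intro x hx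
    have h1 := hl x0 hx0 x hx
    simp only [lab, Prod.mk.injEq] at h1
    exact ⟨h1.1.1, h1.1.2, h1.2⟩
  have hun : ∀ x ∈ Q, ∀ y ∈ Q, x.1 = y.1 → x = y := by
    intro x hx y hy he
    have h1 := hlab x hx
    have h2 := hlab y hy
    exact itm_unique hD (hQ x hx) (hQ y hy) (by omega) he
  have key : ∀ x ∈ Q, x ≠ x0 → ¬ Enx S D W x → S.R x0.1 (W x) ∧ x0.2 < W x ∧
      (∀ f, x0.1 ≤ f → f < x.1 → ∀ l, ¬ S.Kl f (W x) l) ∧ ∃ l, S.Kl x.1 (W x) l := by
    intro x hx hne hE
    have hI := hQ x hx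
    obtain ⟨l1, l2, l3⟩ := hlab x hx
    have hst : x0.1 < x.1 := by
      rcases Nat.eq_or_lt_of_le (hmin x hx) with h | h
      · exact absurd (hun x0 hx0 x hx h).symm hne
      · exact h
    have a1 := hI0.x1
    have a2 := hI0.x2
    have a3 := hI0.x3
    have b1 := hI.x2
    have b2 := hI.w1
    have hxm : x.1 < S.m := hI.R.1
    have hWin : Win S D x0.1 x.1 := win_of hS hD hst hxm l1 l2 (by omega)
    have hq : x0.2 < W x := by
      have := div_lt_of_eq hD l3
      omega
    have hwX := hI.w2.2.2.1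
    have hwK := hI.w2.2.1
    have hno : S.R x0.1 (W x) ∧ ∀ f, x0.1 ≤ f → f < x.1 → ∀ l, ¬ S.Kl f (W x) l := by
      by_contra hno
      apply hE
      obtain ⟨f, h1, h2⟩ := entry hS hWin hI.w2 hI.w3 hno (by
        intro hR
        have h3 : x0.2 ≤ S.lam x0.1 (W x) := by
          by_contra hc
          exact hR (R_anc hI0.R hwK hq (by omega))
        have h4 := hWin.x2
        omega)
      exact ⟨x0.1, f, hWin, h1, h2⟩
    refine ⟨hno.1, hq, hno.2, ?_⟩
    rcases hI.w4 with h | h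
    · exact h
    · exact absurd h (not_new hS hWin hno.1 hwX hI.w3 hno.2)
  have h1 : ((Q.erase x0).filter (fun x => ¬ Enx S D W x)).card ≤ z := by
    refine le_trans ?_ hI0.sh
    apply Finset.card_le_card_of_injOn W
    · intro x hx
      rw [Finset.mem_coe, Finset.mem_filter, Finset.mem_erase] at hx
      obtain ⟨k1, k2, k3, k4⟩ := key x hx.1.2 hx.1.1 hx.2
      rw [Finset.mem_coe, abv, Finset.mem_filter]
      exact ⟨k1.2.1, k1, k2⟩
    · intro x hx y hy hxy
      rw [Finset.mem_coe, Finset.mem_filter, Finset.mem_erase] at hx hy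
      obtain ⟨k1, k2, k3, l, k4⟩ := key x hx.1.2 hx.1.1 hx.2
      obtain ⟨j1, j2, j3, l', j4⟩ := key y hy.1.2 hy.1.1 hy.2
      have hxy : W x = W y := hxy
      rcases Nat.lt_trichotomy x.1 y.1 with h | h | h
      · rw [hxy] at k4
        exact absurd k4 (j3 x.1 (hmin x hx.1.2) h l)
      · exact hun x hx.1.2 y hy.1.2 h
      · rw [← hxy] at j4
        exact absurd j4 (k3 y.1 (hmin y hy.1.2) h l')
  have h2 : (Q.erase x0).card + 1 = Q.card := Finset.card_erase_add_one hx0
  have h3 := Finset.card_filter_add_card_filter_not (s := Q.erase x0) (fun x => Enx S D W x)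
  have h4 : ((Q.erase x0).filter (fun x => Enx S D W x)).card ≤
      (Q.filter (fun x => Enx S D W x)).card :=
    Finset.card_le_card (Finset.filter_subset_filter _ (Finset.erase_subset _ _))
  have h5 : (Q.filter (fun x => Enx S D W x)).card = (Q.filter (Enx S D W)).card := rfl
  omega

/-- **The engine.** -/
theorem engine (hS : Spl S) (hD : 0 < D) (Q : Finset (ℕ × ℕ)) (hQ : ∀ x ∈ Q, Itm S D z W x) :
    Q.card ≤ (Q.image (lab S D)).card * (1 + z) + (Q.filter (Enx S D W)).card := by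
  have h1 : Q.card = ∑ b ∈ Q.image (lab S D), (Q.filter (fun x => lab S D x = b)).card :=
    Finset.card_eq_sum_card_image _ _
  have h2 : (Q.filter (Enx S D W)).card = ∑ b ∈ Q.image (lab S D),
      ((Q.filter (Enx S D W)).filter (fun x => lab S D x = b)).card := by
    apply Finset.card_eq_sum_card_fiberwise
    intro x hx
    rw [Finset.mem_coe, Finset.mem_filter] at hx
    exact Finset.mem_image_of_mem _ hx.1
  rw [h1, h2, ← smul_eq_mul, ← Finset.sum_const, ← Finset.sum_add_distrib]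
  apply Finset.sum_le_sum
  intro b _
  have h3 := one_cell hS hD (Q.filter (fun x => lab S D x = b)) (z := z) (W := W)
    (fun x hx => hQ x (Finset.mem_filter.1 hx).1)
    (fun x hx y hy => by
      rw [(Finset.mem_filter.1 hx).2, (Finset.mem_filter.1 hy).2])
  have h4 : (Q.filter (fun x => lab S D x = b)).filter (Enx S D W) =
      (Q.filter (Enx S D W)).filter (fun x => lab S D x = b) := Finset.filter_comm _ _ _
  rw [h4] at h3
  exact h3

/-- The number of cells. -/
theorem labels (hS : Spl S) (hD : 0 < D) (Q : Finset (ℕ × ℕ)) (B : ℕ)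
    (hQ : ∀ x ∈ Q, x.1 < S.m ∧ S.X x.1 + 2 * D ≤ rr S x.1) (hB : ∀ x ∈ Q, rr S x.1 ≤ x.2 + B * D ∨
      x.2 ≤ S.X x.1 + B * D) (hq : ∀ x ∈ Q, S.X x.1 ≤ x.2 ∧ x.2 ≤ rr S x.1) :
    (Q.image (lab S D)).card ≤ 2 * (S.top / D + 1) * (2 * (B + 1)) := by
  have h1 := windows hS hD (Q.image Prod.fst) (by
    intro t ht
    rw [Finset.mem_image] at ht
    obtain ⟨x, hx, rfl⟩ := ht
    exact hQ x hx)
  have h2 : (Q.image (lab S D)).card ≤
      (((Q.image Prod.fst).image (fun t => (S.X t / D, rr S t / D))) ×ˢ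
        ((Finset.range (B + 1)) ×ˢ (Finset.range 2))).card := by
    apply Finset.card_le_card_of_injOn (fun b => (b.1, (if b.2 ≤ b.1.1 + B then
      (b.2 - b.1.1, 0) else (b.1.2 - b.2, 1))))
    · intro b hb
      rw [Finset.mem_coe, Finset.mem_image] at hb
      obtain ⟨x, hx, rfl⟩ := hb
      rw [Finset.mem_coe, Finset.mem_product, Finset.mem_product]
      refine ⟨?_, ?_⟩
      · simp only [lab]
        exact Finset.mem_image_of_mem _ (Finset.mem_image_of_mem _ hx)
      · simp only [lab]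
        have e1 : (S.X x.1 + B * D) / D = S.X x.1 / D + B := Nat.add_mul_div_right _ _ hD
        have e2 : (x.2 + B * D) / D = x.2 / D + B := Nat.add_mul_div_right _ _ hD
        split_ifs with h
        · simp only [Finset.mem_range]
          omega
        · simp only [Finset.mem_range]
          rcases hB x hx with h3 | h3
          · have h4 : rr S x.1 / D ≤ (x.2 + B * D) / D := Nat.div_le_div_right h3
            omega
          · have h4 : x.2 / D ≤ (S.X x.1 + B * D) / D := Nat.div_le_div_right h3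
            omega
    · intro b hb b' hb' he
      rw [Finset.mem_coe, Finset.mem_image] at hb hb'
      obtain ⟨x, hx, rfl⟩ := hb
      obtain ⟨y, hy, rfl⟩ := hb'
      have ex1 : S.X x.1 / D ≤ x.2 / D := Nat.div_le_div_right (hq x hx).1
      have ex2 : x.2 / D ≤ rr S x.1 / D := Nat.div_le_div_right (hq x hx).2
      have ey1 : S.X y.1 / D ≤ y.2 / D := Nat.div_le_div_right (hq y hy).1
      have ey2 : y.2 / D ≤ rr S y.1 / D := Nat.div_le_div_right (hq y hy).2
      simp only [lab, Prod.mk.injEq] at he ⊢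
      obtain ⟨⟨e1, e2⟩, e3⟩ := he
      refine ⟨⟨e1, e2⟩, ?_⟩
      split_ifs at e3 with h3 h4 h4
      · simp only [Prod.mk.injEq] at e3
        omega
      · simp only [Prod.mk.injEq] at e3
        omega
      · simp only [Prod.mk.injEq] at e3
        omega
      · simp only [Prod.mk.injEq] at e3
        omega
  rw [Finset.card_product, Finset.card_product, Finset.card_range, Finset.card_range] at h2
  calc (Q.image (lab S D)).card ≤ _ := h2
    _ ≤ 2 * (S.top / D + 1) * ((B + 1) * 2) := Nat.mul_le_mul_right _ h1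
    _ = 2 * (S.top / D + 1) * (2 * (B + 1)) := by ring

end Pool.Agent.SplNr
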