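import Pool.Agent.SplNr.Win

set_option autoImplicit false

/-!
# The entry lemma

If a key is touched at the end of a window and was not touched and never killed since its beginning,
then it was killed by a key near the left wall, or it killed a key from the right side.
-/

namespace Pool.Agent.SplNr

open Pool.Agent.SplLog Pool.Agent.SplLs Pool.Agent.SplDq Pool.Agent.SplTr
open scoped Classical

variable {S : Sys} {D f s t u v w z p q g : ℕ}

/-- `f` is the last time in `[s, t)` at which `w` is killed on the right side or hidden behind a key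
larger than `X t`. -/
structure Ent (S : Sys) (s t w f : ℕ) : Prop where
  sf : s ≤ f
  ft : f < t
  nk : ∀ u, f < u → u < t → ∀ l, ¬ S.Kl u w l
  la : ∀ u, f < u → u ≤ t → S.lam u w ≤ S.X t

/-- `w` is killed at the time `f` by a key `≤ X t`. -/
def EvR (S : Sys) (t w f : ℕ) : Prop := ∃ l, S.Kl f w l ∧ l ≤ S.X t

/-- `w` kills a key `> X t` from the right side at the time `f`, and then `lam w ≤ X t`. -/
def EvL (S : Sys) (t w f : ℕ) : Prop :=
  Kr S f (S.lam f w) w ∧ S.X t < S.lam f w ∧ S.lam f (S.lam f w) ≤ S.X t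

/-- `w` is new at the request `t`: it was not left-visible before. -/
def New (S : Sys) (t w : ℕ) : Prop := ll S t < S.lam t w

theorem entry (hS : Spl S) (h : Win S D s t) (hw : S.R t w) (hw2 : w < rr S t)
    (hno : ¬ (S.R s w ∧ ∀ f, s ≤ f → f < t → ∀ l, ¬ S.Kl f w l))
    (hlam : ¬ S.R s w → S.X t < S.lam s w) :
    ∃ f, Ent S s t w f ∧
      ((EvR S t w f ∧ S.X s ≤ S.X f ∧ S.X f < S.X t ∧ rr S t ≤ rr S f ∧ rr S f ≤ rr S s) ∨
        (EvL S t w f ∧ s < f ∧ rr S t ≤ S.X f ∧ S.X f < rr S s ∧ S.X s ≤ ll S f ∧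
          ll S f ≤ S.X t)) := by
  have htm := h.ht
  have hst := h.lt
  have hwK := hw.2.1
  have hxw := hw.2.2.1
  have hlt := hw.2.2.2
  have hex : ∃ f, f < t ∧ (s ≤ f ∧ ((∃ l, S.Kl f w l) ∨ S.X t < S.lam f w)) := by
    by_cases hR : S.R s w
    · by_contra hc
      push Not at hc
      exact hno ⟨hR, fun f h1 h2 l hl => (hc f h2 h1).1 l hl⟩
    · exact ⟨s, hst, le_rfl, Or.inr (hlam hR)⟩
  obtain ⟨f, hft, ⟨hsf, hf⟩, hmax⟩ := Sys.exists_prev (P := fun f => s ≤ f ∧
    ((∃ l, S.Kl f w l) ∨ S.X t < S.lam f w)) hex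
  have hmax' : ∀ u, f < u → u < t → (∀ l, ¬ S.Kl u w l) ∧ S.lam u w ≤ S.X t := by
    intro u h1 h2
    have h3 := hmax u h1 h2
    push Not at h3
    have h4 := h3 (by omega)
    exact ⟨h4.1, h4.2⟩
  have hEnt : Ent S s t w f := by
    refine ⟨hsf, hft, fun u h1 h2 => (hmax' u h1 h2).1, ?_⟩
    intro u h1 h2
    rcases Nat.eq_or_lt_of_le h2 with h3 | h3
    · subst h3
      exact hlt.le
    · exact (hmax' u h1 h3).2
  have hla1 : S.lam (f + 1) w ≤ S.X t := hEnt.la (f + 1) (by omega) (by omega)
  refine ⟨f, hEnt, ?_⟩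
  by_cases hk : ∃ l, S.Kl f w l
  · left
    obtain ⟨l, hl⟩ := hk
    have hl2 : l ≤ S.X t := by
      have := hl.2.2
      omega
    have hRf := hl.1
    rcases touch_in hS h hxw hw2 hsf hft (Sys.R_E hRf) with ⟨_, h1, h2, h3, h4⟩ | ⟨h1, _⟩
    · exact ⟨⟨l, hl, hl2⟩, h1, h2, h3, h4⟩
    · exact absurd h1 (fun h1 => Sys.not_R_L hRf h1)
  · right
    have hf2 : S.X t < S.lam f w := by
      rcases hf with hf | hf
      · exact absurd hf hk
      · exact hf
    have hfm : f < S.m := by omega
    have hE : S.E f w := by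
      by_contra hE
      have := (Sys.untouched hfm hwK hE).1
      omega
    rcases touch_in hS h hxw hw2 hsf hft hE with ⟨hR, h1, h2, h3, h4⟩ | ⟨hL, h1, h2, h3, h4, h5⟩
    · exfalso
      have := hR.2.2.2
      omega
    · have hwX := hL.2.2.1
      have hXr := hL.2.2.2
      rcases S.left f hfm w hwK hwX with g1 | ⟨g1, g2, g3 | ⟨c1, c2, c3, c4, c5⟩⟩ | ⟨g1, p, c1, c2,
        c3, c4, c5, c6, c7, c8, c9⟩
      · omega
      · omega
      · have h6 := S.lam_lt f hfm.le w hwK
        refine ⟨⟨⟨⟨hfm, c1, by omega, by omega⟩, hwX, c3⟩, hf2, by omega⟩, h1, h2, h3, h4, h5⟩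
      · omega

/-- A key is charged at most once as a killed key. -/
theorem ent_kill_unique {s' t' : ℕ} (h : Ent S s t w f) (h' : Ent S s' t' w f)
    (hk : ∃ l, S.Kl t w l) (hk' : ∃ l, S.Kl t' w l) : t = t' := by
  obtain ⟨l, hl⟩ := hk
  obtain ⟨l', hl'⟩ := hk'
  rcases Nat.lt_trichotomy t t' with h1 | h1 | h1
  · exact absurd hl (h'.nk t h.ft h1 l)
  · exact h1
  · exact absurd hl' (h.nk t' h'.ft h1 l')

/-- After a kept touch a key is not new any more. -/
theorem stays_old (hS : Spl S) (ht : t < S.m) (hst : s < t) (hR : S.R s w) (hxw : S.X t < w)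
    (hw2 : w < rr S t) (hnk : ∀ u, s ≤ u → u < t → ∀ l, ¬ S.Kl u w l)
    (hX : ∀ u, s ≤ u → u < t → S.R u w → S.X u < S.X t) : S.lam t w ≤ ll S t := by
  have hwK := hR.2.1
  have key : ∀ b, s + 1 ≤ b → b ≤ t → S.lam b w ≤ ll S t := by
    intro b hb
    induction b, hb using Nat.le_induction with
    | base =>
      intro _
      have h1 := le_ll (seen_X hst ht) (hX s le_rfl hst hR)
      rcases R_cases hR with h2 | h2 | ⟨l, h2, _⟩
      · omega
      · omega
      · exact absurd h2 (hnk s le_rfl hst l)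
    | succ b hb ih =>
      intro hbt
      have h1 := ih (by omega)
      have hbm : b < S.m := by omega
      by_cases hE : S.E b w
      · rcases hE with h2 | h2 | h2
        · have h3 := le_ll (seen_X (show b < t by omega) ht) (hX b (by omega) (by omega) h2)
          rcases R_cases h2 with h4 | h4 | ⟨l, h4, _⟩
          · omega
          · omega
          · exact absurd h4 (hnk b (by omega) (by omega) l)
        · have := (Sys.L_mono h2).2.2
          omega
        · exfalso
          have h3 := seen_X (show b < t by omega) ht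
          rw [← h2.2.2] at h3
          exact not_seen_of hxw hw2 h3
      · have := (Sys.untouched hbm hwK hE).1
        omega
  exact key t (by omega) le_rfl

/-- A key is charged at most once as a new key. -/
theorem ent_new_lt (hS : Spl S) {s' t' : ℕ} (h : Ent S s t w f) (h' : Ent S s' t' w f)
    (hR : S.R t w) (hR' : S.R t' w) (hw' : w < rr S t') (hn' : New S t' w) : ¬ t < t' := by
  intro hlt
  have ht' := hR'.1
  unfold New at hn'
  have hX : ∀ u, t ≤ u → u < t' → S.R u w → S.X u < S.X t' := by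
    intro u h1 h2 hRu
    have hne : S.X u ≠ S.X t' := by
      intro h3
      have := hS.inj u t' (by omega) ht' h3
      omega
    have h3 := h'.la (u + 1) (by have := h.ft; omega) (by omega)
    rcases R_cases hRu with h4 | h4 | ⟨l, h4, _⟩
    · omega
    · omega
    · exact absurd h4 (h'.nk u (by have := h.ft; omega) h2 l)
  have := stays_old hS ht' hlt hR hR'.2.2.1 hw'
    (fun u h1 h2 => h'.nk u (by have := h.ft; omega) h2) hX
  omega

theorem ent_new_unique (hS : Spl S) {s' t' : ℕ} (h : Ent S s t w f) (h' : Ent S s' t' w f)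
    (hR : S.R t w) (hR' : S.R t' w) (hw : w < rr S t) (hw' : w < rr S t') (hn : New S t w)
    (hn' : New S t' w) : t = t' := by
  have h1 := ent_new_lt hS h h' hR hR' hw' hn'
  have h2 := ent_new_lt hS h' h hR' hR hw hn
  omega

/-- A key which is touched at the beginning of the window and never killed is not new. -/
theorem not_new (hS : Spl S) (h : Win S D s t) (hR : S.R s w) (hxw : S.X t < w)
    (hw2 : w < rr S t) (hnk : ∀ u, s ≤ u → u < t → ∀ l, ¬ S.Kl u w l) : ¬ New S t w := by
  unfold New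
  have h1 := stays_old hS h.ht h.lt hR hxw hw2 hnk (fun u h1 h2 h3 => by
    rcases touch_in hS h hxw hw2 h1 h2 (Sys.R_E h3) with ⟨_, _, h4, _⟩ | ⟨h4, _⟩
    · exact h4
    · exact absurd h4 (fun h4 => Sys.not_R_L h3 h4))
  omega

end Pool.Agent.SplNr
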