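import Pool.Agent.SplNr.RN

set_option autoImplicit false

/-!
# Long gaps near the left wall, above a killed key

`LBq S A t g`: `g` is killed by `p` at the request `t`, `p` is at least half as far from the request
as `g`, and the gap `(g, rho g)` is at least `1 / A` of the distance of `g` from the request.
-/

namespace Pool.Agent.SplNr

open Pool.Agent.SplLog Pool.Agent.SplLs Pool.Agent.SplDq Pool.Agent.SplTr
open scoped Classical

variable {S : Sys} {A B D f s t u v w z p q g : ℕ} {W : ℕ × ℕ → ℕ}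

/-- long gaps near the left wall, above a killed key -/
def LBq (S : Sys) (A t g : ℕ) : Prop :=
  ∃ p, S.Kl t g p ∧ S.rho t g < rr S t ∧ g - S.X t ≤ 2 * (p - S.X t) ∧
    g - S.X t ≤ A * (S.rho t g - g)

/-- kills with a long gap below, near the left wall -/
def NA (S : Sys) (M t g : ℕ) : Prop := ∃ p, S.Kl t g p ∧ p - S.X t < M * (g - p)

/-- the level -/
noncomputable def lvL (S : Sys) (t q : ℕ) : ℕ := Nat.log 2 (q - S.X t)

/-- the slot -/
noncomputable def slL (S : Sys) (A t q : ℕ) : ℕ := A * (q - S.X t) / 2 ^ lvL S t q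

theorem lvL_bd (h : S.X t < q) : 2 ^ lvL S t q ≤ q - S.X t ∧ q - S.X t < 2 ^ (lvL S t q + 1) := by
  unfold lvL
  exact ⟨Nat.pow_log_le_self 2 (by omega), Nat.lt_pow_succ_log_self (by norm_num) _⟩

theorem lb_gt (h : LBq S A t g) : S.X t < g := by
  obtain ⟨p, h1, -⟩ := h
  exact h1.1.2.2.1

theorem lb_A (h : LBq S A t g) : 0 < A := by
  have h1 := lb_gt h
  obtain ⟨p, h2, h3, h4, h5⟩ := h
  rcases Nat.eq_zero_or_pos A with h6 | h6
  · rw [h6, zero_mul] at h5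
    omega
  · exact h6

theorem slL_lt (h : LBq S A t g) : slL S A t g < 2 * A := by
  have h1 := lvL_bd (lb_gt h)
  unfold slL
  rw [Nat.div_lt_iff_lt_mul (by positivity)]
  calc A * (g - S.X t) < A * 2 ^ (lvL S t g + 1) := Nat.mul_lt_mul_of_pos_left h1.2 (lb_A h)
    _ = 2 * A * 2 ^ lvL S t g := by rw [pow_succ]; ring

theorem slL_inj {g' : ℕ} (h : LBq S A t g) (h' : LBq S A t g') (hl : lvL S t g = lvL S t g')
    (hs : slL S A t g = slL S A t g') : g = g' := by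
  have key : ∀ a b, LBq S A t a → LBq S A t b → lvL S t a = lvL S t b →
      slL S A t a = slL S A t b → ¬ a < b := by
    intro a b ha hb hl hs hlt
    have h0 := lb_gt ha
    obtain ⟨p, h1, h2, h3, h4⟩ := ha
    obtain ⟨p', h1', h2', h3', h4'⟩ := hb
    have h5 := (Sys.R_above h1.1 h1'.1 hlt).1
    have h6 := lvL_bd h0
    unfold slL at hs
    rw [← hl] at hs
    have h7 : A * (S.rho t a - a) ≤ A * (b - a) := Nat.mul_le_mul_left _ (by omega)
    have h8 : A * (b - S.X t) = A * (a - S.X t) + A * (b - a) := by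
      rw [← mul_add]
      congr 1
      omega
    have h9 := div_lt_of_gap (D := 2 ^ lvL S t a) (a := A * (a - S.X t))
      (b := A * (b - S.X t)) (by positivity) (by omega)
    omega
  have h1 := key g g' h h' hl hs
  have h2 := key g' g h' h hl.symm hs.symm
  omega

/-- the lowest unseen key of the left side is killed -/
def E1 (S : Sys) (f w : ℕ) : Prop :=
  Kr S f (S.lam f w) w ∧ S.lam f (S.lam f w) ≤ ll S f ∧ ll S f < w

/-- the lower gap spans the zone -/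
def SP1 (S : Sys) (f w : ℕ) : Prop :=
  Kr S f (S.lam f w) w ∧
    S.lam f (S.lam f w) - ll S f < S.lam f w - S.lam f (S.lam f w) ∧
    4 * (S.X f - S.lam f w) < S.lam f w - ll S f

/-- the upper gap spans the zone -/
def SP2 (S : Sys) (f w : ℕ) : Prop :=
  Kr S f (S.lam f w) w ∧ w - ll S f ≤ 3 * (w - S.lam f w) ∧
    4 * (S.X f - w) < w - ll S f

/-- a long gap near the right wall of the mirror image, below -/
def RM1 (S : Sys) (f w : ℕ) : Prop :=
  Kr S f (S.lam f w) w ∧ RNp S.mir 4 f (S.top - S.lam f w)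

/-- a long gap near the right wall of the mirror image, above -/
def RM2 (S : Sys) (f w : ℕ) : Prop := RNp S.mir 4 f (S.top - w)

theorem cnt_le_m' {P : ℕ → ℕ → Prop} (h : ∀ t w z, P t w → P t z → ¬ w < z) : S.cnt P ≤ S.m := by
  apply cnt_le_m
  intro t w z h1 h2
  have h3 := h t w z h1 h2
  have h4 := h t z w h2 h1
  omega

theorem E1_count (S : Sys) : S.cnt (E1 S) ≤ S.m := by
  apply cnt_le_m'
  rintro f w w' ⟨h1, h2, h3⟩ ⟨h1', h2', h3'⟩ hlt
  have := (kr_ge h1 h1' hlt).1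
  omega

theorem SP1_count (S : Sys) : S.cnt (SP1 S) ≤ S.m := by
  apply cnt_le_m'
  rintro f w w' ⟨h1, h2, h3⟩ ⟨h1', h2', h3'⟩ hlt
  have h4 := (kr_ge h1 h1' hlt).1
  have h5 := (kr_facts h1).2.2.1
  have h6 := h1'.1.2.2.1
  omega

theorem SP2_count (S : Sys) : S.cnt (SP2 S) ≤ S.m := by
  apply cnt_le_m'
  rintro f w w' ⟨h1, h2, h3⟩ ⟨h1', h2', h3'⟩ hlt
  have h4 := (kr_ge h1 h1' hlt).2
  have h5 := (kr_facts h1').1.2.2.1
  omega

theorem RM2_count (S : Sys) : S.cnt (RM2 S) ≤ S.mir.cnt (RNp S.mir 4) := by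
  rw [Sys.mir_cnt (P := fun t w => RNp S.mir 4 t (S.top - w)) (fun t u hu => Iff.rfl)]
  exact cnt_mono (fun t w _ _ h => h)

theorem RM1_count (S : Sys) : S.cnt (RM1 S) ≤ S.mir.cnt (RNp S.mir 4) := by
  rw [Sys.mir_cnt (P := fun t w => RNp S.mir 4 t (S.top - w)) (fun t u hu => Iff.rfl)]
  apply cnt_le_of (fun t w => S.lam t w)
  · rintro t w _ _ ⟨h1, h2⟩
    exact ⟨h1.1.2.1, h2⟩
  · rintro t w z ⟨h1, h2⟩ ⟨h1', h2'⟩ he
    have h3 := h1.2.2
    have h4 := h1'.2.2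
    rw [← he, h3] at h4
    exact h4

/-- The numbers of an item of level at least `A + 4`. -/
theorem lb_num (h : LBq S A t g) (hc : A + 4 ≤ lvL S t g) :
    g + 16 * 2 ^ (lvL S t g - (A + 4)) ≤ S.rho t g ∧
    S.X t + 16 * 2 ^ (lvL S t g - (A + 4)) ≤ g ∧
    g ≤ S.X t + 2 ^ (A + 5) * 2 ^ (lvL S t g - (A + 4)) := by
  have hA := lb_A h
  have h0 := lb_gt h
  obtain ⟨h5, h6⟩ := lvL_bd h0
  obtain ⟨p, h1, h2, h3, h4⟩ := h
  have h8 := R_rho h1.1
  obtain ⟨j, hj⟩ := Nat.exists_eq_add_of_le hc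
  rw [hj] at h5 h6 ⊢
  rw [Nat.add_sub_cancel_left]
  have e1 : 2 ^ (A + 4 + j) = 16 * 2 ^ A * 2 ^ j := by
    rw [pow_add, pow_add]
    ring
  have e2 : 2 ^ (A + 4 + j + 1) = 2 ^ (A + 5) * 2 ^ j := by
    rw [← pow_add]
    congr 1
    ring
  have e3 : A < 2 ^ A := Nat.lt_two_pow_self
  rw [e1] at h5
  rw [e2] at h6
  have e4 : A * (16 * 2 ^ j) ≤ 16 * 2 ^ A * 2 ^ j := by
    calc A * (16 * 2 ^ j) ≤ 2 ^ A * (16 * 2 ^ j) := Nat.mul_le_mul_right _ e3.le
      _ = _ := by ring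
  have e5 : 16 * 2 ^ j ≤ S.rho t g - g := le_of_mul_le_mul_left (by omega) hA
  have e6 : 1 * (16 * 2 ^ j) ≤ 2 ^ A * (16 * 2 ^ j) := Nat.mul_le_mul_right _ (by omega)
  have e7 : 2 ^ A * (16 * 2 ^ j) = 16 * 2 ^ A * 2 ^ j := by ring
  exact ⟨by omega, by omega, by omega⟩

/-- The short kills. -/
def LBs (S : Sys) (A t q : ℕ) : Prop :=
  LBq S A t q ∧ A + 4 ≤ lvL S t q ∧ (abv S t q).card ≤ lvL S t q ^ 2 ∧ ¬ Free S t q

theorem lb_wit (hT : ThrU S) (h : LBs S A t q) :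
    Pos S t q (WR S (t, q)) ∧ S.rho t q ≤ WR S (t, q) ∧ S.R t (WR S (t, q)) ∧
      WR S (t, q) < rr S t ∧ ((∃ l, S.Kl t (WR S (t, q)) l) ∨ New S t (WR S (t, q))) := by
  obtain ⟨⟨p, h1, h2, h3, h4⟩, -, -, h5⟩ := h
  exact WR_spec hT h1.1 h2 (Or.inr ⟨p, h1⟩) h5

theorem lb_itm (hT : ThrU S) (h : LBs S A t q) :
    Itm S (2 ^ (lvL S t q - (A + 4))) (lvL S t q ^ 2) (WR S) (t, q) := by
  obtain ⟨b1, b2, b3, b4, b5⟩ := lb_wit hT h
  obtain ⟨h1, h2, h3, h4⟩ := h
  obtain ⟨a1, a2, a3⟩ := lb_num h1 h2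
  obtain ⟨p, c1, c2, c3, c4⟩ := h1
  exact ⟨c1.1, by show S.X t + _ ≤ q; omega, by show q + _ ≤ S.rho t q; omega, c2, b2, b3, b4,
    b5, h3⟩

/-- the events -/
def GEv (S : Sys) (f w : ℕ) : Prop :=
  NA S 1 f w ∨ (E1 S f w ∨ (SP1 S f w ∨ (SP2 S f w ∨ (RM1 S f w ∨ RM2 S f w))))

theorem lb_event (h : LBs S A t q) (hq : S.rho t q ≤ w) {s : ℕ}
    (hW : Win S (2 ^ (lvL S t q - (A + 4))) s t) (hC : EnC S s t w f) : GEv S f w := by
  obtain ⟨h1, h2, -, -⟩ := h
  obtain ⟨a1, a2, a3⟩ := lb_num h1 h2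
  have g1 := hW.x1
  have g2 := hW.x2
  have g3 := hW.r1
  have g4 := hW.r2
  obtain ⟨E, hE⟩ : ∃ E, E = 2 ^ (lvL S t q - (A + 4)) := ⟨_, rfl⟩
  rw [← hE] at a1 a2 a3 g2 g4
  have hE0 : 0 < E := by rw [hE]; positivity
  rcases hC with ⟨⟨l, c1, c2⟩, c3, c4, c5, c6⟩ | ⟨⟨c1, c2, c3⟩, c4, c5, c6, c7, c8⟩
  · left
    exact ⟨l, c1, by omega⟩
  · right
    have k0 := kr_facts c1
    have hwK := k0.1.2.1
    have huK := c1.1.2.1
    have hfm : f < S.m := c1.1.1
    have k1 := k0.2.2.1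
    have k2 := k0.1.2.2.1
    have k3 := S.lam_lt f hfm.le _ huK
    by_cases d1 : S.lam f (S.lam f w) ≤ ll S f
    · left
      exact ⟨c1, d1, by omega⟩
    right
    push Not at d1
    have hw1 := S.key w hwK
    have hu1 := S.key _ huK
    have hX := X_key hfm
    have m1 := mir_rr (S := S) hfm
    have m2 : S.mir.X f = S.top - S.X f := rfl
    have m3 := Sys.mir_rho (t := f) huK
    have m4 := Sys.mir_rho (t := f) hwK
    have m5 : S.mir.R f (S.top - S.lam f w) := (Sys.mir_R huK).2 c1.1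
    have m6 : S.mir.R f (S.top - w) := (Sys.mir_R hwK).2 k0.1
    have m7 : S.mir.Kl f (S.top - S.lam f w) (S.top - w) := (kr_mir huK hwK).2 c1
    by_cases d2 : w - S.lam f w ≤ S.lam f w - S.lam f (S.lam f w)
    · by_cases d3 : 4 * (S.X f - S.lam f w) < S.lam f w - ll S f
      · left
        exact ⟨c1, by omega, d3⟩
      · right; right; left
        refine ⟨c1, m5, ?_, ?_, ?_, Or.inr ⟨_, m7⟩⟩
        · rw [m1, m3]
          omega
        · rw [m1, m3]
          omega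
        · rw [m1, m2]
          omega
    · by_cases d3 : 4 * (S.X f - w) < w - ll S f
      · right; left
        exact ⟨c1, by omega, d3⟩
      · right; right; right
        refine ⟨m6, ?_, ?_, ?_, Or.inl ?_⟩
        · rw [m1, m4]
          omega
        · rw [m1, m4]
          omega
        · rw [m1, m2]
          omega
        · rw [m4]
          exact m7

theorem GEv_count (S : Sys) :
    S.cnt (GEv S) ≤ S.cnt (NA S 1) + 3 * S.m + 2 * S.mir.cnt (RNp S.mir 4) := by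
  have h1 := cnt_or (S := S) (NA S 1)
    (fun f w => E1 S f w ∨ (SP1 S f w ∨ (SP2 S f w ∨ (RM1 S f w ∨ RM2 S f w))))
  have h2 := cnt_or (S := S) (E1 S) (fun f w => SP1 S f w ∨ (SP2 S f w ∨ (RM1 S f w ∨ RM2 S f w)))
  have h3 := cnt_or (S := S) (SP1 S) (fun f w => SP2 S f w ∨ (RM1 S f w ∨ RM2 S f w))
  have h4 := cnt_or (S := S) (SP2 S) (fun f w => RM1 S f w ∨ RM2 S f w)
  have h5 := cnt_or (S := S) (RM1 S) (RM2 S)
  have e1 := E1_count S
  have e2 := SP1_count S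
  have e3 := SP2_count S
  have e4 := RM1_count S
  have e5 := RM2_count S
  have e6 : S.cnt (GEv S) = S.cnt (fun f w => NA S 1 f w ∨ (E1 S f w ∨ (SP1 S f w ∨ (SP2 S f w ∨
    (RM1 S f w ∨ RM2 S f w))))) := rfl
  omega

theorem lbs_count (hS : Spl S) (hT : ThrU S) (A : ℕ) :
    S.cnt (LBs S A) ≤ 128 * (2 ^ (A + 5) + 1) * (1 + (A + 4) ^ 2) * S.top +
      6 * (S.cnt (NA S 1) + 3 * S.m + 2 * S.mir.cnt (RNp S.mir 4)) := by
  have h1 := lev_engine (W := WR S) hS (A + 4) (2 ^ (A + 5)) (LBs S A) (lvL S)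
    (by
      intro t q h
      refine ⟨h.2.1, ?_⟩
      have h2 := lvL_bd (lb_gt h.1)
      obtain ⟨p, h3, -⟩ := h.1
      have h4 := (S.key q h3.1.2.1).2
      omega)
    (fun t q h => lb_itm hT h)
    (fun t q h => Or.inr (lb_num h.1 h.2.1).2.2)
  have h2 := ev_count (S := S) (W := WR S) hS
    (fun t q => LBs S A t q ∧ Enx S (2 ^ (lvL S t q - (A + 4))) (WR S) (t, q))
    (GEv S)
    (by
      rintro t q ⟨h3, s, f, h4, h5, h6⟩
      obtain ⟨b1, b2, b3, b4, b5⟩ := lb_wit hT h3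
      obtain ⟨p, h7, -⟩ := h3.1
      exact ⟨h7.1, b1, b3, b4, b5, s, f, h5, lb_event h3 b2 h4 h6⟩)
  have h3 := GEv_count S
  omega

/-- **Long gaps near the left wall.** -/
theorem lb (A k : ℕ) : ∃ C, ∀ S : Sys, Spl S → ThrU S →
    k * S.cnt (LBq S A) ≤ k * (6 * S.cnt (NA S 1) + 12 * S.mir.cnt (RNp S.mir 4)) + tch S +
      C * (S.top + irr S) := by
  refine ⟨k * ((A + 4) * (2 * A)) + ((k * (2 * A)) ^ 2 + k * (2 * A)) + k * 2 +
    k * (128 * (2 ^ (A + 5) + 1) * (1 + (A + 4) ^ 2) + 18), ?_⟩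
  intro S hS hT
  have hm := m_le_top hS
  have h1 : S.cnt (LBq S A) ≤ S.cnt (fun t q => (LBq S A t q ∧ lvL S t q < A + 4) ∨
      ((LBq S A t q ∧ lvL S t q ^ 2 < (abv S t q).card) ∨ (Free S t q ∨ LBs S A t q))) := by
    apply cnt_mono
    intro t q _ _ h
    by_cases c1 : lvL S t q < A + 4
    · exact Or.inl ⟨h, c1⟩
    by_cases c2 : lvL S t q ^ 2 < (abv S t q).card
    · exact Or.inr (Or.inl ⟨h, c2⟩)
    by_cases c3 : Free S t q
    · exact Or.inr (Or.inr (Or.inl c3))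
    · exact Or.inr (Or.inr (Or.inr ⟨h, by omega, by omega, c3⟩))
  have h2 := cnt_or (S := S) (fun t q => LBq S A t q ∧ lvL S t q < A + 4)
    (fun t q => (LBq S A t q ∧ lvL S t q ^ 2 < (abv S t q).card) ∨ (Free S t q ∨ LBs S A t q))
  have h3 := cnt_or (S := S) (fun t q => LBq S A t q ∧ lvL S t q ^ 2 < (abv S t q).card)
    (fun t q => Free S t q ∨ LBs S A t q)
  have h4 := cnt_or (S := S) (Free S) (LBs S A)
  have h5 : S.cnt (fun t q => LBq S A t q ∧ lvL S t q < A + 4) ≤ (A + 4) * (2 * A) * S.m :=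
    small_count _ (lvL S) (slL S A) (2 * A) (A + 4) (fun t q h => slL_lt h.1)
      (fun t q q' h h' h1 h2 => slL_inj h.1 h'.1 h1 h2) (fun t q h => h.2)
  have h6 := long_count (S := S) (fun t q => LBq S A t q ∧ lvL S t q ^ 2 < (abv S t q).card)
    (lvL S) (slL S A) (2 * A) k (fun t q h => slL_lt h.1)
      (fun t q q' h h' h1 h2 => slL_inj h.1 h'.1 h1 h2) (fun t q h => h.2)
  have h7 := free_count hS
  have h8 := lbs_count hS hT A
  set c1 := S.cnt (fun t q => LBq S A t q ∧ lvL S t q < A + 4)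
  set c2 := S.cnt (fun t q => LBq S A t q ∧ lvL S t q ^ 2 < (abv S t q).card)
  set c3 := S.cnt (Free S)
  set c4 := S.cnt (LBs S A)
  set n1 := S.cnt (NA S 1)
  set n2 := S.mir.cnt (RNp S.mir 4)
  have h9 : S.cnt (LBq S A) ≤ c1 + (c2 + (c3 + c4)) := by omega
  have g1 : c1 ≤ (A + 4) * (2 * A) * (S.top + irr S) :=
    h5.trans (Nat.mul_le_mul_left _ (by omega))
  have g3 : c3 ≤ 2 * (S.top + irr S) := by omega
  have g4 : c4 ≤ (128 * (2 ^ (A + 5) + 1) * (1 + (A + 4) ^ 2) + 18) * (S.top + irr S) +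
      (6 * n1 + 12 * n2) := by
    calc c4 ≤ 128 * (2 ^ (A + 5) + 1) * (1 + (A + 4) ^ 2) * S.top +
        6 * (n1 + 3 * S.m + 2 * n2) := h8
      _ = 128 * (2 ^ (A + 5) + 1) * (1 + (A + 4) ^ 2) * S.top + 18 * S.m +
        (6 * n1 + 12 * n2) := by ring
      _ ≤ 128 * (2 ^ (A + 5) + 1) * (1 + (A + 4) ^ 2) * (S.top + irr S) +
          18 * (S.top + irr S) + (6 * n1 + 12 * n2) := by
          apply Nat.add_le_add_right
          apply Nat.add_le_add
          · exact Nat.mul_le_mul_left _ (by omega)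
          · exact Nat.mul_le_mul_left _ (by omega)
      _ = _ := by ring
  have g2 : k * c2 ≤ tch S + ((k * (2 * A)) ^ 2 + k * (2 * A)) * (S.top + irr S) :=
    h6.trans (Nat.add_le_add_left (Nat.mul_le_mul_left _ (by omega)) _)
  calc k * S.cnt (LBq S A) ≤ k * (c1 + (c2 + (c3 + c4))) := Nat.mul_le_mul_left _ h9
    _ = k * c1 + k * c2 + k * c3 + k * c4 := by ring
    _ ≤ k * ((A + 4) * (2 * A) * (S.top + irr S)) +
        (tch S + ((k * (2 * A)) ^ 2 + k * (2 * A)) * (S.top + irr S)) +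
        k * (2 * (S.top + irr S)) +
        k * ((128 * (2 ^ (A + 5) + 1) * (1 + (A + 4) ^ 2) + 18) * (S.top + irr S) +
          (6 * n1 + 12 * n2)) := by
        apply Nat.add_le_add
        · apply Nat.add_le_add
          · exact Nat.add_le_add (Nat.mul_le_mul_left _ g1) g2
          · exact Nat.mul_le_mul_left _ g3
        · exact Nat.mul_le_mul_left _ g4
    _ = _ := by ring

end Pool.Agent.SplNr
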