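import Pool.Agent.SplNr.Eng

set_option autoImplicit false

/-!
# Levels: the sums over the scales, the long kills, the events
-/

namespace Pool.Agent.SplNr

open Pool.Agent.SplLog Pool.Agent.SplLs Pool.Agent.SplDq Pool.Agent.SplTr
open scoped Classical

variable {S : Sys} {D f s t u v w z p q g : ℕ} {W : ℕ × ℕ → ℕ}

theorem sum_lev0 (n : ℕ) :
    ∑ i ∈ Finset.range n, (1 + (i : ℚ) ^ 2) / 2 ^ i = 8 - 2 * ((n : ℚ) ^ 2 + 2 * n + 4) / 2 ^ n := by
  induction n with
  | zero => norm_num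
  | succ n ih =>
    rw [Finset.sum_range_succ, ih]
    have h : (2 : ℚ) ^ n ≠ 0 := by positivity
    push_cast
    field_simp
    ring

theorem sum_lev (T c n : ℕ) : ∑ i ∈ Finset.range n, (T / 2 ^ i) * (1 + (i + c) ^ 2) ≤
    16 * (1 + c ^ 2) * T := by
  have h1 : ∀ i ∈ Finset.range n, (((T / 2 ^ i) * (1 + (i + c) ^ 2) : ℕ) : ℚ) ≤
      2 * (1 + c ^ 2) * T * ((1 + (i : ℚ) ^ 2) / 2 ^ i) := by
    intro i _
    have e1 : ((T / 2 ^ i : ℕ) : ℚ) ≤ (T : ℚ) / 2 ^ i := by
      have := @Nat.cast_div_le ℚ _ _ _ T (2 ^ i)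
      push_cast at this
      exact this
    have e2 : (1 + ((i : ℚ) + c) ^ 2) ≤ 2 * (1 + (c : ℚ) ^ 2) * (1 + (i : ℚ) ^ 2) := by
      nlinarith [sq_nonneg ((i : ℚ) - c), sq_nonneg ((i : ℚ) * c), sq_nonneg (i : ℚ),
        sq_nonneg (c : ℚ)]
    have e3 : (0 : ℚ) ≤ (T : ℚ) / 2 ^ i := by positivity
    push_cast
    calc ((T / 2 ^ i : ℕ) : ℚ) * (1 + ((i : ℚ) + c) ^ 2)
        ≤ ((T : ℚ) / 2 ^ i) * (2 * (1 + (c : ℚ) ^ 2) * (1 + (i : ℚ) ^ 2)) := by
          apply mul_le_mul e1 e2 (by positivity) e3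
      _ = 2 * (1 + c ^ 2) * T * ((1 + (i : ℚ) ^ 2) / 2 ^ i) := by ring
  have h2 := Finset.sum_le_sum h1
  rw [← Finset.mul_sum, sum_lev0] at h2
  have h3 : (0 : ℚ) ≤ 2 * ((n : ℚ) ^ 2 + 2 * n + 4) / 2 ^ n := by positivity
  have h4 : (0 : ℚ) ≤ 2 * (1 + (c : ℚ) ^ 2) * T := by positivity
  have h5 : ((∑ i ∈ Finset.range n, (T / 2 ^ i) * (1 + (i + c) ^ 2) : ℕ) : ℚ) ≤
      ((16 * (1 + c ^ 2) * T : ℕ) : ℚ) := by
    push_cast at h2 ⊢
    calc _ ≤ _ := h2
      _ ≤ 2 * (1 + (c : ℚ) ^ 2) * T * 8 := by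
        apply mul_le_mul_of_nonneg_left _ h4
        linarith
      _ = _ := by ring
  exact_mod_cast h5

/-- The number of keys touched on the right side. -/
noncomputable def vis (S : Sys) (t : ℕ) : ℕ := (S.K.filter (fun v => S.R t v)).card

theorem cnt_sum (P : ℕ → ℕ → Prop) :
    S.cnt P = ∑ t ∈ Finset.range S.m, (S.K.filter (fun v => P t v)).card := by
  unfold Sys.cnt Sys.set
  rw [Finset.card_filter, Finset.sum_product]
  apply Finset.sum_congr rfl
  intro t _
  rw [Finset.card_filter]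

theorem sum_vis (S : Sys) : ∑ t ∈ Finset.range S.m, vis S t ≤ tch S := by
  unfold tch
  rw [cnt_sum]
  apply Finset.sum_le_sum
  intro t _
  apply Finset.card_le_card
  intro v hv
  rw [Finset.mem_filter] at hv ⊢
  exact ⟨hv.1, Sys.R_E hv.2⟩

theorem slot_card (P : ℕ → Prop) (lv sl : ℕ → ℕ) (B L : ℕ) (A : Finset ℕ)
    (h1 : ∀ q, P q → sl q < B)
    (h2 : ∀ q q', P q → P q' → lv q = lv q' → sl q = sl q' → q = q')
    (h3 : ∀ q, P q → lv q < L) : (A.filter (fun v => P v)).card ≤ L * B := by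
  have h : (A.filter (fun v => P v)).card ≤ (Finset.range L ×ˢ Finset.range B).card := by
    apply Finset.card_le_card_of_injOn (fun q => (lv q, sl q))
    · intro q hq
      rw [Finset.mem_coe, Finset.mem_filter] at hq
      rw [Finset.mem_coe, Finset.mem_product, Finset.mem_range, Finset.mem_range]
      exact ⟨h3 q hq.2, h1 q hq.2⟩
    · intro q hq q' hq' he
      rw [Finset.mem_coe, Finset.mem_filter] at hq hq'
      simp only [Prod.mk.injEq] at he
      exact h2 q q' hq.2 hq'.2 he.1 he.2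
  rw [Finset.card_product, Finset.card_range, Finset.card_range] at h
  exact h

/-- The kills of small level. -/
theorem small_count (P : ℕ → ℕ → Prop) (lv sl : ℕ → ℕ → ℕ) (B L : ℕ)
    (h1 : ∀ t q, P t q → sl t q < B)
    (h2 : ∀ t q q', P t q → P t q' → lv t q = lv t q' → sl t q = sl t q' → q = q')
    (h3 : ∀ t q, P t q → lv t q < L) : S.cnt P ≤ L * B * S.m := by
  rw [cnt_sum]
  have h : ∀ t ∈ Finset.range S.m, (S.K.filter (fun v => P t v)).card ≤ L * B := fun t _ =>
    slot_card (P t) (lv t) (sl t) B L S.K (h1 t) (h2 t) (h3 t)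
  have h4 := Finset.sum_le_card_nsmul _ _ _ h
  rw [Finset.card_range, smul_eq_mul, mul_comm] at h4
  exact h4

/-- **The long kills.** -/
theorem long_count (P : ℕ → ℕ → Prop) (lv sl : ℕ → ℕ → ℕ) (B k : ℕ)
    (h1 : ∀ t q, P t q → sl t q < B)
    (h2 : ∀ t q q', P t q → P t q' → lv t q = lv t q' → sl t q = sl t q' → q = q')
    (h3 : ∀ t q, P t q → lv t q ^ 2 < (abv S t q).card) :
    k * S.cnt P ≤ tch S + ((k * B) ^ 2 + k * B) * S.m := by
  rw [cnt_sum, Finset.mul_sum]
  have h : ∀ t ∈ Finset.range S.m, k * (S.K.filter (fun v => P t v)).card ≤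
      vis S t + ((k * B) ^ 2 + k * B) := by
    intro t _
    have h4 := slot_card (P t) (lv t) (sl t) B (Nat.sqrt (vis S t) + 1) S.K (h1 t) (h2 t) (by
      intro q hq
      apply Nat.lt_succ_of_le
      rw [Nat.le_sqrt']
      have h5 := h3 t q hq
      have h6 : (abv S t q).card ≤ vis S t := by
        unfold abv vis
        apply Finset.card_le_card
        intro v hv
        rw [Finset.mem_filter] at hv ⊢
        exact ⟨hv.1, hv.2.1⟩
      omega)
    obtain ⟨r, hr⟩ : ∃ r, r = Nat.sqrt (vis S t) := ⟨_, rfl⟩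
    rw [← hr] at h4
    have h5 : r ^ 2 ≤ vis S t := by
      rw [hr]
      exact Nat.sqrt_le' _
    calc k * (S.K.filter (fun v => P t v)).card ≤ k * ((r + 1) * B) := Nat.mul_le_mul_left _ h4
      _ = k * B * r + k * B := by ring
      _ ≤ vis S t + ((k * B) ^ 2 + k * B) := by
        rcases le_total r (k * B) with h6 | h6
        · have : k * B * r ≤ k * B * (k * B) := Nat.mul_le_mul_left _ h6
          have h7 : k * B * (k * B) = (k * B) ^ 2 := by ring
          omega
        · have : k * B * r ≤ r * r := Nat.mul_le_mul_right _ h6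
          have h7 : r * r = r ^ 2 := by ring
          omega
  have h4 := Finset.sum_le_sum h
  rw [Finset.sum_add_distrib, Finset.sum_const, Finset.card_range, smul_eq_mul] at h4
  have h5 := sum_vis S
  calc _ ≤ _ := h4
    _ ≤ tch S + S.m * ((k * B) ^ 2 + k * B) := Nat.add_le_add_right h5 _
    _ = _ := by ring

/-- **The engine, over all levels.** -/
theorem lev_engine (hS : Spl S) (c B : ℕ) (P : ℕ → ℕ → Prop) (lv : ℕ → ℕ → ℕ)
    (h0 : ∀ t q, P t q → c ≤ lv t q ∧ 2 ^ (lv t q) ≤ S.top)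
    (hI : ∀ t q, P t q → Itm S (2 ^ (lv t q - c)) (lv t q ^ 2) W (t, q))
    (hB : ∀ t q, P t q → rr S t ≤ q + B * 2 ^ (lv t q - c) ∨
      q ≤ S.X t + B * 2 ^ (lv t q - c)) :
    S.cnt P ≤ 128 * (B + 1) * (1 + c ^ 2) * S.top +
      S.cnt (fun t q => P t q ∧ Enx S (2 ^ (lv t q - c)) W (t, q)) := by
  set N := S.top + 1 with hN
  have hlt : ∀ t q, P t q → lv t q < N + c := by
    intro t q h
    have h1 := (h0 t q h).2
    have h2 : lv t q < 2 ^ (lv t q) := Nat.lt_two_pow_self
    omega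
  -- the levels
  have hQ : ∀ j, (((S.set P).filter (fun x => lv x.1 x.2 = j + c)).card : ℕ) ≤
      8 * (B + 1) * ((S.top / 2 ^ j) * (1 + (j + c) ^ 2)) +
      ((S.set (fun t q => P t q ∧ Enx S (2 ^ (lv t q - c)) W (t, q))).filter
        (fun x => lv x.1 x.2 = j + c)).card := by
    intro j
    set Q := (S.set P).filter (fun x => lv x.1 x.2 = j + c) with hQdef
    have hmem : ∀ x ∈ Q, P x.1 x.2 ∧ lv x.1 x.2 = j + c ∧ x.1 < S.m ∧ x.2 ∈ S.K := by
      intro x hx
      rw [hQdef, Finset.mem_filter, Sys.mem_set] at hx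
      exact ⟨hx.1.2.2, hx.2, hx.1.1, hx.1.2.1⟩
    rcases Q.eq_empty_or_nonempty with h | h
    · rw [h]
      simp
    have hpos : 0 < 2 ^ j := by positivity
    have hIx : ∀ x ∈ Q, Itm S (2 ^ j) ((j + c) ^ 2) W x := by
      intro x hx
      obtain ⟨h1, h2, h3, h4⟩ := hmem x hx
      have h5 := hI _ _ h1
      rw [h2, Nat.add_sub_cancel] at h5
      exact h5
    have htop : 2 ^ j ≤ S.top := by
      obtain ⟨x, hx⟩ := h
      obtain ⟨h1, h2, h3, h4⟩ := hmem x hx
      have h5 := (h0 _ _ h1).2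
      rw [h2, pow_add] at h5
      have h6 : 1 ≤ 2 ^ c := Nat.one_le_two_pow
      nlinarith
    have h1 := engine hS hpos Q hIx
    have h2 := labels hS hpos Q B
      (by
        intro x hx
        have h3 := hIx x hx
        have h4 := h3.x1
        have h5 := h3.x2
        have h6 := h3.x3
        exact ⟨(hmem x hx).2.2.1, by omega⟩)
      (by
        intro x hx
        obtain ⟨g1, g2, g3, g4⟩ := hmem x hx
        have h5 := hB _ _ g1
        rw [g2, Nat.add_sub_cancel] at h5
        exact h5)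
      (by
        intro x hx
        have h3 := hIx x hx
        have h4 := h3.x1
        have h5 := h3.x2
        have h6 := h3.x3
        exact ⟨by omega, by omega⟩)
    have h3 : S.top / 2 ^ j + 1 ≤ 2 * (S.top / 2 ^ j) := by
      have : 1 ≤ S.top / 2 ^ j := (Nat.one_le_div_iff hpos).2 htop
      omega
    have h4 : (Q.filter (Enx S (2 ^ j) W)) =
        (S.set (fun t q => P t q ∧ Enx S (2 ^ (lv t q - c)) W (t, q))).filter
        (fun x => lv x.1 x.2 = j + c) := by
      ext x
      rw [Finset.mem_filter, hQdef, Finset.mem_filter, Finset.mem_filter, Sys.mem_set, Sys.mem_set]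
      constructor
      · rintro ⟨⟨⟨a1, a2, a3⟩, a4⟩, a5⟩
        refine ⟨⟨a1, a2, a3, ?_⟩, a4⟩
        rw [a4, Nat.add_sub_cancel]
        exact a5
      · rintro ⟨⟨a1, a2, a3, a5⟩, a4⟩
        rw [a4, Nat.add_sub_cancel] at a5
        exact ⟨⟨⟨a1, a2, a3⟩, a4⟩, a5⟩
    rw [← h4]
    refine h1.trans (Nat.add_le_add_right ?_ _)
    calc (Q.image (lab S (2 ^ j))).card * (1 + (j + c) ^ 2)
        ≤ (2 * (S.top / 2 ^ j + 1) * (2 * (B + 1))) * (1 + (j + c) ^ 2) :=
          Nat.mul_le_mul_right _ h2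
      _ ≤ (2 * (2 * (S.top / 2 ^ j)) * (2 * (B + 1))) * (1 + (j + c) ^ 2) := by gcongr
      _ = 8 * (B + 1) * ((S.top / 2 ^ j) * (1 + (j + c) ^ 2)) := by ring
  have key : ∀ A : Finset (ℕ × ℕ), (∀ x ∈ A, c ≤ lv x.1 x.2 ∧ lv x.1 x.2 < N + c) →
      A.card = ∑ j ∈ Finset.range N, (A.filter (fun x => lv x.1 x.2 = j + c)).card := by
    intro A hA
    have h1 : A.card = ∑ j ∈ Finset.range N, (A.filter (fun x => lv x.1 x.2 - c = j)).card := by
      apply Finset.card_eq_sum_card_fiberwise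
      intro x hx
      have := hA x hx
      rw [Finset.mem_coe, Finset.mem_range]
      show lv x.1 x.2 - c < N
      omega
    rw [h1]
    apply Finset.sum_congr rfl
    intro j _
    apply congrArg
    apply Finset.filter_congr
    intro x hx
    have := hA x hx
    omega
  have hA : ∀ x ∈ S.set P, c ≤ lv x.1 x.2 ∧ lv x.1 x.2 < N + c := by
    intro x hx
    rw [Sys.mem_set] at hx
    exact ⟨(h0 _ _ hx.2.2).1, hlt _ _ hx.2.2⟩
  have hA' : ∀ x ∈ S.set (fun t q => P t q ∧ Enx S (2 ^ (lv t q - c)) W (t, q)),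
      c ≤ lv x.1 x.2 ∧ lv x.1 x.2 < N + c := by
    intro x hx
    rw [Sys.mem_set] at hx
    exact ⟨(h0 _ _ hx.2.2.1).1, hlt _ _ hx.2.2.1⟩
  unfold Sys.cnt
  rw [key _ hA, key _ hA']
  have h1 := Finset.sum_le_sum (s := Finset.range N) (fun j _ => hQ j)
  rw [Finset.sum_add_distrib, ← Finset.mul_sum] at h1
  have h2 := sum_lev S.top c N
  calc _ ≤ _ := h1
    _ ≤ 8 * (B + 1) * (16 * (1 + c ^ 2) * S.top) + _ :=
      Nat.add_le_add_right (Nat.mul_le_mul_left _ h2) _
    _ = _ := by ring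

/-- **The events.** -/
theorem ev_count (hS : Spl S) (P : ℕ → ℕ → Prop) (G : ℕ → ℕ → Prop)
    (hP : ∀ t q, P t q → S.R t q ∧ Pos S t q (W (t, q)) ∧ S.R t (W (t, q)) ∧ W (t, q) < rr S t ∧
      ((∃ l, S.Kl t (W (t, q)) l) ∨ New S t (W (t, q))) ∧
      ∃ s f, Ent S s t (W (t, q)) f ∧ G f (W (t, q))) :
    S.cnt P ≤ 6 * S.cnt G := by
  have hex : ∀ x : ℕ × ℕ, ∃ y : ℕ × ℕ, x ∈ S.set P → Ent S y.1 x.1 (W x) y.2 ∧ G y.2 (W x) := by
    intro x
    by_cases hx : x ∈ S.set P
    · rw [Sys.mem_set] at hx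
      obtain ⟨-, -, -, -, -, s, f, h⟩ := hP _ _ hx.2.2
      exact ⟨(s, f), fun _ => h⟩
    · exact ⟨(0, 0), fun h => absurd h hx⟩
  choose F hF using hex
  have h : (S.set P).card ≤ ((Finset.range 2 ×ˢ Finset.range 3) ×ˢ S.set G).card := by
    apply Finset.card_le_card_of_injOn (fun x => (((if ∃ l, S.Kl x.1 (W x) l then 0 else 1),
      (if W x = S.rho x.1 x.2 then 0 else if W x = S.rho x.1 (S.rho x.1 x.2) then 1 else 2)),
      ((F x).2, W x)))
    · intro x hx
      rw [Finset.mem_coe] at hx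
      have h1 := hF x hx
      rw [Sys.mem_set] at hx
      obtain ⟨a1, a2, a3, a4, a5, -⟩ := hP _ _ hx.2.2
      rw [Finset.mem_coe, Finset.mem_product, Finset.mem_product, Sys.mem_set]
      refine ⟨⟨?_, ?_⟩, ?_, ?_, h1.2⟩
      · simp only [Finset.mem_range]
        split_ifs <;> omega
      · simp only [Finset.mem_range]
        split_ifs <;> omega
      · have h2 := h1.1.ft
        have h3 := hx.1
        show (F x).2 < S.m
        omega
      · exact a3.2.1
    · intro x hx y hy he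
      rw [Finset.mem_coe] at hx hy
      have h1 := hF x hx
      have h2 := hF y hy
      rw [Sys.mem_set] at hx hy
      obtain ⟨a1, a2, a3, a4, a5, -⟩ := hP _ _ hx.2.2
      obtain ⟨b1, b2, b3, b4, b5, -⟩ := hP _ _ hy.2.2
      simp only [Prod.mk.injEq] at he
      obtain ⟨⟨e1, e2⟩, e3, e4⟩ := he
      have e4' : W (x.1, x.2) = W (y.1, y.2) := e4
      have ht : x.1 = y.1 := by
        have g1 := h1.1
        have g2 := h2.1
        rw [← e3] at g2
        rw [← e4] at g2
        by_cases k1 : ∃ l, S.Kl x.1 (W x) l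
        · by_cases k2 : ∃ l, S.Kl y.1 (W y) l
          · rw [← e4] at k2
            exact ent_kill_unique g1 g2 k1 k2
          · rw [if_pos k1, if_neg k2] at e1
            omega
        · by_cases k2 : ∃ l, S.Kl y.1 (W y) l
          · rw [if_neg k1, if_pos k2] at e1
            omega
          · have n1 : New S x.1 (W x) := by
              rcases a5 with a5 | a5
              · exact absurd a5 k1
              · exact a5
            have n2 : New S y.1 (W x) := by
              rcases b5 with b5 | b5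
              · exact absurd b5 k2
              · rw [e4]
                exact b5
            have b3' : S.R y.1 (W x) := by
              rw [e4]
              exact b3
            have b4' : W x < rr S y.1 := by
              rw [e4]
              exact b4
            exact ent_new_unique hS g1 g2 a3 b3' a4 b4' n1 n2
      refine Prod.ext ht ?_
      rw [← ht] at b1 b2 b3 e2 e4'
      have hlt : ∀ v, S.R x.1 v → v < S.rho x.1 v := fun v hv => R_rho hv
      -- the position determines `q`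
      have c0 : ∀ q', S.R x.1 q' → ∀ w', Pos S x.1 q' w' →
          (w' = S.rho x.1 q' ∧
            (if w' = S.rho x.1 q' then 0 else if w' = S.rho x.1 (S.rho x.1 q') then 1 else 2) = 0) ∨
          (S.R x.1 (S.rho x.1 q') ∧ w' = S.rho x.1 (S.rho x.1 q') ∧
            (if w' = S.rho x.1 q' then 0 else if w' = S.rho x.1 (S.rho x.1 q') then 1 else 2) = 1) ∨
          (S.R x.1 (S.rho x.1 q') ∧ S.R x.1 (S.rho x.1 (S.rho x.1 q')) ∧
            w' = S.rho x.1 (S.rho x.1 (S.rho x.1 q')) ∧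
            (if w' = S.rho x.1 q' then 0 else if w' = S.rho x.1 (S.rho x.1 q') then 1 else 2) =
              2) := by
        intro q' hq' w' hw'
        rcases hw' with h | ⟨h3, h⟩ | ⟨h3, h4, h⟩
        · left
          exact ⟨h, if_pos h⟩
        · right; left
          have := hlt _ h3
          refine ⟨h3, h, ?_⟩
          rw [if_neg (by omega), if_pos h]
        · right; right
          have := hlt _ h3
          have := hlt _ h4
          refine ⟨h3, h4, h, ?_⟩
          rw [if_neg (by omega), if_neg (by omega)]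
      have d1 := c0 _ a1 _ a2
      have d2 := c0 _ b1 _ b2
      have e5 : W x = W (x.1, x.2) := rfl
      have e6 : W y = W (x.1, y.2) := by
        rw [ht]
      rw [e5, e6] at e2
      rcases d1 with ⟨p1, p2⟩ | ⟨p1, p2, p3⟩ | ⟨p1, p2, p3, p4⟩
      · rcases d2 with ⟨r1, r2⟩ | ⟨r1, r2, r3⟩ | ⟨r1, r2, r3, r4⟩
        · exact rho_inj a1 b1 (by rw [← p1, ← r1]; exact e4')
        · omega
        · omega
      · rcases d2 with ⟨r1, r2⟩ | ⟨r1, r2, r3⟩ | ⟨r1, r2, r3, r4⟩
        · omega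
        · exact rho_inj a1 b1 (rho_inj p1 r1 (by rw [← p2, ← r2]; exact e4'))
        · omega
      · rcases d2 with ⟨r1, r2⟩ | ⟨r1, r2, r3⟩ | ⟨r1, r2, r3, r4⟩
        · omega
        · omega
        · exact rho_inj a1 b1 (rho_inj p1 r1 (rho_inj p2 r2 (by rw [← p3, ← r3]; exact e4')))
  unfold Sys.cnt
  rw [Finset.card_product, Finset.card_product, Finset.card_range, Finset.card_range] at h
  exact h

end Pool.Agent.SplNr
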