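import Pool.Agent.SplNr.Lev

set_option autoImplicit false

/-!
# Long gaps near the right wall

`RNp S A t q`: on the path of the request `t` the gap `(q, rho q)` is a constant part (`1 / A`) of the
interval between `q` and the right wall, `q` is not near the left wall, and `rho q` is killed by `q`
or `q` is killed.
-/

namespace Pool.Agent.SplNr

open Pool.Agent.SplLog Pool.Agent.SplLs Pool.Agent.SplDq Pool.Agent.SplTr
open scoped Classical

variable {S : Sys} {A B D f s t u v w z p q g : ℕ} {W : ℕ × ℕ → ℕ}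

/-- long gaps near the right wall -/
def RNp (S : Sys) (A t q : ℕ) : Prop :=
  S.R t q ∧ S.rho t q < rr S t ∧ rr S t - q ≤ A * (S.rho t q - q) ∧
    rr S t - q ≤ A * (q - S.X t) ∧ (S.Kl t (S.rho t q) q ∨ ∃ p, S.Kl t q p)

theorem m_le_top (hS : Spl S) : S.m ≤ S.top := by
  rw [← Finset.card_range S.m, ← Finset.card_range S.top]
  apply Finset.card_le_card_of_injOn S.X
  · intro t ht
    rw [Finset.mem_coe, Finset.mem_range] at ht ⊢
    exact (X_key ht).2
  · intro s hs t ht h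
    rw [Finset.mem_coe, Finset.mem_range] at hs ht
    exact hS.inj s t hs ht h

/-- the level -/
noncomputable def lvR (S : Sys) (t q : ℕ) : ℕ := Nat.log 2 (rr S t - q)

/-- the slot -/
noncomputable def slR (S : Sys) (A t q : ℕ) : ℕ := A * (rr S t - q) / 2 ^ lvR S t q

theorem lvR_bd (h : q < rr S t) : 2 ^ lvR S t q ≤ rr S t - q ∧ rr S t - q < 2 ^ (lvR S t q + 1) := by
  unfold lvR
  exact ⟨Nat.pow_log_le_self 2 (by omega), Nat.lt_pow_succ_log_self (by norm_num) _⟩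

theorem rn_lt (h : RNp S A t q) : q < rr S t := by
  have h1 := R_rho h.1
  have h2 := h.2.1
  omega

theorem slR_lt (h : RNp S A t q) : slR S A t q < 2 * A := by
  have h1 := lvR_bd (rn_lt h)
  have h2 := rn_lt h
  have hA : 0 < A := by
    rcases Nat.eq_zero_or_pos A with h3 | h3
    · have h4 := h.2.2.1
      rw [h3, zero_mul] at h4
      omega
    · exact h3
  unfold slR
  rw [Nat.div_lt_iff_lt_mul (by positivity)]
  calc A * (rr S t - q) < A * 2 ^ (lvR S t q + 1) := Nat.mul_lt_mul_of_pos_left h1.2 hA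
    _ = 2 * A * 2 ^ lvR S t q := by rw [pow_succ]; ring

theorem slR_inj {q' : ℕ} (h : RNp S A t q) (h' : RNp S A t q') (hl : lvR S t q = lvR S t q')
    (hs : slR S A t q = slR S A t q') : q = q' := by
  have key : ∀ a b, RNp S A t a → RNp S A t b → lvR S t a = lvR S t b →
      slR S A t a = slR S A t b → ¬ a < b := by
    intro a b ha hb hl hs hlt
    have h1 := (Sys.R_above ha.1 hb.1 hlt).1
    have h2 := lvR_bd (rn_lt ha)
    have h3 := ha.2.2.1
    have h4 := rn_lt hb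
    unfold slR at hs
    rw [← hl] at hs
    have h5 : A * (S.rho t a - a) ≤ A * (b - a) := Nat.mul_le_mul_left _ (by omega)
    have h6 : A * (rr S t - a) = A * (rr S t - b) + A * (b - a) := by
      rw [← mul_add]
      congr 1
      omega
    have h7 := div_lt_of_gap (D := 2 ^ lvR S t a) (a := A * (rr S t - b))
      (b := A * (rr S t - a)) (by positivity) (by omega)
    omega
  have h1 := key q q' h h' hl hs
  have h2 := key q' q h' h hl.symm hs.symm
  omega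

/-- The event on the right side. -/
def PR (S : Sys) (B f w : ℕ) : Prop :=
  ∃ l, S.Kl f w l ∧ B * (l - S.X f) < rr S f - S.X f ∧ rr S f - S.X f ≤ B * (w - S.X f)

/-- The event on the left side. -/
def PL (S : Sys) (B f w : ℕ) : Prop :=
  Kr S f (S.lam f w) w ∧ B * (S.lam f (S.lam f w) - ll S f) < S.X f - ll S f ∧
    S.X f - ll S f ≤ B * (w - ll S f)

theorem killer_ge {w' l l' : ℕ} (h : S.Kl f w l) (h' : S.Kl f w' l') (hlt : w < w') : w < l' := by
  have h1 := kl_rho h'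
  have h2 := kl_R' h'
  by_contra hc
  rcases Nat.eq_or_lt_of_le (not_lt.1 hc) with h3 | h3
  · rw [h3] at h'
    exact not_kl_of_kl h h'
  · have := (Sys.R_above h2 (kl_R h) h3).1
    omega

theorem PR_count (S : Sys) (B : ℕ) : S.cnt (PR S B) ≤ S.m := by
  apply cnt_le_m
  have key : ∀ f w w', PR S B f w → PR S B f w' → ¬ w < w' := by
    rintro f w w' ⟨l, h1, h2, h3⟩ ⟨l', h1', h2', h3'⟩ hlt
    have h4 := killer_ge h1 h1' hlt
    have h5 : B * (w - S.X f) ≤ B * (l' - S.X f) := Nat.mul_le_mul_left _ (by omega)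
    omega
  intro f w w' h h'
  have h1 := key f w w' h h'
  have h2 := key f w' w h' h
  omega

theorem kr_ge {w' : ℕ} (h : Kr S f (S.lam f w) w) (h' : Kr S f (S.lam f w') w') (hlt : w < w') :
    w ≤ S.lam f (S.lam f w') ∧ w < S.lam f w' := by
  obtain ⟨a1, a2, a3, a4, a5, a6, a7⟩ := kr_facts h
  obtain ⟨b1, b2, b3, b4, b5, b6, b7⟩ := kr_facts h'
  have h1 := (Sys.L_above a1 b1 hlt).1
  have h2 : w ≠ S.lam f w' := by
    intro h3
    have h4 := h'.2.2
    have h5 := h'.2.1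
    rw [← h3] at h4
    omega
  have h3 : w < S.lam f w' := by omega
  exact ⟨(Sys.L_above a1 h'.1 h3).1, h3⟩

theorem PL_count (S : Sys) (B : ℕ) : S.cnt (PL S B) ≤ S.m := by
  apply cnt_le_m
  have key : ∀ f w w', PL S B f w → PL S B f w' → ¬ w < w' := by
    rintro f w w' ⟨h1, h2, h3⟩ ⟨h1', h2', h3'⟩ hlt
    have h4 := (kr_ge h1 h1' hlt).1
    have h5 : B * (w - ll S f) ≤ B * (S.lam f (S.lam f w') - ll S f) :=
      Nat.mul_le_mul_left _ (by omega)
    omega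
  intro f w w' h h'
  have h1 := key f w w' h h'
  have h2 := key f w' w h' h
  omega

/-- The witness of a gap. -/
noncomputable def WR (S : Sys) (x : ℕ × ℕ) : ℕ :=
  if S.Kl x.1 (S.rho x.1 x.2) x.2 then S.rho x.1 x.2 else
    if h : ∃ w, Pos S x.1 x.2 w ∧ S.rho x.1 x.2 ≤ w ∧ S.R x.1 w ∧ w < rr S x.1 ∧
      ((∃ l, S.Kl x.1 w l) ∨ New S x.1 w) then h.choose else 0

theorem WR_spec (hT : ThrU S) (h : S.R t q) (h1 : S.rho t q < rr S t)
    (h2 : S.Kl t (S.rho t q) q ∨ ∃ p, S.Kl t q p) (h3 : ¬ Free S t q) :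
    Pos S t q (WR S (t, q)) ∧ S.rho t q ≤ WR S (t, q) ∧ S.R t (WR S (t, q)) ∧
      WR S (t, q) < rr S t ∧ ((∃ l, S.Kl t (WR S (t, q)) l) ∨ New S t (WR S (t, q))) := by
  unfold WR
  by_cases h4 : S.Kl t (S.rho t q) q
  · rw [if_pos h4]
    exact ⟨Or.inl rfl, le_rfl, kl_R h4, h1, Or.inl ⟨q, h4⟩⟩
  · rw [if_neg h4]
    have h5 : ∃ w, Pos S t q w ∧ S.rho t q ≤ w ∧ S.R t w ∧ w < rr S t ∧
        ((∃ l, S.Kl t w l) ∨ New S t w) := by
      rcases h2 with h2 | ⟨p, h2⟩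
      · exact absurd h2 h4
      · rcases wit hT h2 h1 with h6 | h6 | h6 | h6 | h6
        · exact absurd ⟨h, h1, Or.inl h6⟩ h3
        · exact absurd ⟨h, h1, Or.inr (Or.inl h6)⟩ h3
        · exact absurd ⟨h, h1, Or.inr (Or.inr (Or.inl h6))⟩ h3
        · exact absurd ⟨h, h1, Or.inr (Or.inr (Or.inr h6))⟩ h3
        · exact h6
    rw [dif_pos h5]
    exact h5.choose_spec

/-- The numbers of an item of level at least `A + 4`. -/
theorem rn_num (h : RNp S A t q) (hc : A + 4 ≤ lvR S t q) :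
    q + 16 * 2 ^ (lvR S t q - (A + 4)) ≤ S.rho t q ∧
    S.X t + 16 * 2 ^ (lvR S t q - (A + 4)) ≤ q ∧
    rr S t ≤ q + 2 ^ (A + 5) * 2 ^ (lvR S t q - (A + 4)) ∧
    (A + 2) * 2 ^ (lvR S t q - (A + 4)) ≤ rr S t - q := by
  obtain ⟨h1, h2, h3, h4, -⟩ := h
  have h0 := R_rho h1
  obtain ⟨h5, h6⟩ := lvR_bd (S := S) (t := t) (q := q) (by omega)
  obtain ⟨j, hj⟩ := Nat.exists_eq_add_of_le hc
  rw [hj] at h5 h6 ⊢
  rw [Nat.add_sub_cancel_left]
  have e1 : 2 ^ (A + 4 + j) = 16 * 2 ^ A * 2 ^ j := by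
    rw [pow_add, pow_add]
    ring
  have e2 : 2 ^ (A + 4 + j + 1) = 2 ^ (A + 5) * 2 ^ j := by
    rw [← pow_add]
    congr 1
    ring
  have e3 : A < 2 ^ A := Nat.lt_two_pow_self
  rw [e1] at h5
  rw [e2] at h6
  have hA : 0 < A := by
    rcases Nat.eq_zero_or_pos A with h7 | h7
    · rw [h7, zero_mul] at h3
      omega
    · exact h7
  have e4 : A * (16 * 2 ^ j) ≤ 16 * 2 ^ A * 2 ^ j := by
    calc A * (16 * 2 ^ j) ≤ 2 ^ A * (16 * 2 ^ j) := Nat.mul_le_mul_right _ e3.le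
      _ = _ := by ring
  have e5 : 16 * 2 ^ j ≤ S.rho t q - q := le_of_mul_le_mul_left (by omega) hA
  have e6 : 16 * 2 ^ j ≤ q - S.X t := le_of_mul_le_mul_left (by omega) hA
  have e7 : (A + 2) * 2 ^ j ≤ 16 * 2 ^ A * 2 ^ j := Nat.mul_le_mul_right _ (by omega)
  have e8 : 0 < 2 ^ j := by positivity
  refine ⟨by omega, by omega, by omega, by omega⟩

/-- The short gaps. -/
def RNs (S : Sys) (A t q : ℕ) : Prop :=
  RNp S A t q ∧ A + 4 ≤ lvR S t q ∧ (abv S t q).card ≤ lvR S t q ^ 2 ∧ ¬ Free S t q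

theorem rn_itm (hT : ThrU S) (h : RNs S A t q) :
    Itm S (2 ^ (lvR S t q - (A + 4))) (lvR S t q ^ 2) (WR S) (t, q) := by
  obtain ⟨h1, h2, h3, h4⟩ := h
  obtain ⟨a1, a2, a3, a4⟩ := rn_num h1 h2
  obtain ⟨b1, b2, b3, b4, b5⟩ := WR_spec hT h1.1 h1.2.1 h1.2.2.2.2 h4
  exact ⟨h1.1, by show S.X t + _ ≤ q; omega, by show q + _ ≤ S.rho t q; omega, h1.2.1, b2, b3, b4,
    b5, h3⟩

theorem rn_event (h : RNs S A t q) (hq : q ≤ w) {s : ℕ}
    (hW : Win S (2 ^ (lvR S t q - (A + 4))) s t) (hC : EnC S s t w f) :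
    PR S (A + 2) f w ∨ PL S (A + 2) f w := by
  obtain ⟨h1, h2, -, -⟩ := h
  obtain ⟨a1, a2, a3, a4⟩ := rn_num h1 h2
  have h5 := h1.2.2.2.1
  have h6 := rn_lt h1
  have g1 := hW.x1
  have g2 := hW.x2
  have g3 := hW.r1
  have g4 := hW.r2
  obtain ⟨E, hE⟩ : ∃ E, E = 2 ^ (lvR S t q - (A + 4)) := ⟨_, rfl⟩
  rw [← hE] at a1 a2 a3 a4 g2 g4
  have e1 : (A + 2) * (q - S.X t) = A * (q - S.X t) + 2 * (q - S.X t) := by ring
  have hE0 : 0 < E := by rw [hE]; positivity
  rcases hC with ⟨⟨l, c1, c2⟩, c3, c4, c5, c6⟩ | ⟨⟨c1, c2, c3⟩, c4, c5, c6, c7, c8⟩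
  · left
    refine ⟨l, c1, ?_, ?_⟩
    · have e2 : (A + 2) * (l - S.X f) < (A + 2) * E := Nat.mul_lt_mul_of_pos_left (by omega) (by omega)
      omega
    · have e2 : (A + 2) * (q - S.X t) ≤ (A + 2) * (w - S.X f) := Nat.mul_le_mul_left _ (by omega)
      omega
  · right
    refine ⟨c1, ?_, ?_⟩
    · have e2 : (A + 2) * (S.lam f (S.lam f w) - ll S f) < (A + 2) * E :=
        Nat.mul_lt_mul_of_pos_left (by omega) (by omega)
      omega
    · have e2 : (A + 2) * (q - S.X t) ≤ (A + 2) * (w - ll S f) := Nat.mul_le_mul_left _ (by omega)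
      omega

theorem rns_count (hS : Spl S) (hT : ThrU S) (A : ℕ) :
    S.cnt (RNs S A) ≤ 128 * (2 ^ (A + 5) + 1) * (1 + (A + 4) ^ 2) * S.top + 12 * S.m := by
  have h1 := lev_engine (W := WR S) hS (A + 4) (2 ^ (A + 5)) (RNs S A) (lvR S)
    (by
      intro t q h
      refine ⟨h.2.1, ?_⟩
      have h2 := lvR_bd (rn_lt h.1)
      have h3 := rr_le_top h.1.1.1
      omega)
    (fun t q h => rn_itm hT h)
    (fun t q h => Or.inl (rn_num h.1 h.2.1).2.2.1)
  have h2 := ev_count (S := S) (W := WR S) hS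
    (fun t q => RNs S A t q ∧ Enx S (2 ^ (lvR S t q - (A + 4))) (WR S) (t, q))
    (fun f w => PR S (A + 2) f w ∨ PL S (A + 2) f w)
    (by
      rintro t q ⟨h3, s, f, h4, h5, h6⟩
      obtain ⟨b1, b2, b3, b4, b5⟩ := WR_spec hT h3.1.1 h3.1.2.1 h3.1.2.2.2.2 h3.2.2.2
      refine ⟨h3.1.1, b1, b3, b4, b5, s, f, h5, rn_event h3 ?_ h4 h6⟩
      have := R_rho h3.1.1
      omega)
  have h3 := cnt_or (S := S) (PR S (A + 2)) (PL S (A + 2))
  have h4 := PR_count S (A + 2)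
  have h5 := PL_count S (A + 2)
  omega

/-- **Long gaps near the right wall.** -/
theorem rn (A k : ℕ) : ∃ C, ∀ S : Sys, Spl S → ThrU S →
    k * S.cnt (RNp S A) ≤ tch S + C * (S.top + irr S) := by
  refine ⟨k * ((A + 4) * (2 * A)) + ((k * (2 * A)) ^ 2 + k * (2 * A)) + k * 2 +
    k * (128 * (2 ^ (A + 5) + 1) * (1 + (A + 4) ^ 2) + 12), ?_⟩
  intro S hS hT
  have hm := m_le_top hS
  have h1 : S.cnt (RNp S A) ≤ S.cnt (fun t q => (RNp S A t q ∧ lvR S t q < A + 4) ∨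
      ((RNp S A t q ∧ lvR S t q ^ 2 < (abv S t q).card) ∨ (Free S t q ∨ RNs S A t q))) := by
    apply cnt_mono
    intro t q _ _ h
    by_cases c1 : lvR S t q < A + 4
    · exact Or.inl ⟨h, c1⟩
    by_cases c2 : lvR S t q ^ 2 < (abv S t q).card
    · exact Or.inr (Or.inl ⟨h, c2⟩)
    by_cases c3 : Free S t q
    · exact Or.inr (Or.inr (Or.inl c3))
    · exact Or.inr (Or.inr (Or.inr ⟨h, by omega, by omega, c3⟩))
  have h2 := cnt_or (S := S) (fun t q => RNp S A t q ∧ lvR S t q < A + 4)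
    (fun t q => (RNp S A t q ∧ lvR S t q ^ 2 < (abv S t q).card) ∨ (Free S t q ∨ RNs S A t q))
  have h3 := cnt_or (S := S) (fun t q => RNp S A t q ∧ lvR S t q ^ 2 < (abv S t q).card)
    (fun t q => Free S t q ∨ RNs S A t q)
  have h4 := cnt_or (S := S) (Free S) (RNs S A)
  have h5 : S.cnt (fun t q => RNp S A t q ∧ lvR S t q < A + 4) ≤ (A + 4) * (2 * A) * S.m :=
    small_count _ (lvR S) (slR S A) (2 * A) (A + 4) (fun t q h => slR_lt h.1)
      (fun t q q' h h' h1 h2 => slR_inj h.1 h'.1 h1 h2) (fun t q h => h.2)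
  have h6 := long_count (S := S) (fun t q => RNp S A t q ∧ lvR S t q ^ 2 < (abv S t q).card)
    (lvR S) (slR S A) (2 * A) k (fun t q h => slR_lt h.1)
      (fun t q q' h h' h1 h2 => slR_inj h.1 h'.1 h1 h2) (fun t q h => h.2)
  have h7 := free_count hS
  have h8 := rns_count hS hT A
  set c1 := S.cnt (fun t q => RNp S A t q ∧ lvR S t q < A + 4)
  set c2 := S.cnt (fun t q => RNp S A t q ∧ lvR S t q ^ 2 < (abv S t q).card)
  set c3 := S.cnt (Free S)
  set c4 := S.cnt (RNs S A)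
  have h9 : S.cnt (RNp S A) ≤ c1 + (c2 + (c3 + c4)) := by omega
  have g1 : c1 ≤ (A + 4) * (2 * A) * (S.top + irr S) :=
    h5.trans (Nat.mul_le_mul_left _ (by omega))
  have g3 : c3 ≤ 2 * (S.top + irr S) := by omega
  have g4 : c4 ≤ (128 * (2 ^ (A + 5) + 1) * (1 + (A + 4) ^ 2) + 12) * (S.top + irr S) := by
    calc c4 ≤ 128 * (2 ^ (A + 5) + 1) * (1 + (A + 4) ^ 2) * S.top + 12 * S.m := h8
      _ ≤ 128 * (2 ^ (A + 5) + 1) * (1 + (A + 4) ^ 2) * (S.top + irr S) +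
          12 * (S.top + irr S) := by
          apply Nat.add_le_add
          · exact Nat.mul_le_mul_left _ (by omega)
          · exact Nat.mul_le_mul_left _ (by omega)
      _ = _ := by ring
  have g2 : k * c2 ≤ tch S + ((k * (2 * A)) ^ 2 + k * (2 * A)) * (S.top + irr S) :=
    h6.trans (Nat.add_le_add_left (Nat.mul_le_mul_left _ (by omega)) _)
  calc k * S.cnt (RNp S A) ≤ k * (c1 + (c2 + (c3 + c4))) := Nat.mul_le_mul_left _ h9
    _ = k * c1 + k * c2 + k * c3 + k * c4 := by ring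
    _ ≤ k * ((A + 4) * (2 * A) * (S.top + irr S)) +
        (tch S + ((k * (2 * A)) ^ 2 + k * (2 * A)) * (S.top + irr S)) +
        k * (2 * (S.top + irr S)) +
        k * ((128 * (2 ^ (A + 5) + 1) * (1 + (A + 4) ^ 2) + 12) * (S.top + irr S)) := by
        apply Nat.add_le_add
        · apply Nat.add_le_add
          · exact Nat.add_le_add (Nat.mul_le_mul_left _ g1) g2
          · exact Nat.mul_le_mul_left _ g3
        · exact Nat.mul_le_mul_left _ g4
    _ = _ := by ring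

end Pool.Agent.SplNr
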