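import Pool.Agent.SplNr.LB

set_option autoImplicit false

/-!
# The near kills: reduction to kills with a long lower gap near the left wall
-/

namespace Pool.Agent.SplNr

open Pool.Agent.SplLog Pool.Agent.SplLs Pool.Agent.SplDq Pool.Agent.SplTr
open scoped Classical

variable {S : Sys} {A B D M f s t u v w z p q g : ℕ}

/-- The kills with a long lower gap near the left wall are few. -/
def NALe : Prop := ∀ e k : ℕ, ∃ C : ℕ, ∀ S : Sys, Spl S →
  k * S.cnt (fun t g => ∃ p, S.Kl t g p ∧ p - S.X t < 2 ^ e * (g - p)) ≤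
    tch S + C * (S.top + irr S)

theorem ni_cases (hS : Spl S) (h : NI S M t g) :
    Hi S t g ∨ ((S.E t g ∧ Seen S t g) ∨
      ((∃ p, S.Kl t g p ∧ p - S.X t < 2 ^ M * (g - p)) ∨
      (LBq S (2 * M) t g ∨ RNp S (M + 1) t g))) := by
  obtain ⟨p, h1, h2⟩ := h
  have htm := h1.1.1
  rw [← rr_eq htm] at h2
  by_cases c1 : rr S t ≤ g
  · right; left
    exact ⟨Sys.R_E h1.1, seen_of_R hS h1.1 c1⟩
  push Not at c1
  by_cases c2 : rr S t ≤ S.rho t g
  · left
    exact ⟨h1.1, c1, c2⟩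
  push Not at c2
  right; right
  have k1 := h1.2.1
  have k2 := kl_lt h1
  have k3 := R_rho h1.1
  by_cases c3 : p - S.X t < M * (g - p)
  · left
    refine ⟨p, h1, lt_of_lt_of_le c3 (Nat.mul_le_mul_right _ ?_)⟩
    exact (Nat.lt_two_pow_self).le
  right
  have hM : 0 < M := by
    rcases Nat.eq_zero_or_pos M with h3 | h3
    · exfalso
      rw [h3, zero_mul, zero_mul] at h2
      omega
    · exact h3
  have e1 : 1 * (g - p) ≤ M * (g - p) := Nat.mul_le_mul_right _ hM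
  have e2 : 1 * (S.rho t g - g) ≤ M * (S.rho t g - g) := Nat.mul_le_mul_right _ hM
  by_cases c4 : p - S.X t < M * (S.rho t g - g)
  · left
    refine ⟨p, h1, c2, by omega, ?_⟩
    have e3 : 2 * M * (S.rho t g - g) = 2 * (M * (S.rho t g - g)) := by ring
    omega
  · right
    have c5 : rr S t - S.rho t g < M * (S.rho t g - g) := by
      rcases h2 with h2 | h2 | h2
      · exact absurd h2 c3
      · exact absurd h2 c4
      · exact h2
    have e3 : (M + 1) * (S.rho t g - g) = M * (S.rho t g - g) + (S.rho t g - g) := by ring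
    have e4 : 2 * (g - S.X t) ≤ (M + 1) * (g - S.X t) := Nat.mul_le_mul_right _ (by omega)
    exact ⟨h1.1, c2, by omega, by omega, Or.inr ⟨p, h1⟩⟩

theorem ni_count (hS : Spl S) (M : ℕ) :
    S.cnt (NI S M) ≤ S.m + (irr S +
      (S.cnt (fun t g => ∃ p, S.Kl t g p ∧ p - S.X t < 2 ^ M * (g - p)) +
      (S.cnt (LBq S (2 * M)) + S.cnt (RNp S (M + 1))))) := by
  have h0 : S.cnt (NI S M) ≤ S.cnt (fun t g => Hi S t g ∨ ((S.E t g ∧ Seen S t g) ∨
      ((∃ p, S.Kl t g p ∧ p - S.X t < 2 ^ M * (g - p)) ∨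
      (LBq S (2 * M) t g ∨ RNp S (M + 1) t g)))) :=
    cnt_mono (fun t g _ _ h => ni_cases hS h)
  have h1 := cnt_or (S := S) (fun t g => Hi S t g) (fun t g => (S.E t g ∧ Seen S t g) ∨
      ((∃ p, S.Kl t g p ∧ p - S.X t < 2 ^ M * (g - p)) ∨
      (LBq S (2 * M) t g ∨ RNp S (M + 1) t g)))
  have h2 := cnt_or (S := S) (fun t g => S.E t g ∧ Seen S t g) (fun t g =>
      (∃ p, S.Kl t g p ∧ p - S.X t < 2 ^ M * (g - p)) ∨
      (LBq S (2 * M) t g ∨ RNp S (M + 1) t g))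
  have h3 := cnt_or (S := S) (fun t g => ∃ p, S.Kl t g p ∧ p - S.X t < 2 ^ M * (g - p))
    (fun t g => LBq S (2 * M) t g ∨ RNp S (M + 1) t g)
  have h4 := cnt_or (S := S) (LBq S (2 * M)) (RNp S (M + 1))
  have h5 : S.cnt (fun t g => Hi S t g) ≤ S.m :=
    cnt_le_m (fun t w z h h' => hi_unique h h')
  have h6 : S.cnt (fun t g => S.E t g ∧ Seen S t g) = irr S := rfl
  omega

/-- **The near kills.** -/
theorem near_of (h : NALe) : NearLe := by
  intro M k
  obtain ⟨C1, hC1⟩ := h M (21 * k)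
  obtain ⟨C2, hC2⟩ := h 0 (21 * k)
  obtain ⟨C3, hC3⟩ := rn (M + 1) (21 * k)
  obtain ⟨C4, hC4⟩ := rn 4 (21 * k)
  obtain ⟨C5, hC5⟩ := lb (2 * M) (21 * k)
  refine ⟨21 * k + 21 * k + C1 + 6 * C2 + C3 + 12 * C4 + C5, ?_⟩
  intro S hG
  have hS := hG.spl
  have hS' := spl_mir' hS
  have h1 := hC1 S hS
  have h2 := hC2 S hS
  have h3 := hC3 S hS hG.thr
  have h4 := hC4 S.mir hS' hG.thr'
  have h5 := hC5 S hS hG.thr
  have h6 := ni_count hS M
  have hm := m_le_top hS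
  rw [tch_mir, irr_mir] at h4
  have e0 : S.mir.top = S.top := rfl
  rw [e0] at h4
  have e1 : S.cnt (fun t g => ∃ p, S.Kl t g p ∧ p - S.X t < 2 ^ 0 * (g - p)) =
      S.cnt (NA S 1) := rfl
  rw [e1] at h2
  set n1 := S.cnt (fun t g => ∃ p, S.Kl t g p ∧ p - S.X t < 2 ^ M * (g - p))
  set n2 := S.cnt (NA S 1)
  set n3 := S.cnt (RNp S (M + 1))
  set n4 := S.mir.cnt (RNp S.mir 4)
  set n5 := S.cnt (LBq S (2 * M))
  set N := S.cnt (NI S M)
  set T := tch S
  set Y := S.top + irr S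
  have g5 : 21 * k * n5 ≤ 6 * (T + C2 * Y) + 12 * (T + C4 * Y) + T + C5 * Y := by
    calc 21 * k * n5 ≤ 21 * k * (6 * n2 + 12 * n4) + T + C5 * Y := h5
      _ = 6 * (21 * k * n2) + 12 * (21 * k * n4) + T + C5 * Y := by ring
      _ ≤ _ := by
        have := Nat.mul_le_mul_left 6 h2
        have := Nat.mul_le_mul_left 12 h4
        omega
  have g6 : 21 * k * N ≤ 21 * k * S.m + 21 * k * irr S + (21 * k * n1 + (21 * k * n5 +
      21 * k * n3)) := by
    calc 21 * k * N ≤ 21 * k * (S.m + (irr S + (n1 + (n5 + n3)))) := Nat.mul_le_mul_left _ h6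
      _ = _ := by ring
  have g7 : 21 * k * S.m ≤ 21 * k * Y := Nat.mul_le_mul_left _ (by omega)
  have g8 : 21 * k * irr S ≤ 21 * k * Y := Nat.mul_le_mul_left _ (by omega)
  have g9 : 21 * (k * N) ≤ 21 * T + (21 * k + 21 * k + C1 + 6 * C2 + C3 + 12 * C4 + C5) * Y := by
    have r1 : 21 * (k * N) = 21 * k * N := by ring
    have r2 : (21 * k + 21 * k + C1 + 6 * C2 + C3 + 12 * C4 + C5) * Y =
      21 * k * Y + 21 * k * Y + C1 * Y + 6 * (C2 * Y) + C3 * Y + 12 * (C4 * Y) + C5 * Y := by ring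
    rw [r1, r2]
    omega
  omega

end Pool.Agent.SplNr
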