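import Pool.Agent.SplTr.MirG

set_option autoImplicit false

/-!
# The walls of the zone of a request

`rr S t` is the smallest key above the request `X t` which was requested before (or `top`), `ll S t`
the largest such key below the request (or `0`).
-/

namespace Pool.Agent.SplNr

open Pool.Agent.SplLog Pool.Agent.SplLs Pool.Agent.SplDq Pool.Agent.SplTr
open scoped Classical

variable {S : Sys} {s t u v w z p q g : ℕ}

/-- the right wall -/
noncomputable def rr (S : Sys) (t : ℕ) : ℕ := sInf {w | S.X t < w ∧ (w = S.top ∨ Seen S t w)}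

/-- the left wall -/
noncomputable def ll (S : Sys) (t : ℕ) : ℕ :=
  ((Finset.range t).filter (fun s => s < S.m ∧ S.X s < S.X t)).sup S.X

theorem X_key (ht : t < S.m) : 0 < S.X t ∧ S.X t < S.top := S.key _ (S.req t ht)

theorem rr_mem (ht : t < S.m) : S.X t < rr S t ∧ (rr S t = S.top ∨ Seen S t (rr S t)) := by
  have h : rr S t ∈ {w | S.X t < w ∧ (w = S.top ∨ Seen S t w)} :=
    Nat.sInf_mem ⟨S.top, (X_key ht).2, Or.inl rfl⟩
  exact h

theorem rr_gt (ht : t < S.m) : S.X t < rr S t := (rr_mem ht).1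

theorem rr_seen (ht : t < S.m) : rr S t = S.top ∨ Seen S t (rr S t) := (rr_mem ht).2

theorem rr_le_top (ht : t < S.m) : rr S t ≤ S.top := Nat.sInf_le ⟨(X_key ht).2, Or.inl rfl⟩

theorem rr_le (h : Seen S t v) (hv : S.X t < v) : rr S t ≤ v := Nat.sInf_le ⟨hv, Or.inr h⟩

theorem seen_key (h : Seen S s v) : v ∈ S.K := by
  obtain ⟨a, h1, h2, h3⟩ := h
  rw [← h3]
  exact S.req a h2

theorem seen_X (hst : s < t) (ht : t < S.m) : Seen S t (S.X s) := ⟨s, hst, by omega, rfl⟩

theorem not_seen_X (hS : Spl S) (hts : t < S.m) (hst : s ≤ t) : ¬ Seen S s (S.X t) := by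
  rintro ⟨a, h1, h2, h3⟩
  have := hS.inj a t h2 hts h3
  omega

theorem ll_mem (S : Sys) (t : ℕ) : ll S t = 0 ∨ (Seen S t (ll S t) ∧ ll S t < S.X t) := by
  rcases ((Finset.range t).filter (fun s => s < S.m ∧ S.X s < S.X t)).eq_empty_or_nonempty with h | h
  · left
    unfold ll
    rw [h]
    rfl
  · right
    obtain ⟨a, h1, h2⟩ := Finset.exists_mem_eq_sup _ h S.X
    rw [Finset.mem_filter, Finset.mem_range] at h1
    have h3 : ll S t = S.X a := h2
    rw [h3]
    exact ⟨⟨a, h1.1, h1.2.1, rfl⟩, h1.2.2⟩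

theorem ll_lt (ht : t < S.m) : ll S t < S.X t := by
  have h1 := X_key ht
  rcases ll_mem S t with h | h
  · omega
  · exact h.2

theorem ll_seen (h : 0 < ll S t) : Seen S t (ll S t) := by
  rcases ll_mem S t with h1 | h1
  · omega
  · exact h1.1

theorem le_ll (h : Seen S t v) (hv : v < S.X t) : v ≤ ll S t := by
  obtain ⟨a, h1, h2, h3⟩ := h
  rw [← h3]
  rw [← h3] at hv
  exact Finset.le_sup (f := S.X) (Finset.mem_filter.2 ⟨Finset.mem_range.2 h1, h2, hv⟩)

theorem not_seen_of (h1 : S.X t < v) (h2 : v < rr S t) : ¬ Seen S t v := by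
  intro h
  have := rr_le h h1
  omega

theorem not_seen_of' (h1 : v < S.X t) (h2 : ll S t < v) : ¬ Seen S t v := by
  intro h
  have := le_ll h h1
  omega

/-- No key seen before lies strictly between the request and a touched unseen key. -/
theorem loc_E (hS : Spl S) (hE : S.E t v) (hv : ¬ Seen S t v) (hz : Seen S t z) :
    ¬ (S.X t < z ∧ z < v) ∧ ¬ (v < z ∧ z < S.X t) := by
  obtain ⟨a, h1, h2, h3⟩ := hz
  rcases hS.loc t v hE with h | h
  · exact absurd h hv
  · rw [← h3]
    exact h a h1

theorem loc_R (hS : Spl S) (hE : S.R t v) (hv : ¬ Seen S t v) : v < rr S t := by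
  have h1 := hE.2.2.1
  rcases rr_mem hE.1 with ⟨h2, h3 | h3⟩
  · rw [h3]
    exact (S.key v hE.2.1).2
  · have h4 := loc_E hS (Sys.R_E hE) hv h3
    by_contra hc
    rcases Nat.eq_or_lt_of_le (not_lt.1 hc) with h5 | h5
    · rw [h5] at h3
      exact hv h3
    · exact h4.1 ⟨h2, h5⟩

theorem loc_L (hS : Spl S) (hE : S.L t v) (hv : ¬ Seen S t v) : ll S t < v := by
  have h1 := (S.key v hE.2.1).1
  by_contra hc
  have h3 := ll_seen (S := S) (t := t) (by omega)
  have h2 := ll_lt hE.1
  have h4 := loc_E hS (Sys.L_E hE) hv h3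
  rcases Nat.eq_or_lt_of_le (not_lt.1 hc) with h5 | h5
  · rw [← h5] at h3
    exact hv h3
  · exact h4.2 ⟨h5, h2⟩

/-- A touched key below the left wall was seen before. -/
theorem seen_of_L (hS : Spl S) (hE : S.L t v) (hv : v ≤ ll S t) : Seen S t v := by
  by_contra h
  have := loc_L hS hE h
  omega

theorem seen_of_R (hS : Spl S) (hE : S.R t v) (hv : rr S t ≤ v) : Seen S t v := by
  by_contra h
  have := loc_R hS hE h
  omega

/-- Seen keys in the mirror. -/
theorem mir_seen (_ht : t ≤ S.m) (hv : v < S.top) :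
    Seen S.mir t (S.top - v) ↔ Seen S t v := by
  constructor
  · rintro ⟨a, h1, h2, h3⟩
    change a < S.m at h2
    change S.top - S.X a = S.top - v at h3
    have h4 := X_key h2
    exact ⟨a, h1, h2, by omega⟩
  · rintro ⟨a, h1, h2, h3⟩
    refine ⟨a, h1, h2, ?_⟩
    show S.top - S.X a = S.top - v
    rw [h3]

theorem mir_rr (ht : t < S.m) : rr S.mir t = S.top - ll S t := by
  have hX := X_key ht
  have h1 := ll_lt ht
  apply le_antisymm
  · apply Nat.sInf_le
    refine ⟨?_, ?_⟩
    · show S.top - S.X t < _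
      omega
    · rcases ll_mem S t with h | h
      · left
        rw [h]
        rfl
      · right
        rw [mir_seen ht.le (by omega)]
        exact h.1
  · obtain ⟨h2, h3⟩ := rr_mem (S := S.mir) (t := t) ht
    change S.top - S.X t < _ at h2
    rcases h3 with h3 | h3
    · rw [h3]
      show S.top - ll S t ≤ S.top
      omega
    · obtain ⟨a, h4, h5, h6⟩ := h3
      change a < S.m at h5
      change S.top - S.X a = _ at h6
      rw [← h6] at h2 ⊢
      have h7 := X_key h5
      have h8 : S.X a ≤ ll S t := le_ll ⟨a, h4, h5, rfl⟩ (by omega)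
      omega

theorem mir_ll (ht : t < S.m) : ll S.mir t = S.top - rr S t := by
  have hX := X_key ht
  have h1 := rr_gt ht
  have h0 := rr_le_top ht
  apply le_antisymm
  · rcases ll_mem S.mir t with h | ⟨⟨a, h4, h5, h6⟩, h7⟩
    · rw [h]
      omega
    · change a < S.m at h5
      change S.top - S.X a = _ at h6
      change _ < S.top - S.X t at h7
      rw [← h6] at h7 ⊢
      have h8 := X_key h5
      have h9 : rr S t ≤ S.X a := rr_le ⟨a, h4, h5, rfl⟩ (by omega)
      omega
  · rcases rr_seen ht with h | h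
    · rw [h, Nat.sub_self]
      omega
    · have h2 := (S.key _ (seen_key h)).2
      apply le_ll
      · rw [mir_seen ht.le h2]
        exact h
      · show _ < S.top - S.X t
        omega

/-- `rr` is the right wall of the interface. -/
theorem rr_eq (ht : t < S.m) : rr S t = SplTr.rw S t := by
  unfold rr SplTr.rw zr
  have h1 := X_key ht
  apply congrArg
  ext w
  constructor
  · rintro ⟨h2, h3 | h3⟩
    · exact Or.inl h3
    · exact Or.inr ⟨h3, h2⟩
  · rintro (h2 | ⟨h2, h3⟩)
    · exact ⟨by omega, Or.inl h2⟩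
    · exact ⟨h3, Or.inr h2⟩

end Pool.Agent.SplNr
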