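import Pool.Agent.SplNr.Wal

set_option autoImplicit false

/-!
# Windows

Two requests lie in the same window of width `D` if the requests and their right walls lie in the
same cells of length `D`.
-/

namespace Pool.Agent.SplNr

open Pool.Agent.SplLog Pool.Agent.SplLs Pool.Agent.SplDq Pool.Agent.SplTr
open scoped Classical

variable {S : Sys} {D s t u v w z p q g : ℕ}

/-- The requests `s < t` lie in one window. -/
structure Win (S : Sys) (D s t : ℕ) : Prop where
  lt : s < t
  ht : t < S.m
  x1 : S.X s < S.X t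
  x2 : S.X t < S.X s + D
  r1 : rr S t ≤ rr S s
  r2 : rr S s < rr S t + D

theorem div_lt_of_eq {a b D : ℕ} (hD : 0 < D) (h : a / D = b / D) : a < b + D := by
  have h1 := Nat.div_add_mod a D
  have h2 := Nat.div_add_mod b D
  have h3 := Nat.mod_lt a hD
  rw [h] at h1
  omega

theorem div_lt_of_gap {a b D : ℕ} (hD : 0 < D) (h : a + D ≤ b) : a / D < b / D := by
  have h1 : (a + D) / D = a / D + 1 := Nat.add_div_right a hD
  have h2 : (a + D) / D ≤ b / D := Nat.div_le_div_right h
  omega

theorem win_of (hS : Spl S) (hD : 0 < D) (hst : s < t) (ht : t < S.m)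
    (eX : S.X s / D = S.X t / D) (eR : rr S s / D = rr S t / D)
    (hg : S.X s + 2 * D ≤ rr S s) : Win S D s t := by
  have h1 := div_lt_of_eq hD eX
  have h2 := div_lt_of_eq hD eX.symm
  have h3 := div_lt_of_eq hD eR
  have hX : S.X s < S.X t := by
    rcases Nat.lt_trichotomy (S.X s) (S.X t) with h | h | h
    · exact h
    · have := hS.inj s t (by omega) ht h
      omega
    · exfalso
      have h4 := rr_le (seen_X hst ht) h
      have h5 : rr S t / D ≤ S.X s / D := Nat.div_le_div_right h4
      have h6 := div_lt_of_gap (a := S.X s) (b := rr S s) hD (by omega)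
      omega
  refine ⟨hst, ht, hX, h2, ?_, h3⟩
  rcases rr_seen (S := S) (t := s) (by omega) with h | h
  · rw [h]
    exact rr_le_top ht
  · exact rr_le (seen_mono h hst.le) (by omega)

/-- The touches of the keys of the last zone of a window. -/
theorem touch_in (hS : Spl S) (h : Win S D s t) (h1 : S.X t < v) (h2 : v < rr S t)
    (hu1 : s ≤ u) (hu2 : u < t) (hE : S.E u v) :
    (S.R u v ∧ S.X s ≤ S.X u ∧ S.X u < S.X t ∧ rr S t ≤ rr S u ∧ rr S u ≤ rr S s) ∨
      (S.L u v ∧ s < u ∧ rr S t ≤ S.X u ∧ S.X u < rr S s ∧ S.X s ≤ ll S u ∧ ll S u ≤ S.X t) := by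
  have hx1 := h.x1
  have hr1 := h.r1
  have htm := h.ht
  have hum : u < S.m := by omega
  have hvt : ¬ Seen S t v := not_seen_of h1 h2
  have hvu : ¬ Seen S u v := fun h3 => hvt (seen_mono h3 hu2.le)
  have hloc : ∀ z, Seen S u z → ¬ (S.X u < z ∧ z < v) ∧ ¬ (v < z ∧ z < S.X u) :=
    fun z hz => loc_E hS hE hvu hz
  have hne : S.X u ≠ S.X t := by
    intro h3
    have := hS.inj u t hum htm h3
    omega
  have hXu : Seen S t (S.X u) := seen_X hu2 htm
  rcases hE with hR | hL | hA
  · left
    have h3 := hR.2.2.1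
    have h4 : S.X u < S.X t := by
      by_contra hc
      have := rr_le hXu (by omega)
      omega
    rcases Nat.eq_or_lt_of_le hu1 with h5 | h5
    · subst h5
      exact ⟨hR, le_rfl, hx1, hr1, le_rfl⟩
    have h6 : S.X s ≤ S.X u := by
      by_contra hc
      exact (hloc _ (seen_X h5 hum)).1 ⟨by omega, by omega⟩
    refine ⟨hR, h6, h4, ?_, ?_⟩
    · rcases rr_mem hum with ⟨h7, h8 | h8⟩
      · rw [h8]
        exact rr_le_top htm
      · apply rr_le (seen_mono h8 hu2.le)
        by_contra hc
        exact (hloc _ h8).1 ⟨h7, by omega⟩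
    · rcases rr_seen (S := S) (t := s) (by omega) with h7 | h7
      · rw [h7]
        exact rr_le_top hum
      · exact rr_le (seen_mono h7 h5.le) (by omega)
  · right
    have h3 := hL.2.2.1
    have h4 : rr S t ≤ S.X u := rr_le hXu (by omega)
    have h5 : s < u := by
      rcases Nat.eq_or_lt_of_le hu1 with h5 | h5
      · subst h5
        omega
      · exact h5
    have h6 : S.X u < rr S s := by
      rcases rr_seen (S := S) (t := s) (by omega) with h7 | h7
      · rw [h7]
        exact (X_key hum).2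
      · by_contra hc
        rcases Nat.eq_or_lt_of_le (not_lt.1 hc) with h8 | h8
        · exact not_seen_X hS hum h5.le (by rw [← h8]; exact h7)
        · exact (hloc _ (seen_mono h7 h5.le)).2 ⟨by omega, h8⟩
    refine ⟨hL, h5, h4, h6, le_ll (seen_X h5 hum) (by omega), ?_⟩
    by_contra hc
    have h7 := ll_seen (S := S) (t := u) (by omega)
    have h8 := ll_lt hum
    have h9 := rr_le (seen_mono h7 hu2.le) (by omega : S.X t < ll S u)
    exact (hloc _ h7).2 ⟨by omega, h8⟩
  · exfalso
    rw [hA.2.2] at hvt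
    exact hvt hXu

theorem no_cross (hS : Spl S) (hs : s < S.m) (ht : t < S.m) :
    ¬ (S.X s < S.X t ∧ S.X t < rr S s ∧ rr S s < rr S t) := by
  rintro ⟨h1, h2, h3⟩
  rcases Nat.lt_trichotomy s t with h | h | h
  · rcases rr_seen hs with h4 | h4
    · have := rr_le_top ht
      omega
    · have := rr_le (seen_mono h4 h.le) h2
      omega
  · subst h
    omega
  · have := rr_le (seen_X h hs) h1
    omega

/-- The number of windows. -/
theorem windows (hS : Spl S) (hD : 0 < D) (A : Finset ℕ)
    (hA : ∀ t ∈ A, t < S.m ∧ S.X t + 2 * D ≤ rr S t) :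
    (A.image (fun t => (S.X t / D, rr S t / D))).card ≤ 2 * (S.top / D + 1) := by
  set P := A.image (fun t => (S.X t / D, rr S t / D)) with hP
  have hmem : ∀ x ∈ P, ∃ t ∈ A, S.X t / D = x.1 ∧ rr S t / D = x.2 := by
    intro x hx
    rw [hP, Finset.mem_image] at hx
    obtain ⟨t, ht, rfl⟩ := hx
    exact ⟨t, ht, rfl, rfl⟩
  have h1 : (P.filter (fun x => ∀ y ∈ P, y.1 = x.1 → y.2 ≤ x.2)).card ≤ S.top / D + 1 := by
    rw [← Finset.card_range (S.top / D + 1)]
    apply Finset.card_le_card_of_injOn Prod.fst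
    · intro x hx
      obtain ⟨t, h1, h2, h3⟩ := hmem x (Finset.mem_filter.1 hx).1
      rw [Finset.mem_coe, Finset.mem_range, ← h2]
      have h4 := (X_key (hA t h1).1).2
      have : S.X t / D ≤ S.top / D := Nat.div_le_div_right h4.le
      omega
    · intro x hx y hy hxy
      rw [Finset.mem_coe, Finset.mem_filter] at hx hy
      have h2 := hx.2 y hy.1 hxy.symm
      have h3 := hy.2 x hx.1 hxy
      exact Prod.ext hxy (by omega)
  have h2 : (P.filter (fun x => ¬ ∀ y ∈ P, y.1 = x.1 → y.2 ≤ x.2)).card ≤ S.top / D + 1 := by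
    rw [← Finset.card_range (S.top / D + 1)]
    apply Finset.card_le_card_of_injOn Prod.snd
    · intro x hx
      obtain ⟨t, h1, h2, h3⟩ := hmem x (Finset.mem_filter.1 hx).1
      rw [Finset.mem_coe, Finset.mem_range, ← h3]
      have h4 := rr_le_top (hA t h1).1
      have : rr S t / D ≤ S.top / D := Nat.div_le_div_right h4
      omega
    · have key : ∀ x ∈ P, ∀ y ∈ P, (∃ y' ∈ P, y'.1 = y.1 ∧ y.2 < y'.2) → x.2 = y.2 →
          ¬ x.1 < y.1 := by
        intro x hx y hy hy2 hxy hlt
        obtain ⟨y', hy', e1, e2⟩ := hy2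
        obtain ⟨a, a1, a2, a3⟩ := hmem x hx
        obtain ⟨b, b1, b2, b3⟩ := hmem y' hy'
        obtain ⟨c, c1, c2, c3⟩ := hmem y hy
        have d1 := div_lt_of_gap (a := S.X c) (b := rr S c) hD (by have := (hA c c1).2; omega)
        refine no_cross hS (hA a a1).1 (hA b b1).1 ⟨?_, ?_, ?_⟩
        · by_contra hc
          have : S.X b / D ≤ S.X a / D := Nat.div_le_div_right (not_lt.1 hc)
          omega
        · by_contra hc
          have : rr S a / D ≤ S.X b / D := Nat.div_le_div_right (not_lt.1 hc)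
          omega
        · by_contra hc
          have : rr S b / D ≤ rr S a / D := Nat.div_le_div_right (not_lt.1 hc)
          omega
      intro x hx y hy hxy
      rw [Finset.mem_coe, Finset.mem_filter] at hx hy
      have hx2 : ∃ y' ∈ P, y'.1 = x.1 ∧ x.2 < y'.2 := by
        have := hx.2
        push Not at this
        exact this
      have hy2 : ∃ y' ∈ P, y'.1 = y.1 ∧ y.2 < y'.2 := by
        have := hy.2
        push Not at this
        exact this
      have h3 := key x hx.1 y hy.1 hy2 hxy
      have h4 := key y hy.1 x hx.1 hx2 hxy.symm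
      exact Prod.ext (by omega) hxy
  have h3 := Finset.card_filter_add_card_filter_not (s := P)
    (fun x => ∀ y ∈ P, y.1 = x.1 → y.2 ≤ x.2)
  omega

end Pool.Agent.SplNr
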