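import Pool.Agent.SplNr.Ent

set_option autoImplicit false

/-!
# Witnesses above a killed key, and the exceptional places
-/

namespace Pool.Agent.SplNr

open Pool.Agent.SplLog Pool.Agent.SplLs Pool.Agent.SplDq Pool.Agent.SplTr
open scoped Classical

variable {S : Sys} {D f s t u v w z p q g : ℕ}

/-- An exceptional place: a seen key lies between the old keys `w` and `rho w` on the path. -/
def Exc (S : Sys) (t w : ℕ) : Prop :=
  S.R t w ∧ S.R t (S.rho t w) ∧ S.lam t w ≤ ll S t ∧ S.lam t (S.rho t w) < S.lam t w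

theorem rho_mem (h : S.R t w) (h1 : S.rho t w < rr S t) : S.rho t w ∈ S.K := by
  have h2 := rr_le_top h.1
  rcases S.rho_mem t h.1.le w h.2.1 with h3 | h3
  · omega
  · exact h3

theorem R_rho_of (h : S.R t w) (h1 : S.rho t w < rr S t) : S.R t (S.rho t w) :=
  R_up h (rho_mem h h1)

/-- The witness lies at most three steps above `q`. -/
def Pos (S : Sys) (t q w : ℕ) : Prop := w = S.rho t q ∨ (S.R t (S.rho t q) ∧
  w = S.rho t (S.rho t q)) ∨ (S.R t (S.rho t q) ∧ S.R t (S.rho t (S.rho t q)) ∧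
  w = S.rho t (S.rho t (S.rho t q)))

/-- A killed key kills nobody. -/
theorem not_kl_of_kl (h : S.Kl t q p) : ¬ S.Kl t w q := by
  intro h1
  have h2 := (Sys.kl_facts h1).1
  exact Sys.not_kp_kl h2 h

theorem wit (hT : ThrU S) (hk : S.Kl t q p) (h1 : S.rho t q < rr S t) :
    rr S t ≤ S.rho t (S.rho t q) ∨ rr S t ≤ S.rho t (S.rho t (S.rho t q)) ∨
    Exc S t (S.rho t q) ∨ Exc S t (S.rho t (S.rho t q)) ∨
    ∃ w, Pos S t q w ∧ S.rho t q ≤ w ∧
      S.R t w ∧ w < rr S t ∧ ((∃ l, S.Kl t w l) ∨ New S t w) := by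
  unfold Pos
  obtain ⟨w1, e1⟩ : ∃ w1, w1 = S.rho t q := ⟨_, rfl⟩
  obtain ⟨w2, e2⟩ : ∃ w2, w2 = S.rho t w1 := ⟨_, rfl⟩
  obtain ⟨w3, e3⟩ : ∃ w3, w3 = S.rho t w2 := ⟨_, rfl⟩
  rw [← e1] at h1 ⊢
  rw [← e2, ← e3]
  by_cases h2 : rr S t ≤ w2
  · exact Or.inl h2
  by_cases h3 : rr S t ≤ w3
  · exact Or.inr (Or.inl h3)
  push Not at h2 h3
  have hR1 : S.R t w1 := by
    rw [e1]
    exact R_rho_of hk.1 (by rw [← e1]; exact h1)
  have hR2 : S.R t w2 := by
    rw [e2]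
    exact R_rho_of hR1 (by rw [← e2]; exact h2)
  have hR3 : S.R t w3 := by
    rw [e3]
    exact R_rho_of hR2 (by rw [← e3]; exact h3)
  have l12 : w1 < w2 := by rw [e2]; exact R_rho hR1
  have l23 : w2 < w3 := by rw [e3]; exact R_rho hR2
  have m12 := (Sys.R_above hR1 hR2 l12).2
  have m23 := (Sys.R_above hR2 hR3 l23).2
  by_cases n1 : New S t w1
  · exact Or.inr (Or.inr (Or.inr (Or.inr ⟨w1, Or.inl rfl, le_rfl, hR1, h1, Or.inr n1⟩)))
  by_cases n2 : New S t w2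
  · exact Or.inr (Or.inr (Or.inr (Or.inr
      ⟨w2, Or.inr (Or.inl ⟨hR1, rfl⟩), l12.le, hR2, h2, Or.inr n2⟩)))
  unfold New at n1 n2
  by_cases x1 : S.lam t w2 < S.lam t w1
  · right; right; left
    refine ⟨hR1, ?_, by omega, ?_⟩
    · rw [← e2]
      exact hR2
    · rw [← e2]
      exact x1
  by_cases x2 : S.lam t w3 < S.lam t w2
  · right; right; right; left
    refine ⟨hR2, ?_, by omega, ?_⟩
    · rw [← e3]
      exact hR3
    · rw [← e3]
      exact x2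
  right; right; right; right
  have h4 := hT t w1 (by rw [← e2, ← e3]; exact not_seen_of hR3.2.2.1 h3) hR1
    (by rw [← e2]; exact hR2) (by rw [← e2, ← e3]; exact hR3)
    (by rw [← e2]; omega) (by rw [← e2, ← e3]; omega)
  rw [← e2, ← e3] at h4
  rcases h4 with h4 | h4
  · exact ⟨w2, Or.inr (Or.inl ⟨hR1, rfl⟩), l12.le, hR2, h2, Or.inl ⟨_, h4⟩⟩
  · exact ⟨w3, Or.inr (Or.inr ⟨hR1, hR2, rfl⟩), by omega, hR3, h3, Or.inl ⟨_, h4⟩⟩

/-- The key between: it is touched and seen. -/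
theorem exc_key (hS : Spl S) (h : Exc S t w) :
    S.E t (S.lam t w) ∧ Seen S t (S.lam t w) := by
  obtain ⟨h1, h2, h3, h4⟩ := h
  have htm := h1.1
  have hK : S.lam t w ∈ S.K := by
    rcases S.lam_mem t htm.le w h1.2.1 with h5 | h5
    · omega
    · exact h5
  have h5 := S.lam_anc t htm.le w h1.2.1 hK
  have h6 := h1.2.2.1
  have h7 := h1.2.2.2
  have hL : S.L t (S.lam t w) := ⟨htm, hK, h7, by omega⟩
  exact ⟨Sys.L_E hL, seen_of_L hS hL h3⟩

theorem exc_inj (h : Exc S t w) (h' : Exc S t z) (he : S.lam t w = S.lam t z) : w = z := by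
  have key : ∀ a b, Exc S t a → Exc S t b → S.lam t a = S.lam t b → ¬ a < b := by
    intro a b ha hb hab hlt
    obtain ⟨a1, a2, a3, a4⟩ := ha
    obtain ⟨b1, b2, b3, b4⟩ := hb
    have h1 := (Sys.R_above a1 b1 hlt).1
    rcases Nat.eq_or_lt_of_le h1 with h2 | h2
    · rw [h2] at a4
      omega
    · have h3 := (Sys.R_above a2 b1 h2).2
      omega
  have h1 := key w z h h' he
  have h2 := key z w h' h he.symm
  omega

theorem exc_count (hS : Spl S) : S.cnt (fun t w => Exc S t w) ≤ irr S := by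
  unfold irr Sys.cnt
  apply Finset.card_le_card_of_injOn (fun x => (x.1, S.lam x.1 x.2))
  · intro x hx
    rw [Finset.mem_coe, Sys.mem_set] at hx ⊢
    obtain ⟨h1, h2, h3⟩ := hx
    have h4 := exc_key hS h3
    exact ⟨h1, Sys.E_mem h4.1, h4⟩
  · intro x hx y hy hxy
    rw [Finset.mem_coe, Sys.mem_set] at hx hy
    simp only [Prod.mk.injEq] at hxy
    obtain ⟨e1, e2⟩ := hxy
    rw [← e1] at e2
    have h1 := hy.2.2
    rw [← e1] at h1
    exact Prod.ext e1 (exc_inj hx.2.2 h1 e2)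

/-- `w` is the highest unseen key of the path. -/
def Hi (S : Sys) (t w : ℕ) : Prop := S.R t w ∧ w < rr S t ∧ rr S t ≤ S.rho t w

theorem hi_unique (h : Hi S t w) (h' : Hi S t z) : w = z := by
  obtain ⟨h1, h2, h3⟩ := h
  obtain ⟨h1', h2', h3'⟩ := h'
  rcases Nat.lt_trichotomy w z with h4 | h4 | h4
  · have := (Sys.R_above h1 h1' h4).1
    omega
  · exact h4
  · have := (Sys.R_above h1' h1 h4).1
    omega

/-- The lower neighbour on the path is unique. -/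
theorem rho_inj (h : S.R t w) (h' : S.R t z) (he : S.rho t w = S.rho t z) : w = z := by
  rcases Nat.lt_trichotomy w z with h4 | h4 | h4
  · have := (Sys.R_above h h' h4).1
    have := R_rho h'
    omega
  · exact h4
  · have := (Sys.R_above h' h h4).1
    have := R_rho h
    omega

/-- A predicate which holds for at most one key at every time. -/
theorem cnt_le_m {P : ℕ → ℕ → Prop} (h : ∀ t w z, P t w → P t z → w = z) : S.cnt P ≤ S.m := by
  unfold Sys.cnt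
  rw [← Finset.card_range S.m]
  apply Finset.card_le_card_of_injOn Prod.fst
  · intro x hx
    rw [Finset.mem_coe, Sys.mem_set] at hx
    rw [Finset.mem_coe, Finset.mem_range]
    exact hx.1
  · intro x hx y hy hxy
    rw [Finset.mem_coe, Sys.mem_set] at hx hy
    have h1 := hy.2.2
    rw [← hxy] at h1
    exact Prod.ext hxy (h _ _ _ hx.2.2 h1)

/-- An injective map of keys at every time. -/
theorem cnt_le_of {P P' : ℕ → ℕ → Prop} (F : ℕ → ℕ → ℕ)
    (h1 : ∀ t w, t < S.m → w ∈ S.K → P t w → F t w ∈ S.K ∧ P' t (F t w))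
    (h2 : ∀ t w z, P t w → P t z → F t w = F t z → w = z) : S.cnt P ≤ S.cnt P' := by
  unfold Sys.cnt
  apply Finset.card_le_card_of_injOn (fun x => (x.1, F x.1 x.2))
  · intro x hx
    rw [Finset.mem_coe, Sys.mem_set] at hx ⊢
    exact ⟨hx.1, h1 _ _ hx.1 hx.2.1 hx.2.2⟩
  · intro x hx y hy hxy
    rw [Finset.mem_coe, Sys.mem_set] at hx hy
    simp only [Prod.mk.injEq] at hxy
    obtain ⟨e1, e2⟩ := hxy
    rw [← e1] at e2
    have h3 := hy.2.2
    rw [← e1] at h3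
    exact Prod.ext e1 (h2 _ _ _ hx.2.2 h3 e2)

theorem cnt_or (P P' : ℕ → ℕ → Prop) : S.cnt (fun t w => P t w ∨ P' t w) ≤ S.cnt P + S.cnt P' := by
  unfold Sys.cnt
  refine le_trans (Finset.card_le_card ?_) (Finset.card_union_le _ _)
  intro x hx
  rw [Sys.mem_set] at hx
  rw [Finset.mem_union, Sys.mem_set, Sys.mem_set]
  rcases hx.2.2 with h | h
  · exact Or.inl ⟨hx.1, hx.2.1, h⟩
  · exact Or.inr ⟨hx.1, hx.2.1, h⟩

theorem cnt_mono {P P' : ℕ → ℕ → Prop} (h : ∀ t w, t < S.m → w ∈ S.K → P t w → P' t w) :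
    S.cnt P ≤ S.cnt P' := by
  unfold Sys.cnt
  apply Finset.card_le_card
  intro x hx
  rw [Sys.mem_set] at hx ⊢
  exact ⟨hx.1, hx.2.1, h _ _ hx.1 hx.2.1 hx.2.2⟩

/-- **The free kills.** -/
def Free (S : Sys) (t q : ℕ) : Prop :=
  S.R t q ∧ S.rho t q < rr S t ∧ (rr S t ≤ S.rho t (S.rho t q) ∨
    rr S t ≤ S.rho t (S.rho t (S.rho t q)) ∨ Exc S t (S.rho t q) ∨ Exc S t (S.rho t (S.rho t q)))

theorem free_count (hS : Spl S) : S.cnt (Free S) ≤ 2 * S.m + 2 * irr S := by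
  have h1 : S.cnt (fun t q => S.R t q ∧ S.rho t q < rr S t ∧ rr S t ≤ S.rho t (S.rho t q)) ≤
      S.m := by
    apply cnt_le_m
    rintro t w z ⟨a1, a2, a3⟩ ⟨b1, b2, b3⟩
    exact rho_inj a1 b1 (hi_unique ⟨R_rho_of a1 a2, a2, a3⟩ ⟨R_rho_of b1 b2, b2, b3⟩)
  have h2 : S.cnt (fun t q => S.R t q ∧ S.rho t q < rr S t ∧ S.rho t (S.rho t q) < rr S t ∧
      rr S t ≤ S.rho t (S.rho t (S.rho t q))) ≤ S.m := by
    apply cnt_le_m
    rintro t w z ⟨a1, a2, a3, a4⟩ ⟨b1, b2, b3, b4⟩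
    have a5 := R_rho_of a1 a2
    have b5 := R_rho_of b1 b2
    exact rho_inj a1 b1 (rho_inj a5 b5
      (hi_unique ⟨R_rho_of a5 a3, a3, a4⟩ ⟨R_rho_of b5 b3, b3, b4⟩))
  have h3 : S.cnt (fun t q => S.R t q ∧ S.rho t q < rr S t ∧ Exc S t (S.rho t q)) ≤ irr S := by
    refine le_trans (cnt_le_of (P' := fun t w => Exc S t w) (fun t q => S.rho t q) ?_ ?_)
      (exc_count hS)
    · rintro t w _ _ ⟨a1, a2, a3⟩
      exact ⟨rho_mem a1 a2, a3⟩
    · rintro t w z ⟨a1, a2, a3⟩ ⟨b1, b2, b3⟩ he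
      exact rho_inj a1 b1 he
  have h4 : S.cnt (fun t q => S.R t q ∧ S.rho t q < rr S t ∧ S.rho t (S.rho t q) < rr S t ∧
      Exc S t (S.rho t (S.rho t q))) ≤ irr S := by
    refine le_trans (cnt_le_of (P' := fun t w => Exc S t w) (fun t q => S.rho t (S.rho t q)) ?_ ?_)
      (exc_count hS)
    · rintro t w _ _ ⟨a1, a2, a3, a4⟩
      exact ⟨rho_mem (R_rho_of a1 a2) a3, a4⟩
    · rintro t w z ⟨a1, a2, a3, a4⟩ ⟨b1, b2, b3, b4⟩ he
      exact rho_inj a1 b1 (rho_inj (R_rho_of a1 a2) (R_rho_of b1 b2) he)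
  have h5 : S.cnt (Free S) ≤ S.cnt (fun t q =>
      (S.R t q ∧ S.rho t q < rr S t ∧ rr S t ≤ S.rho t (S.rho t q)) ∨
      ((S.R t q ∧ S.rho t q < rr S t ∧ S.rho t (S.rho t q) < rr S t ∧
        rr S t ≤ S.rho t (S.rho t (S.rho t q))) ∨
      ((S.R t q ∧ S.rho t q < rr S t ∧ Exc S t (S.rho t q)) ∨
      (S.R t q ∧ S.rho t q < rr S t ∧ S.rho t (S.rho t q) < rr S t ∧
        Exc S t (S.rho t (S.rho t q)))))) := by
    apply cnt_mono
    rintro t q _ _ ⟨a1, a2, a3⟩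
    by_cases h : rr S t ≤ S.rho t (S.rho t q)
    · exact Or.inl ⟨a1, a2, h⟩
    push Not at h
    rcases a3 with a3 | a3 | a3 | a3
    · omega
    · exact Or.inr (Or.inl ⟨a1, a2, h, a3⟩)
    · exact Or.inr (Or.inr (Or.inl ⟨a1, a2, a3⟩))
    · exact Or.inr (Or.inr (Or.inr ⟨a1, a2, h, a3⟩))
  have h6 := cnt_or (S := S) (fun t q => S.R t q ∧ S.rho t q < rr S t ∧ rr S t ≤ S.rho t (S.rho t q))
    (fun t q => (S.R t q ∧ S.rho t q < rr S t ∧ S.rho t (S.rho t q) < rr S t ∧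
        rr S t ≤ S.rho t (S.rho t (S.rho t q))) ∨
      ((S.R t q ∧ S.rho t q < rr S t ∧ Exc S t (S.rho t q)) ∨
      (S.R t q ∧ S.rho t q < rr S t ∧ S.rho t (S.rho t q) < rr S t ∧
        Exc S t (S.rho t (S.rho t q)))))
  have h7 := cnt_or (S := S) (fun t q => S.R t q ∧ S.rho t q < rr S t ∧
        S.rho t (S.rho t q) < rr S t ∧ rr S t ≤ S.rho t (S.rho t (S.rho t q)))
    (fun t q => (S.R t q ∧ S.rho t q < rr S t ∧ Exc S t (S.rho t q)) ∨
      (S.R t q ∧ S.rho t q < rr S t ∧ S.rho t (S.rho t q) < rr S t ∧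
        Exc S t (S.rho t (S.rho t q))))
  have h8 := cnt_or (S := S) (fun t q => S.R t q ∧ S.rho t q < rr S t ∧ Exc S t (S.rho t q))
    (fun t q => S.R t q ∧ S.rho t q < rr S t ∧ S.rho t (S.rho t q) < rr S t ∧
        Exc S t (S.rho t (S.rho t q)))
  omega

end Pool.Agent.SplNr
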